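import Pool.Agent.Lib.MP_610fe3_an.T6.Spec

/-!
# Basic consequences of the definitions
-/

open Set Filter Function Metric
open scoped Topology

namespace Pool.Agent.Lib.MP610fe3.T6

open Cf H6 T4

universe v

variable {M : Type v} [MetricSpace M] {f : M ≃ₜ M} {u : ℕ}
  {φ : M → EuclideanSpace ℝ (Fin u) → M} {C a b κ r r₁ e ρ η ρ₁ : ℝ}

theorem exp_pow (c : ℝ) (n : ℕ) : Real.exp (-c) ^ n = Real.exp (-(c * n)) := by
  rw [← Real.exp_nat_mul]
  ring_nf

namespace Sys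

theorem C1 (S : Sys f u φ C a b κ r r₁ e ρ) : 1 ≤ C := S.fwd.one_le

theorem r_pos (S : Sys f u φ C a b κ r r₁ e ρ) : 0 < r := S.fwd.ε_pos

theorem e_le_r (S : Sys f u φ C a b κ r r₁ e ρ) : 64 * e ≤ r := by
  have h1 := S.C1
  have h2 := S.e_le
  have h3 := S.e_pos
  nlinarith

/-- Contraction of unstable sets in the past. -/
theorem dec_un (S : Sys f u φ C a b κ r r₁ e ρ) {x z : M} (h : z ∈ Wl f.symm r x) (n : ℕ) :
    dist (f.symm^[n] z) (f.symm^[n] x) ≤ C * Real.exp (-(a * n)) * dist z x := by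
  have := S.bwd.dec x z h n
  rwa [exp_pow] at this

/-- Contraction of stable sets in the future. -/
theorem dec_st (S : Sys f u φ C a b κ r r₁ e ρ) {x z : M} (h : z ∈ Wl f r x) (n : ℕ) :
    dist (f^[n] z) (f^[n] x) ≤ C * Real.exp (-(b * n)) * dist z x := by
  have := S.fwd.dec x z h n
  rwa [exp_pow] at this

theorem exp_le_one {c : ℝ} (hc : 0 < c) (n : ℕ) : Real.exp (-(c * n)) ≤ 1 := by
  rw [Real.exp_le_one_iff]
  have : 0 ≤ c * n := by positivity
  linarith

theorem dec_un' (S : Sys f u φ C a b κ r r₁ e ρ) {x z : M} (h : z ∈ Wl f.symm r x) (n : ℕ) :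
    dist (f.symm^[n] z) (f.symm^[n] x) ≤ C * dist z x := by
  refine (S.dec_un h n).trans ?_
  have h1 := exp_le_one S.a_pos n
  have h2 := S.C1
  have h3 : (0 : ℝ) ≤ dist z x := dist_nonneg
  have h4 : C * Real.exp (-(a * n)) ≤ C * 1 := by gcongr
  rw [mul_one] at h4
  gcongr

theorem dec_st' (S : Sys f u φ C a b κ r r₁ e ρ) {x z : M} (h : z ∈ Wl f r x) (n : ℕ) :
    dist (f^[n] z) (f^[n] x) ≤ C * dist z x := by
  refine (S.dec_st h n).trans ?_
  have h1 := exp_le_one S.b_pos n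
  have h2 := S.C1
  have h3 : (0 : ℝ) ≤ dist z x := dist_nonneg
  have h4 : C * Real.exp (-(b * n)) ≤ C * 1 := by gcongr
  rw [mul_one] at h4
  gcongr

/-- Close points of an unstable set. -/
theorem wl_un (S : Sys f u φ C a b κ r r₁ e ρ) {x z : M} {t : ℝ} (h : z ∈ Wl f.symm r x)
    (ht : C * dist z x ≤ t) : z ∈ Wl f.symm t x := fun n => (S.dec_un' h n).trans ht

theorem wl_st (S : Sys f u φ C a b κ r r₁ e ρ) {x z : M} {t : ℝ} (h : z ∈ Wl f r x)
    (ht : C * dist z x ≤ t) : z ∈ Wl f t x := fun n => (S.dec_st' h n).trans ht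

theorem ρ_mem (S : Sys f u φ C a b κ r r₁ e ρ) :
    (0 : EuclideanSpace ℝ (Fin u)) ∈ closedBall (0 : EuclideanSpace ℝ (Fin u)) ρ :=
  mem_closedBall_self S.ρ_pos.le

/-- The size of the image of a small disc. -/
theorem mem_small (S : Sys f u φ C a b κ r r₁ e ρ) (x : M) {s : EuclideanSpace ℝ (Fin u)}
    (hs : s ∈ closedBall (0 : EuclideanSpace ℝ (Fin u)) ρ) {t : ℝ} (ht : C ^ 2 * ‖s‖ ≤ t) :
    φ x s ∈ Wl f.symm t x := by
  refine S.wl_un (Wl_mono (by linarith [S.r_pos]) (S.mem x s hs)) ?_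
  have h1 := S.upper x s hs 0 S.ρ_mem
  rw [S.zero, dist_zero_right] at h1
  have h2 := S.C1
  calc C * dist (φ x s) x ≤ C * (C * ‖s‖) := by gcongr
    _ = C ^ 2 * ‖s‖ := by ring
    _ ≤ t := ht

/-- Coordinates of close points. -/
theorem onto_small (S : Sys f u φ C a b κ r r₁ e ρ) {x z : M} (h : z ∈ Wl f.symm (4 * e) x) :
    ∃ s ∈ closedBall (0 : EuclideanSpace ℝ (Fin u)) (ρ / 2), ‖s‖ ≤ C * dist z x ∧ φ x s = z := by
  obtain ⟨s, hs, rfl⟩ := S.onto x z h
  have hρ := S.ρ_pos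
  have hs' : s ∈ closedBall (0 : EuclideanSpace ℝ (Fin u)) ρ :=
    closedBall_subset_closedBall (by linarith) hs
  refine ⟨s, hs, ?_, rfl⟩
  have h1 := S.lower x s hs' 0 S.ρ_mem
  rwa [S.zero, dist_zero_right] at h1

theorem hyp (S : Sys f u φ C a b κ r r₁ e ρ) :
    Hyp f C (max (Real.exp (-b)) (Real.exp (-a))) r (min r₁ (r / 16)) where
  fwd := S.fwd.mono S.r_pos le_rfl le_rfl (le_max_left _ _) (max_lt S.fwd.l_lt S.bwd.l_lt)
  bwd := S.bwd.mono S.r_pos le_rfl le_rfl (le_max_right _ _) (max_lt S.fwd.l_lt S.bwd.l_lt)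
  br := S.br
  r₁_pos := lt_min S.r₁_pos (by linarith [S.r_pos])
  r₁_le := by
    have : min r₁ (r / 16) ≤ r / 16 := min_le_right _ _
    linarith
  step := fun p q h => S.step p q (h.trans (min_le_left _ _))

/-- Lipschitz bound for the iterates. -/
theorem lip_iter (S : Sys f u φ C a b κ r r₁ e ρ) (x y : M) (n : ℕ) :
    dist (f^[n] x) (f^[n] y) ≤ C ^ n * dist x y := by
  have hC := S.C1
  induction n with
  | zero => simp
  | succ n ih =>
    rw [iterate_succ_apply', iterate_succ_apply']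
    calc dist (f (f^[n] x)) (f (f^[n] y)) ≤ C * dist (f^[n] x) (f^[n] y) := S.lip _ _
      _ ≤ C * (C ^ n * dist x y) := by gcongr
      _ = C ^ (n + 1) * dist x y := by ring

end Sys

theorem Sc.disc (S : Sys f u φ C a b κ r r₁ e ρ) (hc : Sc C e ρ η ρ₁) (x : M)
    {s : EuclideanSpace ℝ (Fin u)} (hs : s ∈ closedBall (0 : EuclideanSpace ℝ (Fin u)) ρ₁) :
    φ x s ∈ Wl f.symm η x := by
  have h1 := hc.ρ₁_le
  have h2 := hc.ρ₁_le'
  have h3 := hc.ρ₁_pos
  have h4 := S.C1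
  rw [mem_closedBall_zero_iff] at hs
  refine S.mem_small x (mem_closedBall_zero_iff.2 (by linarith)) ?_
  calc C ^ 2 * ‖s‖ ≤ C ^ 2 * ρ₁ := by gcongr
    _ ≤ η := h1

/-- Scales `η` and `ρ₁` exist. -/
theorem Sc.exists (S : Sys f u φ C a b κ r r₁ e ρ) : ∃ η ρ₁, Sc C e ρ η ρ₁ := by
  have hC := S.C1
  have he := S.e_pos
  have hρ := S.ρ_pos
  have hC0 : 0 < C := by linarith
  have hη : 0 < e / (16 * C) := by positivity
  refine ⟨e / (16 * C), min (e / (16 * C) / C ^ 2) (ρ / 2), hη, ?_, by positivity, ?_, ?_⟩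
  · field_simp
    exact le_rfl
  · calc C ^ 2 * min (e / (16 * C) / C ^ 2) (ρ / 2) ≤ C ^ 2 * (e / (16 * C) / C ^ 2) := by
          gcongr
          exact min_le_left _ _
      _ = e / (16 * C) := by field_simp
  · have : min (e / (16 * C) / C ^ 2) (ρ / 2) ≤ ρ / 2 := min_le_right _ _
    linarith

section Lad

variable {q : ℕ → M} {l : ℕ} {z z' z'' : M} {e' : ℝ}

theorem Lad.mono (h : Lad f e q l z z') (he : e ≤ e') : Lad f e' q l z z' := by
  obtain ⟨c, h0, hl, h1, h2⟩ := h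
  exact ⟨c, h0, hl, fun k hk => Wl_mono he (h1 k hk), fun k hk => Wl_mono he (h2 k hk)⟩

theorem Lad.zero (h : z ∈ Wl f.symm e (q 0)) : Lad f e q 0 z z :=
  ⟨fun _ => z, rfl, rfl, fun k hk => absurd hk (Nat.not_lt_zero k), fun k hk => by
    obtain rfl : k = 0 := by omega
    exact h⟩

theorem Lad.succ (h : Lad f e q l z z') (h1 : z'' ∈ Wl f e z') (h2 : z'' ∈ Wl f.symm e (q (l + 1))) :
    Lad f e q (l + 1) z z'' := by
  obtain ⟨c, h0, hl, h3, h4⟩ := h
  refine ⟨fun k => if k ≤ l then c k else z'', by simp [h0], by simp, fun k hk => ?_,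
    fun k hk => ?_⟩
  · rcases Nat.lt_or_ge k l with hkl | hkl
    · have e1 : k ≤ l := hkl.le
      have e2 : k + 1 ≤ l := hkl
      simp only [e1, e2, if_true]
      exact h3 k hkl
    · obtain rfl : k = l := by omega
      simp only [le_refl, if_true, Nat.not_succ_le_self, if_false]
      rw [hl]
      exact h1
  · rcases Nat.lt_or_ge l k with hkl | hkl
    · obtain rfl : k = l + 1 := by omega
      simp only [Nat.not_succ_le_self, if_false]
      exact h2
    · simp only [hkl, if_true]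
      exact h4 k hkl

theorem Lad.last (h : Lad f e q l z z') : z' ∈ Wl f.symm e (q l) := by
  obtain ⟨c, -, hl, -, h4⟩ := h
  rw [← hl]
  exact h4 l le_rfl

theorem Lad.first (h : Lad f e q l z z') : z ∈ Wl f.symm e (q 0) := by
  obtain ⟨c, h0, -, -, h4⟩ := h
  rw [← h0]
  exact h4 0 (Nat.zero_le _)

/-- Ladders stay in sets which are saturated by stable sets. -/
theorem Lad.sat {B : Set M} (h : Lad f e q l z z') (hB : ∀ x, ∀ y ∈ Wl f e x, x ∈ B → y ∈ B)
    (hz : z ∈ B) : z' ∈ B := by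
  obtain ⟨c, h0, hl, h3, -⟩ := h
  have : ∀ k ≤ l, c k ∈ B := by
    intro k
    induction k with
    | zero => intro _; rw [h0]; exact hz
    | succ k ih => intro hk; exact hB _ _ (h3 k (by omega)) (ih (by omega))
  rw [← hl]
  exact this l le_rfl

end Lad

end Pool.Agent.Lib.MP610fe3.T6
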