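import Pool.Agent.Lib.MP_610fe3_an.T6.Spec

/-! # Module TR: transport of Bowen balls along a ladder -/

set_option autoImplicit false

open Set Filter Function Metric
open scoped Topology

namespace Pool.Agent.Lib.MP610fe3.T6

open Cf H6 T4

universe v

namespace TrM

variable {M : Type v} [MetricSpace M] {f : M ≃ₜ M} {u : ℕ}
  {φ : M → EuclideanSpace ℝ (Fin u) → M} {C a b κ r r₁ e ρ : ℝ}

/-- the reversed ladder -/
theorem rev {e : ℝ} {q : ℕ → M} {l : ℕ} {z z' : M} (h : Lad f e q l z z') :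
    Lad f e (fun k => q (l - k)) l z' z := by
  obtain ⟨c, h0, hl, hs, hu⟩ := h
  refine ⟨fun k => c (l - k), by simpa using hl, by simpa using h0, fun k hk => ?_,
    fun k _ => hu _ (Nat.sub_le _ _)⟩
  have h1 := hs (l - (k + 1)) (by omega)
  have h2 : l - (k + 1) + 1 = l - k := by omega
  rw [h2] at h1
  exact Wl_comm h1

theorem exp_pow (x : ℝ) (n : ℕ) : Real.exp (-x) ^ n = Real.exp (-(x * n)) := by
  rw [← Real.exp_nat_mul]
  congr 1
  ring

/-- exponential decay on stable sets -/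
theorem dec_fwd (hs : Sys f u φ C a b κ r r₁ e ρ) {x z : M} (h : z ∈ Wl f r x) (n : ℕ) :
    dist (f^[n] z) (f^[n] x) ≤ C * Real.exp (-(b * n)) * dist z x := by
  have := hs.fwd.dec x z h n
  rwa [exp_pow] at this

/-- exponential decay on unstable sets -/
theorem dec_bwd (hs : Sys f u φ C a b κ r r₁ e ρ) {x z : M} (h : z ∈ Wl f.symm r x) (n : ℕ) :
    dist (f.symm^[n] z) (f.symm^[n] x) ≤ C * Real.exp (-(a * n)) * dist z x := by
  have := hs.bwd.dec x z h n
  rwa [exp_pow] at this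

theorem one_le (hs : Sys f u φ C a b κ r r₁ e ρ) : 1 ≤ C := hs.fwd.one_le

theorem e_le_r (hs : Sys f u φ C a b κ r r₁ e ρ) : 64 * e ≤ r := by
  have h1 := one_le hs
  have h2 := hs.e_le
  have h3 := hs.e_pos
  nlinarith

/-- displacement along a ladder at the time `N` -/
theorem disp (hs : Sys f u φ C a b κ r r₁ e ρ) {l : ℕ} {c : ℕ → M}
    (hc : ∀ k < l, c (k + 1) ∈ Wl f (2 * e) (c k)) (N : ℕ) :
    ∀ k ≤ l, dist (f^[N] (c k)) (f^[N] (c 0)) ≤ k * (C * Real.exp (-(b * N)) * (2 * e)) := by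
  intro k
  induction k with
  | zero => intro _; simp
  | succ k ih =>
    intro hk
    have h1 := ih (by omega)
    have h2 := hc k (by omega)
    have h3 : c (k + 1) ∈ Wl f r (c k) :=
      Wl_mono (by linarith [e_le_r hs, hs.e_pos]) h2
    have h4 := dec_fwd hs h3 N
    have h5 : C * Real.exp (-(b * N)) * dist (c (k + 1)) (c k) ≤
        C * Real.exp (-(b * N)) * (2 * e) :=
      mul_le_mul_of_nonneg_left (Wl_dist h2)
        (mul_nonneg (by linarith [one_le hs]) (Real.exp_pos _).le)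
    have h6 := dist_triangle (f^[N] (c (k + 1))) (f^[N] (c k)) (f^[N] (c 0))
    push_cast
    linarith

theorem sii (f : M ≃ₜ M) (n : ℕ) (x : M) : f.symm^[n] (f^[n] x) = x :=
  Function.LeftInverse.iterate f.symm_apply_apply n x

theorem iis (f : M ≃ₜ M) (n : ℕ) (x : M) : f^[n] (f.symm^[n] x) = x :=
  Function.LeftInverse.iterate f.apply_symm_apply n x

theorem sii_le (f : M ≃ₜ M) {k n : ℕ} (h : k ≤ n) (x : M) :
    f.symm^[k] (f^[n] x) = f^[n - k] x := by
  obtain ⟨j, rfl⟩ := Nat.exists_eq_add_of_le h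
  rw [iterate_add_apply, sii, Nat.add_sub_cancel_left]

theorem iis_le (f : M ≃ₜ M) {k n : ℕ} (h : k ≤ n) (x : M) :
    f^[k] (f.symm^[n] x) = f.symm^[n - k] x := by
  obtain ⟨j, rfl⟩ := Nat.exists_eq_add_of_le h
  rw [iterate_add_apply, iis, Nat.add_sub_cancel_left]

/-- a point near `x` until the time `N`, in the unstable set of `x` -/
theorem wl_iter {x y : M} {N : ℕ}
    (h : y ∈ Wl f.symm r x) (h1 : ∀ j ≤ N, dist (f^[j] y) (f^[j] x) ≤ r) :
    f^[N] y ∈ Wl f.symm r (f^[N] x) := by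
  intro i
  rcases le_or_gt i N with hi | hi
  · rw [sii_le f hi, sii_le f hi]
    exact h1 _ (Nat.sub_le _ _)
  · obtain ⟨j, rfl⟩ := Nat.exists_eq_add_of_le hi.le
    rw [add_comm, iterate_add_apply, iterate_add_apply, sii, sii]
    exact h j

/-- points in one unstable set which are near each other until the time `N` and close at the time
`N` -/
theorem close (hs : Sys f u φ C a b κ r r₁ e ρ) {x y : M} {N : ℕ}
    (h : y ∈ Wl f.symm r x) (h1 : ∀ j ≤ N, dist (f^[j] y) (f^[j] x) ≤ r) {δ : ℝ}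
    (h2 : dist (f^[N] y) (f^[N] x) ≤ δ) {j : ℕ} (hj : j ≤ N) :
    dist (f^[j] y) (f^[j] x) ≤ C * Real.exp (-(a * (N - j : ℕ))) * δ := by
  have h3 := dec_bwd hs (wl_iter h h1) (N - j)
  rw [sii_le f (Nat.sub_le _ _),
    sii_le f (Nat.sub_le _ _), Nat.sub_sub_self hj] at h3
  exact h3.trans (mul_le_mul_of_nonneg_left h2
    (mul_nonneg (by linarith [one_le hs]) (Real.exp_pos _).le))

/-- transport, forward -/
theorem fwd (hs : Sys f u φ C a b κ r r₁ e ρ) (q : ℕ → M) (l N : ℕ) (η : ℝ) (z w z' w' : M)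
    (hη : 0 < η) (h16 : 16 * C * η ≤ e) (hl : l * (C * Real.exp (-(b * N)) * (2 * e)) ≤ η)
    (hz : Lad f (2 * e) q l z z') (hw : Lad f (2 * e) q l w w')
    (h : ∀ k ≤ N, dist (f^[k] z) (f^[k] w) ≤ 2 * η) :
    ∀ k ≤ N, dist (f^[k] z') (f^[k] w') ≤ 4 * C * η := by
  obtain ⟨c, hc0, hcl, hcs, hcu⟩ := hz
  obtain ⟨d, hd0, hdl, hds, hdu⟩ := hw
  have hC := one_le hs
  have her := e_le_r hs
  have he := hs.e_pos
  have hnn : 0 ≤ C * Real.exp (-(b * N)) * (2 * e) :=
    mul_nonneg (mul_nonneg (by linarith) (Real.exp_pos _).le) (by linarith)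
  have key : ∀ k ≤ l, ∀ j ≤ N, dist (f^[j] (c k)) (f^[j] (d k)) ≤ 4 * C * η := by
    intro k
    induction k with
    | zero =>
      intro _ j hj
      rw [hc0, hd0]
      exact (h j hj).trans (by nlinarith)
    | succ k ih =>
      intro hk j hj
      have h1 := ih (by omega)
      -- at the time N
      have h2 : dist (f^[N] (c (k + 1))) (f^[N] (d (k + 1))) ≤ 4 * η := by
        have a1 := disp hs hcs N (k + 1) hk
        have a2 := disp hs hds N (k + 1) hk
        have a3 : ((k + 1 : ℕ) : ℝ) * (C * Real.exp (-(b * N)) * (2 * e)) ≤ η :=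
          (mul_le_mul_of_nonneg_right (by exact_mod_cast hk) hnn).trans hl
        have a4 := h N le_rfl
        rw [hc0] at a1
        rw [hd0] at a2
        have a5 := dist_triangle4 (f^[N] (c (k + 1))) (f^[N] z) (f^[N] w) (f^[N] (d (k + 1)))
        rw [dist_comm (f^[N] w)] at a5
        linarith
      have h3 : ∀ i ≤ N, dist (f^[i] (c (k + 1))) (f^[i] (d (k + 1))) ≤ r := by
        intro i hi
        have b1 := hcs k (by omega) i
        have b2 := hds k (by omega) i
        have b3 := h1 i hi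
        have b4 := dist_triangle4 (f^[i] (c (k + 1))) (f^[i] (c k)) (f^[i] (d k))
          (f^[i] (d (k + 1)))
        rw [dist_comm (f^[i] (d k))] at b4
        linarith
      have h4 : c (k + 1) ∈ Wl f.symm r (d (k + 1)) :=
        Wl_mono (by linarith) (Wl_trans (Wl_comm (hdu (k + 1) hk)) (hcu (k + 1) hk))
      have h5 := close hs h4 h3 h2 hj
      refine h5.trans ?_
      have h6 : Real.exp (-(a * (N - j : ℕ))) ≤ 1 := by
        apply Real.exp_le_one_iff.2
        have := hs.a_pos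
        have : (0 : ℝ) ≤ ((N - j : ℕ) : ℝ) := Nat.cast_nonneg _
        have : 0 ≤ a * ((N - j : ℕ) : ℝ) := by positivity
        linarith
      calc C * Real.exp (-(a * (N - j : ℕ))) * (4 * η) ≤ C * 1 * (4 * η) := by gcongr
        _ = 4 * C * η := by ring
  intro k hk
  rw [← hcl, ← hdl]
  exact key l le_rfl k hk

/-- transport, backward -/
theorem bwd (hs : Sys f u φ C a b κ r r₁ e ρ) (q : ℕ → M) (l N : ℕ) (η : ℝ) (z w z' w' : M)
    (hη : 0 < η) (h16 : 16 * C * η ≤ e) (hl : l * (C * Real.exp (-(b * N)) * (2 * e)) ≤ η)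
    (hz : Lad f (2 * e) q l z z') (hw : Lad f (2 * e) q l w w')
    (h : ∀ k ≤ N, dist (f^[k] z') (f^[k] w') ≤ 2 * η) :
    ∀ k ≤ N, dist (f^[k] z) (f^[k] w) ≤ 4 * C * η :=
  fwd hs (fun k => q (l - k)) l N η z' w' z w hη h16 hl (rev hz) (rev hw) h

/-- the accumulated displacement is small for large times -/
theorem exists_time (hs : Sys f u φ C a b κ r r₁ e ρ) (l : ℕ) {η : ℝ} (hη : 0 < η) :
    ∃ N₀ : ℕ, ∀ N ≥ N₀, l * (C * Real.exp (-(b * N)) * (2 * e)) ≤ η := by
  have hC := one_le hs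
  have he := hs.e_pos
  have h1 : Tendsto (fun N : ℕ => (l : ℝ) * (C * Real.exp (-(b * N)) * (2 * e))) atTop (𝓝 0) := by
    have h2 : Tendsto (fun N : ℕ => Real.exp (-(b * N))) atTop (𝓝 0) := by
      apply Real.tendsto_exp_neg_atTop_nhds_zero.comp
      exact Tendsto.const_mul_atTop hs.b_pos tendsto_natCast_atTop_atTop
    have h3 := ((h2.const_mul C).mul_const (2 * e)).const_mul (l : ℝ)
    simpa using h3
  obtain ⟨N₀, hN₀⟩ := eventually_atTop.1 (h1.eventually (gt_mem_nhds hη))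
  exact ⟨N₀, fun N hN => (hN₀ N hN).le⟩

/-- uniqueness of the end of a ladder -/
theorem unique (hs : Sys f u φ C a b κ r r₁ e ρ) (q : ℕ → M) (l : ℕ) (z z' z'' : M)
    (h1 : Lad f (2 * e) q l z z') (h2 : Lad f (2 * e) q l z z'') : z' = z'' := by
  have hC := one_le hs
  have her := e_le_r hs
  have he := hs.e_pos
  set η : ℝ := e / (16 * C) with hη
  have hη0 : 0 < η := by positivity
  have h16 : 16 * C * η ≤ e := by
    rw [hη]
    field_simp
    exact le_rfl
  obtain ⟨N₀, hN₀⟩ := exists_time hs l hη0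
  have h3 : z'' ∈ Wl f r z' := by
    intro k
    have h4 := fwd hs q l (max N₀ k) η z z z'' z' hη0 h16 (hN₀ _ (le_max_left _ _)) h2 h1
      (fun k _ => by rw [dist_self]; positivity) k (le_max_right _ _)
    linarith
  have h5 : z'' ∈ Wl f.symm r z' := by
    obtain ⟨c, -, hcl, -, hcu⟩ := h1
    obtain ⟨d, -, hdl, -, hdu⟩ := h2
    have e1 := hcu l le_rfl
    have e2 := hdu l le_rfl
    rw [hcl] at e1
    rw [hdl] at e2
    exact Wl_mono (by linarith) (Wl_trans (Wl_comm e1) e2)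
  have hr0 : 0 ≤ r := by linarith
  exact hs.br.unique z' z' z' z'' (mem_Wl_self hr0) (mem_Wl_self hr0) h3 h5

end TrM

theorem specTr : SpecTr.{v} := by
  intro M _ f u φ C a b κ r r₁ e ρ hs q l
  refine ⟨fun z z' z'' h1 h2 => TrM.unique hs q l z z' z'' h1 h2, fun z w z' h1 h2 =>
    TrM.unique hs _ l z' z w (TrM.rev h1) (TrM.rev h2), fun N η z w z' w' hη h16 hl hz hw =>
    ⟨TrM.fwd hs q l N η z w z' w' hη h16 hl hz hw, TrM.bwd hs q l N η z w z' w' hη h16 hl hz hw⟩⟩

end Pool.Agent.Lib.MP610fe3.T6
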