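import Pool.Agent.Lib.MP_610fe3_an.Defs
import Pool.Agent.Lib.MP_610fe3_an.Gen.Public

/-!
# Anosov diffeomorphisms with almost conformal unstable bundle: definitions of the statement
-/

open Set Filter Function Bundle
open scoped Manifold ContDiff Topology

namespace Pool.Agent.Lib.MP610fe3.T6

section Main

variable {V : Type*} [NormedAddCommGroup V] [NormedSpace ℝ V]
  {M : Type*} [TopologicalSpace M] [ChartedSpace V M]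
  [RiemannianBundle (fun x : M => TangentSpace 𝓘(ℝ, V) x)]

/-- The rates of an Anosov diffeomorphism: those of the stable bundle lie between `s` and `b`,
those of the unstable bundle are at least `a`, and `κ` is the exponential defect of conformality
on the unstable bundle. -/
structure Rates (f : M ≃ₘ^1⟮𝓘(ℝ, V), 𝓘(ℝ, V)⟯ M)
    (Es Eu : ∀ x : M, Submodule ℝ (TangentSpace 𝓘(ℝ, V) x)) (C s b a κ : ℝ) : Prop where
  s_fwd : ∀ (n : ℕ) (x : M), ∀ v ∈ Es x,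
    ‖mfderiv 𝓘(ℝ, V) 𝓘(ℝ, V) ((⇑f)^[n]) x v‖ ≤ C * Real.exp (-s * n) * ‖v‖
  s_bwd : ∀ (n : ℕ) (x : M), ∀ v ∈ Es x,
    ‖mfderiv 𝓘(ℝ, V) 𝓘(ℝ, V) ((⇑f.symm)^[n]) x v‖ ≤ C * Real.exp (b * n) * ‖v‖
  u_bwd : ∀ (n : ℕ) (x : M), ∀ v ∈ Eu x,
    ‖mfderiv 𝓘(ℝ, V) 𝓘(ℝ, V) ((⇑f.symm)^[n]) x v‖ ≤ C * Real.exp (-a * n) * ‖v‖
  conf : ∀ (n : ℕ) (x : M), ∀ v ∈ Eu x, ∀ w ∈ Eu x,
    ‖mfderiv 𝓘(ℝ, V) 𝓘(ℝ, V) ((⇑f)^[n]) x v‖ * ‖w‖ ≤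
      C * Real.exp (κ * n) * ‖mfderiv 𝓘(ℝ, V) 𝓘(ℝ, V) ((⇑f)^[n]) x w‖ * ‖v‖

/-- The unstable bundle `Eu` (of dimension `d`) is almost conformal, relative to the rates. -/
def NearlyConformal (f : M ≃ₘ^1⟮𝓘(ℝ, V), 𝓘(ℝ, V)⟯ M)
    (Es Eu : ∀ x : M, Submodule ℝ (TangentSpace 𝓘(ℝ, V) x)) : Prop :=
  ∃ (d : ℕ) (C s b a κ : ℝ), 1 ≤ d ∧ (∀ x, Module.finrank ℝ (Eu x) = d) ∧
    0 < s ∧ s ≤ b ∧ 0 < a ∧ 0 ≤ κ ∧ Rates f Es Eu C s b a κ ∧ d * κ * (d * b - s) < a * s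

end Main

universe u v

/-- The main theorem. -/
def SpecMain : Prop :=
  ∀ {V : Type u} [NormedAddCommGroup V] [NormedSpace ℝ V] [FiniteDimensional ℝ V]
    {M : Type v} [TopologicalSpace M] [CompactSpace M] [T2Space M] [ConnectedSpace M]
    [ChartedSpace V M] [IsManifold 𝓘(ℝ, V) ∞ M]
    [RiemannianBundle (fun x : M => TangentSpace 𝓘(ℝ, V) x)]
    [IsContinuousRiemannianBundle V (fun x : M => TangentSpace 𝓘(ℝ, V) x)]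
    (f : M ≃ₘ^1⟮𝓘(ℝ, V), 𝓘(ℝ, V)⟯ M)
    (Es Eu : ∀ x : M, Submodule ℝ (TangentSpace 𝓘(ℝ, V) x)),
    Gen.IsAnosovSplitting f Es Eu → NearlyConformal f Es Eu ∨ NearlyConformal f.symm Eu Es →
    TopTransitive f

end Pool.Agent.Lib.MP610fe3.T6
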