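import Pool.Agent.Lib.MP_610fe3_an.T6.MainB
import Pool.Agent.Lib.MP_610fe3_an.T6.Statement
import Pool.Agent.Lib.MP_610fe3_an.T4.MainC
import Pool.Agent.Lib.MP_610fe3_an.T4.Pow
import Pool.Agent.Lib.MP_610fe3_an.H6E.Mfd
import Pool.Agent.Lib.MP_610fe3_an.Cf.AssemblyM

/-!
# The theorem for manifolds
-/

open Set Filter Function Bundle
open scoped Manifold ContDiff Topology

namespace Pool.Agent.Lib.MP610fe3.T6

open Cf H6 T4

universe u v

namespace MainC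

open Gen Mfd T4.MainA

section Rate

variable {V : Type*} [NormedAddCommGroup V] [NormedSpace ℝ V] [FiniteDimensional ℝ V] {N : ℕ}
  {M : Type*} [MetricSpace M] [CompactSpace M]
  [ChartedSpace V M] [IsManifold 𝓘(ℝ, V) ∞ M]
  [RiemannianBundle (fun x : M => TangentSpace 𝓘(ℝ, V) x)]
  [IsContinuousRiemannianBundle V (fun x : M => TangentSpace 𝓘(ℝ, V) x)]

/-- Quasiconformality of the derivative, seen in the ambient space. -/
theorem conf_transfer (E : Emb M (EuclideanSpace ℝ (Fin N)))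
    (he : ContMDiff 𝓘(ℝ, V) (𝓡 N) ∞ E.e)
    (hinj : ∀ x, Injective (mfderiv 𝓘(ℝ, V) (𝓡 N) E.e x))
    (hP : ∀ x, E.P x = Gen.KF V E.e E.e x)
    {h : M → M} (hh : ContMDiff 𝓘(ℝ, V) 𝓘(ℝ, V) 1 h)
    {D : M → EuclideanSpace ℝ (Fin N) →L[ℝ] EuclideanSpace ℝ (Fin N)} (hD : HasD E h D)
    {F : ∀ x : M, Submodule ℝ (TangentSpace 𝓘(ℝ, V) x)}
    {Q : M → EuclideanSpace ℝ (Fin N) →L[ℝ] EuclideanSpace ℝ (Fin N)}
    (hF : ∀ x, (Q x).range = (F x).map (mfderiv 𝓘(ℝ, V) (𝓡 N) E.e x).toLinearMap)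
    {C κ : ℝ} (hC : 0 ≤ C) (hκ : 0 ≤ κ)
    (H : ∀ (k : ℕ) (x : M), ∀ v ∈ F x, ∀ w ∈ F x,
      ‖mfderiv 𝓘(ℝ, V) 𝓘(ℝ, V) (h^[k]) x v‖ * ‖w‖ ≤
        C * κ ^ k * ‖mfderiv 𝓘(ℝ, V) 𝓘(ℝ, V) (h^[k]) x w‖ * ‖v‖) :
    ∃ C' : ℝ, 0 ≤ C' ∧ ∀ (k : ℕ) (x : M) (v w : EuclideanSpace ℝ (Fin N)),
      ‖iterD D h k x (Q x v)‖ * ‖Q x w‖ ≤ C' * κ ^ k * ‖iterD D h k x (Q x w)‖ * ‖Q x v‖ := by
  obtain ⟨c₀, C₁, hc₀, hC₁, hn⟩ := exists_norm_bounds E.e he hinj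
  have hinj' : ∀ x, Injective (dF V E.e x) := hinj
  have hn' : ∀ x (v : TangentSpace 𝓘(ℝ, V) x), c₀ * ‖v‖ ≤ ‖dE V E.e x v‖ ∧
      ‖dE V E.e x v‖ ≤ C₁ * ‖v‖ := by
    intro x v
    have h1 := hn x v
    rw [norm_tangentSpace_vectorSpace] at h1
    exact h1
  have hDd : ∀ x (u : TangentSpace 𝓘(ℝ, V) x), D x (dE V E.e x u) =
      dE V E.e (h x) (mfderiv 𝓘(ℝ, V) 𝓘(ℝ, V) h x u) := by
    intro x u
    have he1 : ContMDiff 𝓘(ℝ, V) (𝓡 N) 1 E.e := he.of_le (by exact_mod_cast le_top)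
    have h3 := mfderiv_comp (I := 𝓘(ℝ, V)) (I' := 𝓘(ℝ, V)) (I'' := 𝓡 N) (f := h) x
      (he1.mdifferentiable (by norm_num) (h x)) (hh.mdifferentiable (by norm_num) x)
    rw [HasD_eq_KF E he hinj hP hh hD x]
    refine (KF_apply hinj' x u).trans ?_
    unfold dF
    rw [h3]
    rfl
  have hit : ∀ (k : ℕ) x (v : TangentSpace 𝓘(ℝ, V) x), iterD D h k x (dE V E.e x v) =
      dE V E.e (h^[k] x) (mfderiv 𝓘(ℝ, V) 𝓘(ℝ, V) (h^[k]) x v) := fun k x v =>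
    iterD_dE he hh hDd k x v
  have hlow : ∀ x (v : TangentSpace 𝓘(ℝ, V) x), ‖v‖ ≤ 1 / c₀ * ‖dE V E.e x v‖ := by
    intro x v
    rw [one_div, inv_mul_eq_div, le_div_iff₀ hc₀, mul_comm]
    exact (hn' x v).1
  refine ⟨C₁ * C₁ * C * (1 / c₀) * (1 / c₀), by positivity, fun k x v w => ?_⟩
  have hmem : ∀ v, ∃ v' ∈ F x, dE V E.e x v' = Q x v := by
    intro v
    have h1 : Q x v ∈ (Q x).range := ⟨v, rfl⟩
    rw [hF x] at h1
    obtain ⟨v', hv', hvv'⟩ := h1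
    exact ⟨v', hv', hvv'⟩
  obtain ⟨v', hv', hvv'⟩ := hmem v
  obtain ⟨w', hw', hww'⟩ := hmem w
  rw [← hvv', ← hww', hit, hit]
  have hκk : 0 ≤ κ ^ k := pow_nonneg hκ k
  have h1 := H k x v' hv' w' hw'
  set Dv := mfderiv 𝓘(ℝ, V) 𝓘(ℝ, V) (h^[k]) x v' with hDv
  set Dw := mfderiv 𝓘(ℝ, V) 𝓘(ℝ, V) (h^[k]) x w' with hDw
  calc ‖dE V E.e (h^[k] x) Dv‖ * ‖dE V E.e x w'‖ ≤ (C₁ * ‖Dv‖) * (C₁ * ‖w'‖) := by
        have i1 := (hn' _ Dv).2
        have i2 := (hn' _ w').2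
        gcongr
    _ = C₁ * C₁ * (‖Dv‖ * ‖w'‖) := by ring
    _ ≤ C₁ * C₁ * (C * κ ^ k * ‖Dw‖ * ‖v'‖) := by gcongr
    _ ≤ C₁ * C₁ * (C * κ ^ k * (1 / c₀ * ‖dE V E.e (h^[k] x) Dw‖) *
          (1 / c₀ * ‖dE V E.e x v'‖)) := by
        have i1 := hlow _ Dw
        have i2 := hlow _ v'
        gcongr
    _ = _ := by ring

end Rate

section Pow

variable {V : Type u} [NormedAddCommGroup V] [NormedSpace ℝ V]
  {M : Type v} [TopologicalSpace M] [ChartedSpace V M]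
  [RiemannianBundle (fun x : M => TangentSpace 𝓘(ℝ, V) x)]

/-- Powers of an Anosov diffeomorphism. -/
theorem exists_pow (f : M ≃ₘ^1⟮𝓘(ℝ, V), 𝓘(ℝ, V)⟯ M)
    (Es Eu : ∀ x : M, Submodule ℝ (TangentSpace 𝓘(ℝ, V) x)) (C s b a κ : ℝ) {n : ℕ} (hn : 0 < n)
    (hA : Gen.IsAnosovSplitting f Es Eu) (hR : Rates f Es Eu C s b a κ) :
    ∃ g : M ≃ₘ^1⟮𝓘(ℝ, V), 𝓘(ℝ, V)⟯ M, (⇑g = (⇑f)^[n]) ∧ (⇑g.symm = (⇑f.symm)^[n]) ∧
      Gen.IsAnosovSplitting g Es Eu ∧ Rates g Es Eu C (n * s) (n * b) (n * a) (n * κ) := by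
  have hg : ⇑(PowM.dpow f n) = (⇑f)^[n] := PowM.dpow_coe f n
  have hg' : ⇑(PowM.dpow f n).symm = (⇑f.symm)^[n] := PowM.dpow_symm_coe f n
  have hgk : ∀ k, (⇑(PowM.dpow f n))^[k] = (⇑f)^[n * k] := fun k => by rw [hg, iterate_mul]
  have hgk' : ∀ k, (⇑(PowM.dpow f n).symm)^[k] = (⇑f.symm)^[n * k] := fun k => by
    rw [hg', iterate_mul]
  have hc : ∀ (t : ℝ) (k : ℕ), n * t * k = t * (n * k : ℕ) := fun t k => by
    push_cast
    ring
  have hc' : ∀ (t : ℝ) (k : ℕ), -(n * t) * k = -t * (n * k : ℕ) := fun t k => by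
    push_cast
    ring
  refine ⟨PowM.dpow f n, hg, hg', ?_, ?_⟩
  · refine ⟨hA.isCompl, fun x => ?_, fun x => ?_, ?_⟩
    · rw [hg]
      exact PowM.map_iter f hA.map_s n x
    · rw [hg]
      exact PowM.map_iter f hA.map_u n x
    · obtain ⟨C', l, hC, hl, hl1, h⟩ := hA.estimate
      refine ⟨C', l ^ n, hC, pow_pos hl n, pow_lt_one₀ hl.le hl1 hn.ne', fun k x => ?_⟩
      rw [hgk, hgk', ← pow_mul]
      exact h (n * k) x
  · refine ⟨fun k x v hv => ?_, fun k x v hv => ?_, fun k x v hv => ?_, fun k x v hv w hw => ?_⟩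
    · rw [hgk, hc']
      exact hR.s_fwd (n * k) x v hv
    · rw [hgk', hc]
      exact hR.s_bwd (n * k) x v hv
    · rw [hgk', hc']
      exact hR.u_bwd (n * k) x v hv
    · rw [hgk, hc]
      exact hR.conf (n * k) x v hv w hw

end Pow

/-- Rates with `κ < a`. -/
theorem exists_kappa {V : Type u} [NormedAddCommGroup V] [NormedSpace ℝ V]
    {M : Type v} [TopologicalSpace M] [ChartedSpace V M]
    [RiemannianBundle (fun x : M => TangentSpace 𝓘(ℝ, V) x)]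
    (f : M ≃ₘ^1⟮𝓘(ℝ, V), 𝓘(ℝ, V)⟯ M)
    (Es Eu : ∀ x : M, Submodule ℝ (TangentSpace 𝓘(ℝ, V) x)) {C s b a κ : ℝ} {d : ℕ} (hd : 1 ≤ d)
    (hdim : ∀ x, Module.finrank ℝ (Eu x) = d) (hs : 0 < s) (hsb : s ≤ b) (ha : 0 < a)
    (hκ : 0 ≤ κ) (hR : Rates f Es Eu C s b a κ) (h : d * κ * (d * b - s) < a * s) :
    ∃ C' κ' : ℝ, 0 ≤ C' ∧ 0 ≤ κ' ∧ κ' < a ∧ Rates f Es Eu C' s b a κ' ∧
      d * κ' * (d * b - s) < a * s := by
  have hup : ∀ {c t : ℝ}, 0 ≤ c → 0 ≤ t → ∀ {x : ℝ}, x ≤ C * c * t → x ≤ max C 1 * c * t := by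
    intro c t hc ht x h
    refine h.trans ?_
    gcongr
    exact le_max_left _ _
  rcases Nat.eq_or_lt_of_le hd with h1 | h2
  · -- dimension one
    refine ⟨max C 1, 0, by positivity, le_rfl, ha, ⟨fun n x v hv => ?_, fun n x v hv => ?_,
      fun n x v hv => ?_, fun n x v hv w hw => ?_⟩, ?_⟩
    · exact hup (Real.exp_pos _).le (norm_nonneg _) (hR.s_fwd n x v hv)
    · exact hup (Real.exp_pos _).le (norm_nonneg _) (hR.s_bwd n x v hv)
    · exact hup (Real.exp_pos _).le (norm_nonneg _) (hR.u_bwd n x v hv)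
    · have h3 : Module.finrank ℝ (Eu x) = 1 := by rw [hdim x, ← h1]
      obtain ⟨e, -, he⟩ := finrank_eq_one_iff'.1 h3
      obtain ⟨c, hc⟩ := he ⟨v, hv⟩
      obtain ⟨c', hc'⟩ := he ⟨w, hw⟩
      have hv' : v = c • (e : TangentSpace 𝓘(ℝ, V) x) := by
        have := congrArg Subtype.val hc
        exact this.symm
      have hw' : w = c' • (e : TangentSpace 𝓘(ℝ, V) x) := by
        have := congrArg Subtype.val hc'
        exact this.symm
      rw [hv', hw', map_smul, map_smul, norm_smul, norm_smul, norm_smul, norm_smul, zero_mul,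
        Real.exp_zero, mul_one]
      set D := ‖mfderiv 𝓘(ℝ, V) 𝓘(ℝ, V) ((⇑f)^[n]) x (e : TangentSpace 𝓘(ℝ, V) x)‖ with hD
      have i1 : 0 ≤ ‖c'‖ * D * (‖c‖ * ‖(e : TangentSpace 𝓘(ℝ, V) x)‖) := by positivity
      calc ‖c‖ * D * (‖c'‖ * ‖(e : TangentSpace 𝓘(ℝ, V) x)‖)
          = 1 * (‖c'‖ * D * (‖c‖ * ‖(e : TangentSpace 𝓘(ℝ, V) x)‖)) := by ring
        _ ≤ max C 1 * (‖c'‖ * D * (‖c‖ * ‖(e : TangentSpace 𝓘(ℝ, V) x)‖)) := by
            gcongr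
            exact le_max_right _ _
        _ = _ := by ring
    · have : 0 < a * s := by positivity
      simpa using this
  · -- dimension at least two
    refine ⟨max C 1, κ, by positivity, hκ, ?_, ⟨fun n x v hv => ?_, fun n x v hv => ?_,
      fun n x v hv => ?_, fun n x v hv w hw => ?_⟩, h⟩
    · have h3 : (2 : ℝ) ≤ d := by exact_mod_cast h2
      have h4 : κ * s ≤ d * κ * (d * b - s) := by
        have i1 : s ≤ d * b - s := by nlinarith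
        have i2 : κ ≤ d * κ := by nlinarith
        have i3 : 0 ≤ d * κ := by positivity
        calc κ * s ≤ d * κ * s := by gcongr
          _ ≤ d * κ * (d * b - s) := by gcongr
      have h5 : κ * s < a * s := h4.trans_lt h
      exact lt_of_mul_lt_mul_right h5 hs.le
    · exact hup (Real.exp_pos _).le (norm_nonneg _) (hR.s_fwd n x v hv)
    · exact hup (Real.exp_pos _).le (norm_nonneg _) (hR.s_bwd n x v hv)
    · exact hup (Real.exp_pos _).le (norm_nonneg _) (hR.u_bwd n x v hv)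
    · have h3 := hR.conf n x v hv w hw
      have h4 : C * Real.exp (κ * n) * ‖mfderiv 𝓘(ℝ, V) 𝓘(ℝ, V) ((⇑f)^[n]) x w‖ * ‖v‖ =
          C * Real.exp (κ * n) * (‖mfderiv 𝓘(ℝ, V) 𝓘(ℝ, V) ((⇑f)^[n]) x w‖ * ‖v‖) := by ring
      rw [h4] at h3
      have h5 := hup (Real.exp_pos _).le (by positivity) h3
      rw [← mul_assoc] at h5
      exact h5

/-- The theorem for metric spaces. -/
theorem main_metric (specQc : SpecQc.{v, 0}) (specCore : SpecCore.{v})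
    {V : Type u} [NormedAddCommGroup V] [NormedSpace ℝ V] [FiniteDimensional ℝ V] {N : ℕ}
    {M : Type v} [MetricSpace M] [CompactSpace M] [ConnectedSpace M]
    [ChartedSpace V M] [IsManifold 𝓘(ℝ, V) ∞ M]
    [RiemannianBundle (fun x : M => TangentSpace 𝓘(ℝ, V) x)]
    [IsContinuousRiemannianBundle V (fun x : M => TangentSpace 𝓘(ℝ, V) x)]
    (e : M → EuclideanSpace ℝ (Fin N)) (hiso : Isometry e)
    (he : ContMDiff 𝓘(ℝ, V) (𝓡 N) ∞ e)
    (hinj : ∀ x, Injective (mfderiv 𝓘(ℝ, V) (𝓡 N) e x))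
    (f : M ≃ₘ^1⟮𝓘(ℝ, V), 𝓘(ℝ, V)⟯ M)
    (Es Eu : ∀ x : M, Submodule ℝ (TangentSpace 𝓘(ℝ, V) x))
    (hA : Gen.IsAnosovSplitting f Es Eu) (hN : NearlyConformal f Es Eu) :
    TopTransitive f := by
  by_contra hnt
  obtain ⟨d, C₀, s₀, b₀, a₀, κ₀, hd, hdim, hs₀, hsb₀, ha₀, hκ₀, hR₀, hp₀⟩ := hN
  obtain ⟨C, κ₁, hC, hκ₁, hκa₁, hR, hpinch⟩ := exists_kappa f Es Eu hd hdim hs₀ hsb₀ ha₀ hκ₀ hR₀
    hp₀
  obtain ⟨E, hE, hEP, hr⟩ := Gen.exists_emb e hiso he hinj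
  subst hE
  -- the power
  obtain ⟨S₀, hS₀, -, -⟩ := Gen.exists_split E he hinj hr f Es Eu hA
  obtain ⟨c, hc0, hc⟩ := S₀.expansive hS₀
  have hTM : TM.Hyp f.toHomeomorph c := ⟨hc0, hc, S₀.shadowing hS₀⟩
  obtain ⟨n, A, R, hn, hedge⟩ := hTM.exists_edge hnt
  obtain ⟨g, hg, hg', hAg, hRg⟩ := exists_pow f Es Eu C s₀ b₀ a₀ κ₁ hn hA hR
  obtain ⟨rA, hrA, hattr⟩ := exists_attr (g := g.toHomeomorph) hTM hn hg hg' hedge
  obtain ⟨S, hS, hSs, hSu⟩ := Gen.exists_split E he hinj hr g Es Eu hAg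
  obtain ⟨K, hK1, hK⟩ := S.exists_bdd
  have hK0 : 0 ≤ K := by linarith
  have hn0 : (0 : ℝ) < n := by exact_mod_cast hn
  have hexp : ∀ (t : ℝ) (k : ℕ), Real.exp (t * k) = Real.exp t ^ k := fun t k => exp_rate t k
  obtain ⟨C₁, hC₁, H₁⟩ := rate_transfer E he hinj hEP g.contMDiff S.hD hK0 (fun x => (hK x).1)
    hSs hC (Real.exp_pos (-(n * s₀))).le (fun k x v hv => by
      rw [← hexp]
      exact hRg.s_fwd k x v hv)
  obtain ⟨C₂, hC₂, H₂⟩ := rate_transfer E he hinj hEP g.symm.contMDiff S.hDi hK0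
    (fun x => (hK x).1) hSs hC (Real.exp_pos (n * b₀)).le (fun k x v hv => by
      rw [← hexp]
      exact hRg.s_bwd k x v hv)
  obtain ⟨C₃, hC₃, H₃⟩ := rate_transfer E he hinj hEP g.symm.contMDiff S.hDi hK0
    (fun x => (hK x).2) hSu hC (Real.exp_pos (-(n * a₀))).le (fun k x v hv => by
      rw [← hexp]
      exact hRg.u_bwd k x v hv)
  obtain ⟨C₄, hC₄, H₄⟩ := conf_transfer E he hinj hEP g.contMDiff S.hD hSu hC
    (Real.exp_pos (n * κ₁)).le (fun k x v hv w hw => by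
      rw [← hexp]
      exact hRg.conf k x v hv w hw)
  set C' : ℝ := max (max C₁ C₂) (max C₃ C₄) with hC'
  have hC'0 : 0 ≤ C' := hC₁.trans ((le_max_left _ _).trans (le_max_left _ _))
  have hup' : ∀ {κ c : ℝ} (k : ℕ) {t u : ℝ}, c ≤ C' → 0 ≤ κ → 0 ≤ t → u ≤ c * κ ^ k * t →
      u ≤ C' * κ ^ k * t := by
    intro κ c k t u hc hκ ht h
    refine h.trans ?_
    have : 0 ≤ κ ^ k := pow_nonneg hκ k
    gcongr
  have hrank : ∀ x, Module.finrank ℝ ((S.U x).range) = d := finrank_range_eq E hinj hSu hdim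
  have hns : n * s₀ ≤ n * b₀ := by gcongr
  obtain ⟨r, hr1, hr2⟩ := MainB.basin_univ specQc specCore S hS hd hrank hC'0
    (a := n * a₀) (s := n * s₀) (b := n * b₀) (κ := n * κ₁) (by positivity) (by positivity) hns
    (by positivity) (by gcongr)
    (fun k x w => hup' k ((le_max_left _ _).trans (le_max_left _ _)) (Real.exp_pos _).le
      (norm_nonneg _) (H₁ k x w))
    (fun k x w => hup' k ((le_max_right _ _).trans (le_max_left _ _)) (Real.exp_pos _).le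
      (norm_nonneg _) (H₂ k x w))
    (fun k x w => hup' k ((le_max_left _ _).trans (le_max_right _ _)) (Real.exp_pos _).le
      (norm_nonneg _) (H₃ k x w))
    (fun k x v w => by
      have h1 := H₄ k x v w
      rw [mul_assoc (C₄ * Real.exp (n * κ₁) ^ k)] at h1
      have h2 := hup' k ((le_max_right _ _).trans (le_max_right _ _)) (Real.exp_pos _).le
        (by positivity) h1
      rw [← mul_assoc] at h2
      exact h2)
    (by
      have h1 : (d : ℝ) * (n * κ₁) * (d * (n * b₀) - n * s₀) =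
          n * n * (d * κ₁ * (d * b₀ - s₀)) := by ring
      have h2 : (n : ℝ) * a₀ * (n * s₀) = n * n * (a₀ * s₀) := by ring
      rw [h1, h2]
      gcongr)
    A rA hrA (fun r hr => (hattr r hr).1)
  exact (hattr r hr1).2 hr2

/-- **The main theorem** from its modules. -/
theorem specMain (specQc : SpecQc.{v, 0}) (specCore : SpecCore.{v}) : SpecMain.{u, v} := by
  intro V _ _ _ M _ _ _ _ _ _ _ _ f Es Eu hA hN
  obtain ⟨N, e, he, hemb, hinj⟩ := exists_embedding_euclidean_of_compact (I := 𝓘(ℝ, V)) (M := M)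
  let _ : MetricSpace M := hemb.isEmbedding.comapMetricSpace e
  have hiso : Isometry e := hemb.isEmbedding.to_isometry
  rcases hN with hN | hN
  · exact main_metric specQc specCore e hiso he hinj f Es Eu hA hN
  · have h1 := main_metric specQc specCore e hiso he hinj f.symm Eu Es
      (IsAnosovSplitting.symm hA) hN
    exact topTransitive_symm f.toHomeomorph h1

end MainC

end Pool.Agent.Lib.MP610fe3.T6
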