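import Pool.Agent.Lib.MP_610fe3_an.T6.Basic
import Pool.Agent.Lib.MP_610fe3_an.H6E.Main

/-!
# Choice of the rates and of the scales
-/

open Set Filter Function Metric
open scoped Topology

namespace Pool.Agent.Lib.MP610fe3.T6

open Cf H6 T4

universe v w

namespace MainB

theorem Qc.mono {M : Type v} [MetricSpace M] {f : M ≃ₜ M} {r r' C C' κ : ℝ} (h : Qc f r C κ)
    (hr : r' ≤ r) (hC : C ≤ C') : Qc f r' C' κ := by
  intro n z p hp q hq p' hp' q' hq'
  refine (h n z p (Wl_mono hr hp) q (Wl_mono hr hq) p' (Wl_mono hr hp') q'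
    (Wl_mono hr hq')).trans ?_
  gcongr

/-- Rates with strict inequalities. -/
theorem exists_rates {u : ℕ} {a s b κ : ℝ} (ha : 0 < a) (hs : 0 < s) (hκa : κ < a)
    (h : u * κ * (u * b - s) < a * s) : ∃ a' s' κ' : ℝ, 0 < a' ∧ a' < a ∧ 0 < s' ∧ s' < s ∧
      κ < κ' ∧ κ' < a' ∧ u * κ' * (u * b - s') < a' * s' := by
  have h1 : Tendsto (fun t : ℝ => (a - t) * (s - t) - u * (κ + t) * (u * b - (s - t)))
      (𝓝 0) (𝓝 (a * s - u * κ * (u * b - s))) := by
    have : Continuous (fun t : ℝ => (a - t) * (s - t) - u * (κ + t) * (u * b - (s - t))) := by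
      fun_prop
    have h2 := this.tendsto 0
    simpa using h2
  have h2 : Tendsto (fun t : ℝ => (a - t) - (κ + t)) (𝓝 0) (𝓝 (a - κ)) := by
    have : Continuous (fun t : ℝ => (a - t) - (κ + t)) := by fun_prop
    have h3 := this.tendsto 0
    simpa using h3
  have h3 : ∀ᶠ t : ℝ in 𝓝[>] 0, 0 < (a - t) * (s - t) - u * (κ + t) * (u * b - (s - t)) :=
    (h1.eventually (lt_mem_nhds (by linarith))).filter_mono nhdsWithin_le_nhds
  have h4 : ∀ᶠ t : ℝ in 𝓝[>] 0, 0 < (a - t) - (κ + t) :=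
    (h2.eventually (lt_mem_nhds (by linarith))).filter_mono nhdsWithin_le_nhds
  have h5 : ∀ᶠ t : ℝ in 𝓝[>] 0, t < min a s :=
    (eventually_lt_nhds (lt_min ha hs)).filter_mono nhdsWithin_le_nhds
  obtain ⟨t, ⟨⟨h6, h7⟩, h8⟩, h9⟩ :=
    (((h3.and h4).and h5).and self_mem_nhdsWithin).exists
  have h9' : 0 < t := h9
  have h10 := lt_min_iff.1 h8
  exact ⟨a - t, s - t, κ + t, by linarith [h10.1], by linarith, by linarith [h10.2],
    by linarith, by linarith, by linarith, by linarith⟩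

/-- A locally Lipschitz map of a compact metric space is Lipschitz. -/
theorem lip_of_local {M : Type v} [MetricSpace M] [CompactSpace M] {f : M → M} {L r : ℝ}
    (hL : 0 ≤ L) (hr : 0 < r) (h : ∀ x y, dist x y < r → dist (f x) (f y) ≤ L * dist x y) :
    ∃ L' : ℝ, 0 ≤ L' ∧ ∀ x y, dist (f x) (f y) ≤ L' * dist x y := by
  obtain ⟨D, hD⟩ := Metric.isBounded_iff.1 (isCompact_univ (X := M)).isBounded
  refine ⟨max L (|D| / r), le_max_of_le_left hL, fun x y => ?_⟩
  rcases lt_or_ge (dist x y) r with hxy | hxy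
  · refine (h x y hxy).trans ?_
    gcongr
    exact le_max_left _ _
  · calc dist (f x) (f y) ≤ D := hD (mem_univ _) (mem_univ _)
      _ ≤ |D| := le_abs_self D
      _ = |D| / r * r := by field_simp
      _ ≤ max L (|D| / r) * dist x y := by
          gcongr
          exact le_max_right _ _

/-- The basin is everything, in the abstract setting. -/
theorem basin_univ (specQc : SpecQc.{v, w}) (specCore : SpecCore.{v})
    {M : Type v} [MetricSpace M] [CompactSpace M] [ConnectedSpace M]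
    {W : Type w} [NormedAddCommGroup W] [InnerProductSpace ℝ W] [FiniteDimensional ℝ W]
    {J : Emb M W} {f : M ≃ₜ M} (S : Split J f) (hS : S.Hyperbolic) {d : ℕ} (hd1 : 1 ≤ d)
    (hrank : ∀ x, Module.finrank ℝ ((S.U x).range) = d)
    {C₀ a s b κ : ℝ} (hC₀ : 0 ≤ C₀) (ha : 0 < a) (hs : 0 < s) (hsb : s ≤ b) (hκ : 0 ≤ κ)
    (hκa : κ < a)
    (h1 : ∀ (k : ℕ) (x : M) (w : W), ‖iterD S.D f k x (S.S x w)‖ ≤ C₀ * Real.exp (-s) ^ k * ‖w‖)
    (h2 : ∀ (k : ℕ) (x : M) (w : W), ‖iterD S.Di f.symm k x (S.S x w)‖ ≤ C₀ * Real.exp b ^ k * ‖w‖)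
    (h3 : ∀ (k : ℕ) (x : M) (w : W),
      ‖iterD S.Di f.symm k x (S.U x w)‖ ≤ C₀ * Real.exp (-a) ^ k * ‖w‖)
    (h4 : ∀ (n : ℕ) (x : M) (v w : W), ‖iterD S.D f n x (S.U x v)‖ * ‖S.U x w‖ ≤
      C₀ * Real.exp κ ^ n * ‖iterD S.D f n x (S.U x w)‖ * ‖S.U x v‖)
    (hpinch : d * κ * (d * b - s) < a * s)
    (A : Set M) (rA : ℝ) (hrA : 0 < rA) (hattr : ∀ r, r ≤ rA → Attr f A r) :
    ∃ r, r ≤ rA ∧ basin f A r = univ := by
  obtain ⟨a', s', κ', ha'0, ha', hs'0, hs', hκ', hκa', hineq⟩ := exists_rates ha hs hκa hpinch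
  -- contraction
  obtain ⟨ε₁, C₁, hD₁⟩ := exists_dec_rate S hS (m := Real.exp (-s)) (l := Real.exp (-s'))
    (Real.exp_pos _) (Real.exp_lt_exp.2 (by linarith)) (by rw [Real.exp_lt_one_iff]; linarith) h1
  obtain ⟨ε₂, C₂, hD₂⟩ := exists_dec_rate S.swap hS.swap (m := Real.exp (-a))
    (l := Real.exp (-a')) (Real.exp_pos _) (Real.exp_lt_exp.2 (by linarith))
    (by rw [Real.exp_lt_one_iff]; linarith) h3
  have hε₁ := hD₁.ε_pos
  have hε₂ := hD₂.ε_pos
  -- local product structure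
  obtain ⟨εB, CB, hBr⟩ := br M W J f S hS
  have hεB := hBr.ε_pos
  -- quasiconformality
  obtain ⟨rq, Cq, hrq, hCq, hqc⟩ := specQc S hS C₀ (Real.exp κ) (Real.exp κ')
    (Real.one_le_exp hκ) (Real.exp_lt_exp.2 hκ') h4
  rw [Real.log_exp] at hqc
  -- parametrizations
  obtain ⟨ρU, Λ, φ, hφ⟩ := exists_uplaq S.swap hS.swap (u := d) hrank
  -- Lipschitz bound
  obtain ⟨L₀, r₀, hL₀, hr₀, hlip₀⟩ := S.hD.exists_lip
  obtain ⟨L, hL, hlip⟩ := lip_of_local (f := f) (by linarith : (0 : ℝ) ≤ L₀) hr₀ hlip₀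
  -- the constant
  set C : ℝ := max (max (max C₁ C₂) CB) (max (max Cq Λ) L) with hC
  have hC1 : 1 ≤ C := hD₁.one_le.trans ((le_max_left _ _).trans ((le_max_left _ _).trans
    (le_max_left _ _)))
  have hC0 : 0 < C := by linarith
  have hCC₁ : C₁ ≤ C := (le_max_left _ _).trans ((le_max_left _ _).trans (le_max_left _ _))
  have hCC₂ : C₂ ≤ C := (le_max_right _ _).trans ((le_max_left _ _).trans (le_max_left _ _))
  have hCCB : CB ≤ C := (le_max_right _ _).trans (le_max_left _ _)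
  have hCCq : Cq ≤ C := (le_max_left _ _).trans ((le_max_left _ _).trans (le_max_right _ _))
  have hCΛ : Λ ≤ C := (le_max_right _ _).trans ((le_max_left _ _).trans (le_max_right _ _))
  have hCL : L ≤ C := (le_max_right _ _).trans (le_max_right _ _)
  -- the scales
  set r : ℝ := min (min (min ε₁ ε₂) (min εB rq)) rA with hr
  have hr0 : 0 < r := by positivity
  have hr1 : r ≤ ε₁ := (min_le_left _ _).trans ((min_le_left _ _).trans (min_le_left _ _))
  have hr2 : r ≤ ε₂ := (min_le_left _ _).trans ((min_le_left _ _).trans (min_le_right _ _))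
  have hr3 : r ≤ εB := (min_le_left _ _).trans ((min_le_right _ _).trans (min_le_left _ _))
  have hr4 : r ≤ rq := (min_le_left _ _).trans ((min_le_right _ _).trans (min_le_right _ _))
  have hr5 : r ≤ rA := min_le_right _ _
  obtain ⟨ρs, Λs, hρs, hΛs, hslow⟩ := exists_slow S hS (κ := Real.exp b) hC₀
    (Real.exp_pos _).le h2 (ε₁ := r) hr0
  obtain ⟨δ, hδ, hbr⟩ := hBr.exist (r / 16) (by positivity)
  set r₁ : ℝ := δ / 2 with hr₁
  have hr₁0 : 0 < r₁ := by positivity
  obtain ⟨ρ, hρ0, hρU, hρm⟩ := hφ.mem (r / 4) (by positivity)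
  obtain ⟨ε', hε'0, honto⟩ := hφ.onto (ρ / 2) (by positivity)
  set e : ℝ := min (min (r / (64 * C)) (r₁ / 4)) (ε' / 4) with he
  have he0 : 0 < e := by positivity
  have he1 : e ≤ r / (64 * C) := (min_le_left _ _).trans (min_le_left _ _)
  have he2 : e ≤ r₁ / 4 := (min_le_left _ _).trans (min_le_right _ _)
  have he3 : e ≤ ε' / 4 := min_le_right _ _
  have hsub : closedBall (0 : EuclideanSpace ℝ (Fin d)) ρ ⊆ closedBall 0 ρU :=
    closedBall_subset_closedBall hρU
  have hSys : Sys f d φ C a' s' κ' r r₁ e ρ :=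
    { u_pos := hd1
      a_pos := ha'0
      b_pos := hs'0
      κ_nonneg := hκ.trans hκ'.le
      fwd := hD₁.mono hr0 hr1 hCC₁ le_rfl hD₁.l_lt
      bwd := hD₂.mono hr0 hr2 hCC₂ le_rfl hD₂.l_lt
      br := hBr.mono hr0 hr3 hCCB
      lip := fun x y => (hlip x y).trans (mul_le_mul_of_nonneg_right hCL dist_nonneg)
      qc := Qc.mono hqc hr4 hCCq
      e_pos := he0
      e_le := by
        calc 64 * C * e ≤ 64 * C * (r / (64 * C)) := by gcongr
          _ = r := by field_simp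
      r₁_pos := hr₁0
      e_le' := by linarith
      step := fun p q hpq => by
        have h5 : dist q p < δ := by
          rw [dist_comm]
          exact hpq.trans_lt (by rw [hr₁]; linarith)
        obtain ⟨z, hz1, hz2⟩ := hbr q p h5
        exact ⟨z, hz2, hz1⟩
      ρ_pos := hρ0
      zero := hφ.zero
      upper := fun x p hp q hq => (hφ.upper x p (hsub hp) q (hsub hq)).trans
        (mul_le_mul_of_nonneg_right hCΛ dist_nonneg)
      lower := fun x p hp q hq => (hφ.lower x p (hsub hp) q (hsub hq)).trans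
        (mul_le_mul_of_nonneg_right hCΛ dist_nonneg)
      mem := hρm
      onto := fun x z hz => honto x z (Wl_mono (by linarith) hz) }
  refine ⟨r, hr5, specCore f d φ C a' s' κ' r r₁ e ρ ρs Λs b A hSys (hattr r hr5) hρs hΛs
    (by linarith) hslow hκa' hineq⟩

end MainB

end Pool.Agent.Lib.MP610fe3.T6
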