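import Pool.Agent.Lib.MP_610fe3_an.T6.Spec

/-!
# Module CELLS: Bowen balls are almost round (helper23)
-/

open Set Filter Function Metric
open scoped Topology

namespace Pool.Agent.Lib.MP610fe3.T6.CellsM

open Cf H6 T4

universe v

theorem sii {M : Type v} [MetricSpace M] (f : M ≃ₜ M) (n : ℕ) (x : M) :
    f.symm^[n] (f^[n] x) = x :=
  Function.LeftInverse.iterate f.symm_apply_apply n x

theorem symm_iter_add {M : Type v} [MetricSpace M] (f : M ≃ₜ M) {k n : ℕ} (h : k ≤ n) (x : M) :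
    f.symm^[k] (f^[n] x) = f^[n - k] x := by
  obtain ⟨j, rfl⟩ := Nat.exists_eq_add_of_le h
  rw [iterate_add_apply, sii, Nat.add_sub_cancel_left]

/-- Going forward in a local unstable set, as long as the distances are small. -/
theorem fwd_mem {M : Type v} [MetricSpace M] (f : M ≃ₜ M) {r : ℝ} {p g : M}
    (hp : p ∈ Wl f.symm r g) {n : ℕ} (h : ∀ k ≤ n, dist (f^[k] p) (f^[k] g) ≤ r) :
    f^[n] p ∈ Wl f.symm r (f^[n] g) := by
  refine Wl_of_iter (n := n) ?_ ?_
  · rw [sii, sii]
    exact hp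
  · intro k hk
    rw [symm_iter_add f hk.le, symm_iter_add f hk.le]
    exact h _ (Nat.sub_le _ _)

theorem specCells : SpecCells.{v} := by
  intro M _ f u φ C a b κ r r₁ e ρ hS η₁ η₂ hη₁ hη₁r hη₂
  have hC : 1 ≤ C := hS.fwd.one_le
  have hC0 : 0 < C := by linarith
  have hr : 0 < r := hS.fwd.ε_pos
  have he := hS.e_pos
  have her : 2 * e ≤ r := by nlinarith [hS.e_le]
  have hmin : 0 < min η₂ r := lt_min hη₂ hr
  refine ⟨2 * η₁ * C * (C / min η₂ r), by positivity, ?_⟩
  intro N g g' p p' hp hp' hg' hpB hp'B hsep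
  classical
  -- the last time at which `g'` is in the local unstable set of `g`
  set P : ℕ → Prop := fun k => k ≤ N ∧ f^[k] g' ∈ Wl f.symm r (f^[k] g) with hP
  have hP0 : P 0 := ⟨Nat.zero_le _, Wl_mono her hg'⟩
  obtain ⟨k₀, hk₀, hmax⟩ : ∃ k₀, P k₀ ∧ ∀ k, P k → k ≤ k₀ := by
    have hfin : {k | P k}.Finite := (Set.finite_Iic N).subset fun k hk => hk.1
    obtain ⟨k₀, h1, h2⟩ := hfin.exists_maximal ⟨0, hP0⟩
    refine ⟨k₀, h1, fun k hk => ?_⟩
    by_contra hlt
    push Not at hlt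
    exact absurd (h2 hk hlt.le) (by omega)
  have hlow : min η₂ r ≤ C * dist (f^[k₀] g') (f^[k₀] g) := by
    rcases hk₀.1.lt_or_eq with hlt | heq
    · -- the distance is larger than `r` at the next time
      have h1 : r < dist (f^[k₀ + 1] g') (f^[k₀ + 1] g) := by
        by_contra hle
        push Not at hle
        have h2 : P (k₀ + 1) := by
          refine ⟨hlt, Wl_of_map ?_ hle⟩
          rw [iterate_succ_apply', iterate_succ_apply', Homeomorph.symm_apply_apply,
            Homeomorph.symm_apply_apply]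
          exact hk₀.2
        have := hmax _ h2
        omega
      have h2 := hS.lip (f^[k₀] g') (f^[k₀] g)
      rw [← iterate_succ_apply' f, ← iterate_succ_apply' f] at h2
      exact (min_le_right _ _).trans (h1.le.trans h2)
    · obtain ⟨k, hk, hsep⟩ := hsep
      have hmem : f^[N] g' ∈ Wl f.symm r (f^[N] g) := by rw [← heq]; exact hk₀.2
      have h1 := hS.bwd.dec _ _ hmem (N - k)
      rw [symm_iter_add f (Nat.sub_le _ _), symm_iter_add f (Nat.sub_le _ _),
        Nat.sub_sub_self hk] at h1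
      have h2 : Real.exp (-a) ^ (N - k) ≤ 1 := pow_le_one₀ (Real.exp_pos _).le
        (Real.exp_le_one_iff.2 (by linarith [hS.a_pos]))
      rw [dist_comm] at h1
      have h3 : C * Real.exp (-a) ^ (N - k) * dist (f^[N] g') (f^[N] g) ≤
          C * 1 * dist (f^[N] g') (f^[N] g) := by gcongr
      rw [heq]
      exact (min_le_left _ _).trans (by linarith)
  -- quasiconformality at the time `k₀`
  have hmp : f^[k₀] p ∈ Wl f.symm r (f^[k₀] g) :=
    fwd_mem f (Wl_mono her hp) fun k hk => (hpB k (hk.trans hk₀.1)).trans hη₁r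
  have hmp' : f^[k₀] p' ∈ Wl f.symm r (f^[k₀] g) :=
    fwd_mem f (Wl_mono her hp') fun k hk => (hp'B k (hk.trans hk₀.1)).trans hη₁r
  have hq := hS.qc k₀ (f^[k₀] g) _ hmp _ hmp' _ hk₀.2 _ (mem_Wl_self hr.le)
  rw [sii, sii, sii, sii] at hq
  have hpp : dist (f^[k₀] p) (f^[k₀] p') ≤ 2 * η₁ := by
    have h1 := hpB k₀ hk₀.1
    have h2 := hp'B k₀ hk₀.1
    rw [dist_comm] at h2
    linarith [dist_triangle (f^[k₀] p) (f^[k₀] g) (f^[k₀] p')]
  have hexp : Real.exp (κ * k₀) ≤ Real.exp (κ * N) := by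
    apply Real.exp_le_exp.2
    have : (k₀ : ℝ) ≤ N := by exact_mod_cast hk₀.1
    exact mul_le_mul_of_nonneg_left this hS.κ_nonneg
  have hgg : dist g' g = dist g g' := dist_comm _ _
  rw [hgg] at hq
  have hdg : 0 ≤ dist g g' := dist_nonneg
  have hdp : 0 ≤ dist p p' := dist_nonneg
  have h3 : dist p p' * dist (f^[k₀] g') (f^[k₀] g) ≤
      C * Real.exp (κ * N) * dist g g' * (2 * η₁) := by
    refine hq.trans ?_
    gcongr
  have h4 : dist p p' * min η₂ r ≤ C * (C * Real.exp (κ * N) * dist g g' * (2 * η₁)) := by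
    calc dist p p' * min η₂ r ≤ dist p p' * (C * dist (f^[k₀] g') (f^[k₀] g)) := by gcongr
      _ = C * (dist p p' * dist (f^[k₀] g') (f^[k₀] g)) := by ring
      _ ≤ _ := by gcongr
  calc dist p p' ≤ C * (C * Real.exp (κ * N) * dist g g' * (2 * η₁)) / min η₂ r := by
        rwa [le_div_iff₀ hmin]
    _ = 2 * η₁ * C * (C / min η₂ r) * Real.exp (κ * N) * dist g g' := by
        field_simp

end Pool.Agent.Lib.MP610fe3.T6.CellsM
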