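import Pool.Agent.Lib.MP_610fe3_an.T6.SpecE

/-!
# Module CONE
-/

open Set Filter Function Metric MeasureTheory
open scoped Topology ENNReal

namespace Pool.Agent.Lib.MP610fe3.T6

namespace ConeM

variable {u : ℕ}

/-- The volume of the unit ball. -/
noncomputable def vb (u : ℕ) : ℝ :=
  (volume (closedBall (0 : EuclideanSpace ℝ (Fin u)) 1)).toReal

theorem vb_pos (u : ℕ) : 0 < vb u :=
  ENNReal.toReal_pos (measure_closedBall_pos _ _ one_pos).ne' measure_closedBall_lt_top.ne

theorem volume_closedBall (a : EuclideanSpace ℝ (Fin u)) {R : ℝ} (hR : 0 ≤ R) :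
    volume (closedBall a R) = ENNReal.ofReal (R ^ u * vb u) := by
  have h := Measure.addHaar_closedBall' (volume : Measure (EuclideanSpace ℝ (Fin u))) a hR
  rw [finrank_euclideanSpace_fin] at h
  rw [h, ENNReal.ofReal_mul (by positivity), vb, ENNReal.ofReal_toReal measure_closedBall_lt_top.ne]

theorem sum_pow_inv_le {k₀ m : ℕ} (hk : 1 ≤ k₀) (hu : 2 ≤ u) :
    ∑ k ∈ Finset.Ioo (k₀ - 1) (m + 1), ((k : ℝ) ^ u)⁻¹ ≤ 2 * ((k₀ : ℝ) ^ (u - 1))⁻¹ := by
  have h1 : ∑ k ∈ Finset.Ioo (k₀ - 1) (m + 1), ((k : ℝ) ^ 2)⁻¹ ≤ 2 / (((k₀ - 1 : ℕ) : ℝ) + 1) :=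
    sum_Ioo_inv_sq_le _ _
  have h2 : (((k₀ - 1 : ℕ) : ℝ) + 1) = k₀ := by
    rw [Nat.cast_sub hk]; simp
  rw [h2] at h1
  have hk0 : (0 : ℝ) < k₀ := by exact_mod_cast hk
  calc ∑ k ∈ Finset.Ioo (k₀ - 1) (m + 1), ((k : ℝ) ^ u)⁻¹
      ≤ ∑ k ∈ Finset.Ioo (k₀ - 1) (m + 1), ((k₀ : ℝ) ^ (u - 2))⁻¹ * ((k : ℝ) ^ 2)⁻¹ := by
        apply Finset.sum_le_sum
        intro k hkm
        have hkk : k₀ ≤ k := by
          have := (Finset.mem_Ioo.1 hkm).1; omega
        have hkk' : (k₀ : ℝ) ≤ k := by exact_mod_cast hkk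
        have hk1 : (0 : ℝ) < k := hk0.trans_le hkk'
        rw [← mul_inv]
        apply inv_anti₀ (by positivity)
        have e : (k : ℝ) ^ u = k ^ (u - 2) * k ^ 2 := by
          rw [← pow_add, Nat.sub_add_cancel hu]
        rw [e]
        exact mul_le_mul_of_nonneg_right (pow_le_pow_left₀ hk0.le hkk' _) (by positivity)
    _ = ((k₀ : ℝ) ^ (u - 2))⁻¹ * ∑ k ∈ Finset.Ioo (k₀ - 1) (m + 1), ((k : ℝ) ^ 2)⁻¹ := by
        rw [Finset.mul_sum]
    _ ≤ ((k₀ : ℝ) ^ (u - 2))⁻¹ * (2 / k₀) := by
        apply mul_le_mul_of_nonneg_left h1 (by positivity)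
    _ = 2 * ((k₀ : ℝ) ^ (u - 1))⁻¹ := by
        have e : (k₀ : ℝ) ^ (u - 1) = k₀ ^ (u - 2) * k₀ := by
          rw [← pow_succ]; congr 1; omega
        rw [e, mul_inv]; ring

/-- The points of the segment at times `k / m`. -/
theorem grid {e a p z x : EuclideanSpace ℝ (Fin u)} {r δ : ℝ} {m : ℕ} (hr : 0 < r)
    (he : e ∈ closedBall p δ) (hm : 0 < m) (hmr : 2 * δ / r ≤ m) (hfar : 4 * r < dist a e)
    (hz : z ∈ closedBall p δ) (hx : x ∈ segment ℝ e z) (hxa : dist x a ≤ r) :
    ∃ k : ℕ, k ≤ m ∧ dist a e / (2 * r) ≤ k ∧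
      z ∈ closedBall (e + ((m : ℝ) / k) • (a - e)) (2 * r * m / k) := by
  have hm' : (0 : ℝ) < m := Nat.cast_pos.2 hm
  rw [segment_eq_image ℝ e z] at hx
  obtain ⟨t, ⟨ht0, ht1⟩, rfl⟩ := hx
  have hze : ‖z - e‖ ≤ 2 * δ := by
    rw [← dist_eq_norm]
    have h1 := mem_closedBall.1 hz
    have h2 := mem_closedBall.1 he
    have h3 := dist_triangle_right z e p
    linarith
  have hδ : 0 ≤ δ := dist_nonneg.trans (mem_closedBall.1 he)
  have hxe : (1 - t) • e + t • z - e = t • (z - e) := by
    rw [smul_sub, sub_smul, one_smul]; abel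
  have hae : dist a e ≤ r + t * ‖z - e‖ := by
    have h1 := dist_triangle_left a e ((1 - t) • e + t • z)
    have h2 : dist ((1 - t) • e + t • z) e = t * ‖z - e‖ := by
      rw [dist_eq_norm, hxe, norm_smul, Real.norm_eq_abs, abs_of_nonneg ht0]
    rw [h2] at h1
    linarith
  set k : ℕ := ⌊t * m⌋₊ with hk
  have htm : 0 ≤ t * m := by positivity
  have hk1 : (k : ℝ) ≤ t * m := Nat.floor_le htm
  have hk2 : t * m < k + 1 := Nat.lt_floor_add_one _
  have hkm : k ≤ m := by
    have : (k : ℝ) ≤ m := hk1.trans (by nlinarith)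
    exact_mod_cast this
  have hmr' : 2 * δ ≤ m * r := by
    rwa [div_le_iff₀ hr] at hmr
  -- the lower bound of `k`
  have hkr : dist a e / (2 * r) ≤ k := by
    rw [div_le_iff₀ (by positivity)]
    have h1 : t * ‖z - e‖ ≤ t * (m * r) := mul_le_mul_of_nonneg_left (hze.trans hmr') ht0
    have h2 : t * (m * r) < (k + 1) * r := by
      rw [← mul_assoc]; exact mul_lt_mul_of_pos_right hk2 hr
    have h3 : dist a e < r + (k + 1) * r := by linarith
    -- `dist a e < (k + 2) r` and `4 r < dist a e` give `k > 2`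
    have h4 : 4 * r < (k + 2) * r := by linarith
    have h5 : (4 : ℝ) < k + 2 := lt_of_mul_lt_mul_right h4 hr.le
    have h6 : (2 : ℝ) < k := by linarith
    nlinarith
  refine ⟨k, hkm, hkr, ?_⟩
  have hk0 : (0 : ℝ) < k := by
    have : 0 < dist a e / (2 * r) := by
      have : 0 < dist a e := by linarith
      positivity
    linarith
  -- the estimate at time `k / m`
  have hd : |(k : ℝ) / m - t| ≤ 1 / m := by
    rw [abs_le]
    constructor
    · have h1 : t ≤ (k + 1) / m := by rw [le_div_iff₀ hm']; exact hk2.le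
      have h2 : ((k : ℝ) + 1) / m = k / m + 1 / m := by ring
      rw [h2] at h1
      linarith
    · have h1 : (k : ℝ) / m ≤ t := by rw [div_le_iff₀ hm']; exact hk1
      have h2 : (0 : ℝ) ≤ 1 / m := by positivity
      linarith
  have h7 : ‖((k : ℝ) / m) • (z - e) - (a - e)‖ ≤ 2 * r := by
    have e1 : ((k : ℝ) / m) • (z - e) - (a - e) =
        ((1 - t) • e + t • z - a) + ((k : ℝ) / m - t) • (z - e) := by
      rw [sub_smul ((k : ℝ) / m) t (z - e), ← hxe]; abel
    rw [e1]
    refine (norm_add_le _ _).trans ?_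
    rw [norm_smul, Real.norm_eq_abs]
    have h3 : ‖(1 - t) • e + t • z - a‖ ≤ r := by
      rw [dist_eq_norm] at hxa; exact hxa
    have h4 : |(k : ℝ) / m - t| * ‖z - e‖ ≤ 1 / m * (2 * δ) :=
      mul_le_mul hd hze (norm_nonneg _) (by positivity)
    have h5 : 1 / (m : ℝ) * (2 * δ) ≤ r := by
      rw [div_mul_eq_mul_div, one_mul, div_le_iff₀ hm']; linarith
    linarith
  rw [mem_closedBall, dist_eq_norm]
  have e2 : z - (e + ((m : ℝ) / k) • (a - e)) =
      ((m : ℝ) / k) • (((k : ℝ) / m) • (z - e) - (a - e)) := by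
    rw [smul_sub ((m : ℝ) / k) (((k : ℝ) / m) • (z - e)), smul_smul,
      div_mul_div_cancel₀ hk0.ne', div_self hm'.ne', one_smul]
    abel
  rw [e2, norm_smul, Real.norm_eq_abs, abs_of_nonneg (by positivity)]
  calc (m : ℝ) / k * ‖((k : ℝ) / m) • (z - e) - (a - e)‖ ≤ (m : ℝ) / k * (2 * r) :=
        mul_le_mul_of_nonneg_left h7 (by positivity)
    _ = 2 * r * m / k := by ring

end ConeM

open ConeM

/-- Module CONE. -/
theorem specCone : SpecCone := by
  intro u hu
  have hV := vb_pos u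
  refine ⟨(4 ^ (u - 1) + 6 ^ u * 2 * 2 ^ (u - 1)) * vb u, by positivity, ?_⟩
  intro e a p r δ hr hrδ he
  have hδ : 0 < δ := hr.trans_le hrδ
  have hmax : 0 < max (dist a e) r := lt_max_of_lt_right hr
  rcases le_or_gt (dist a e) (4 * r) with hnear | hfar
  · -- the ball is near
    refine ⟨closedBall p δ, isClosed_closedBall.measurableSet, fun z hz _ _ _ => hz, ?_⟩
    rw [volume_closedBall p hδ.le]
    apply ENNReal.ofReal_le_ofReal
    have h1 : (1 / 4 : ℝ) ≤ r / max (dist a e) r := by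
      rw [le_div_iff₀ hmax]
      rcases le_total (dist a e) r with h | h
      · rw [max_eq_right h]; linarith
      · rw [max_eq_left h]; linarith
    have h2 : (1 / 4 : ℝ) ^ (u - 1) ≤ (r / max (dist a e) r) ^ (u - 1) :=
      pow_le_pow_left₀ (by norm_num) h1 _
    have h3 : (4 : ℝ) ^ (u - 1) * (1 / 4) ^ (u - 1) = 1 := by
      rw [← mul_pow]; norm_num
    calc δ ^ u * vb u = (4 : ℝ) ^ (u - 1) * (1 / 4) ^ (u - 1) * (δ ^ u * vb u) := by
          rw [h3, one_mul]
      _ ≤ (4 : ℝ) ^ (u - 1) * (r / max (dist a e) r) ^ (u - 1) * (δ ^ u * vb u) := by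
          gcongr
      _ ≤ ((4 : ℝ) ^ (u - 1) + 6 ^ u * 2 * 2 ^ (u - 1)) *
            (r / max (dist a e) r) ^ (u - 1) * (δ ^ u * vb u) := by
          gcongr
          have : (0 : ℝ) ≤ 6 ^ u * 2 * 2 ^ (u - 1) := by positivity
          linarith
      _ = _ := by ring
  · rcases Nat.lt_or_ge u 2 with hu2 | hu2
    · -- dimension one
      have hu1 : u = 1 := by omega
      refine ⟨closedBall p δ, isClosed_closedBall.measurableSet, fun z hz _ _ _ => hz, ?_⟩
      rw [volume_closedBall p hδ.le]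
      apply ENNReal.ofReal_le_ofReal
      subst hu1
      simp only [pow_one, Nat.sub_self, pow_zero, mul_one]
      nlinarith [mul_pos hδ hV]
    · -- the main case
      set m : ℕ := ⌈2 * δ / r⌉₊ with hm
      have hm1 : 2 * δ / r ≤ m := Nat.le_ceil _
      have hm2 : (m : ℝ) < 2 * δ / r + 1 := Nat.ceil_lt_add_one (by positivity)
      have h1δ : 1 ≤ δ / r := by rw [le_div_iff₀ hr]; linarith
      have hm3 : (m : ℝ) ≤ 3 * δ / r := by
        have : 3 * δ / r = 2 * δ / r + δ / r := by ring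
        rw [this]; linarith
      have hmpos : 0 < m := by
        have h2 : 2 * δ / r = 2 * (δ / r) := by ring
        have : (0 : ℝ) < m := by linarith
        exact_mod_cast this
      have hae0 : 0 < dist a e := by linarith
      set k₀ : ℕ := ⌈dist a e / (2 * r)⌉₊ with hk₀
      have hk₀1 : dist a e / (2 * r) ≤ k₀ := Nat.le_ceil _
      have hk₀pos : 1 ≤ k₀ := by
        have : (0 : ℝ) < k₀ := lt_of_lt_of_le (by positivity) hk₀1
        exact_mod_cast this
      refine ⟨⋃ k ∈ Finset.Ioo (k₀ - 1) (m + 1),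
        closedBall (e + ((m : ℝ) / k) • (a - e)) (2 * r * m / k), ?_, ?_, ?_⟩
      · exact Finset.measurableSet_biUnion _ (fun k _ => isClosed_closedBall.measurableSet)
      · intro z hz x hx hxa
        obtain ⟨k, hkm, hk, hzk⟩ := grid hr he hmpos hm1 hfar hz hx hxa
        refine mem_biUnion (x := k) ?_ hzk
        have : k₀ ≤ k := Nat.ceil_le.2 hk
        simp only [Finset.coe_Ioo, mem_Ioo]
        omega
      · calc volume (⋃ k ∈ Finset.Ioo (k₀ - 1) (m + 1),
              closedBall (e + ((m : ℝ) / k) • (a - e)) (2 * r * m / k))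
            ≤ ∑ k ∈ Finset.Ioo (k₀ - 1) (m + 1),
              volume (closedBall (e + ((m : ℝ) / k) • (a - e)) (2 * r * m / k)) :=
              measure_biUnion_finset_le _ _
          _ ≤ ∑ k ∈ Finset.Ioo (k₀ - 1) (m + 1),
                ENNReal.ofReal ((6 * δ) ^ u * vb u * ((k : ℝ) ^ u)⁻¹) := by
              apply Finset.sum_le_sum
              intro k hk
              rw [volume_closedBall _ (by positivity)]
              apply ENNReal.ofReal_le_ofReal
              have h6 : 2 * r * m ≤ 6 * δ := by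
                have : 2 * r * m ≤ 2 * r * (3 * δ / r) :=
                  mul_le_mul_of_nonneg_left hm3 (by positivity)
                have e : 2 * r * (3 * δ / r) = 6 * δ := by field_simp; ring
                linarith
              rw [div_pow]
              calc (2 * r * m) ^ u / (k : ℝ) ^ u * vb u
                  ≤ (6 * δ) ^ u / (k : ℝ) ^ u * vb u := by gcongr
                _ = _ := by ring
          _ = ENNReal.ofReal (∑ k ∈ Finset.Ioo (k₀ - 1) (m + 1),
                (6 * δ) ^ u * vb u * ((k : ℝ) ^ u)⁻¹) := by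
              rw [ENNReal.ofReal_sum_of_nonneg]
              intro k _
              positivity
          _ ≤ _ := by
              apply ENNReal.ofReal_le_ofReal
              rw [← Finset.mul_sum]
              have h7 := sum_pow_inv_le (u := u) (m := m) hk₀pos hu2
              have h8 : ((k₀ : ℝ) ^ (u - 1))⁻¹ ≤ 2 ^ (u - 1) * (r / dist a e) ^ (u - 1) := by
                rw [← mul_pow, ← inv_pow]
                apply pow_le_pow_left₀ (by positivity)
                rw [inv_le_comm₀ (by exact_mod_cast hk₀pos) (by positivity)]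
                refine le_trans (le_of_eq ?_) hk₀1
                field_simp
              have h9 : max (dist a e) r = dist a e := max_eq_left (by linarith)
              rw [h9]
              calc (6 * δ) ^ u * vb u * ∑ k ∈ Finset.Ioo (k₀ - 1) (m + 1), ((k : ℝ) ^ u)⁻¹
                  ≤ (6 * δ) ^ u * vb u * (2 * (2 ^ (u - 1) * (r / dist a e) ^ (u - 1))) := by
                    apply mul_le_mul_of_nonneg_left _ (by positivity)
                    linarith
                _ = (6 ^ u * 2 * 2 ^ (u - 1)) * vb u * δ ^ u * (r / dist a e) ^ (u - 1) := by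
                    rw [mul_pow]; ring
                _ ≤ (4 ^ (u - 1) + 6 ^ u * 2 * 2 ^ (u - 1)) * vb u * δ ^ u *
                      (r / dist a e) ^ (u - 1) := by
                    gcongr
                    have : (0 : ℝ) ≤ 4 ^ (u - 1) := by positivity
                    linarith

end Pool.Agent.Lib.MP610fe3.T6
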