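import Pool.Agent.Lib.MP_610fe3_an.T6.Spec

/-!
# Module FREE: bounded entrance time (helper23)
-/

open Set Filter Function Metric
open scoped Topology

namespace Pool.Agent.Lib.MP610fe3.T6

open Cf H6 T4

universe v

namespace FreeM

theorem dec_mono {M : Type v} [MetricSpace M] {f : M ≃ₜ M} {ε C l l' : ℝ} (h : Dec f ε C l)
    (hl : l ≤ l') (hl' : l' < 1) : Dec f ε C l' where
  ε_pos := h.ε_pos
  one_le := h.one_le
  l_pos := h.l_pos.trans_le hl
  l_lt := hl'
  dec := fun x z hz n => by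
    refine (h.dec x z hz n).trans ?_
    have h1 : l ^ n ≤ l' ^ n := pow_le_pow_left₀ h.l_pos.le hl n
    have h2 : 0 ≤ C := zero_le_one.trans h.one_le
    gcongr

/-- The hypotheses of `T4`. -/
theorem hyp {M : Type v} [MetricSpace M] {f : M ≃ₜ M} {u : ℕ}
    {φ : M → EuclideanSpace ℝ (Fin u) → M} {C a b κ r r₁ e ρ : ℝ}
    (hS : Sys f u φ C a b κ r r₁ e ρ) :
    Hyp f C (max (Real.exp (-a)) (Real.exp (-b))) r (min r₁ (r / 16)) where
  fwd := dec_mono hS.fwd (le_max_right _ _) (max_lt (by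
    rw [Real.exp_lt_one_iff]; linarith [hS.a_pos]) (by
    rw [Real.exp_lt_one_iff]; linarith [hS.b_pos]))
  bwd := dec_mono hS.bwd (le_max_left _ _) (max_lt (by
    rw [Real.exp_lt_one_iff]; linarith [hS.a_pos]) (by
    rw [Real.exp_lt_one_iff]; linarith [hS.b_pos]))
  br := hS.br
  r₁_pos := lt_min hS.r₁_pos (by linarith [hS.fwd.ε_pos])
  r₁_le := by
    have := min_le_right r₁ (r / 16)
    linarith
  step := fun p q h => hS.step p q (h.trans (min_le_left _ _))

end FreeM

open FreeM BasM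

theorem specFree : SpecFree.{v} := by
  intro M _ _ f u φ C a b κ r r₁ e ρ A hS hA η δ hη hδ
  have hh := hyp hS
  have hr : 0 < r := hS.fwd.ε_pos
  set K : Set M := closure {p | Free f A r η p} with hK
  have hKc : IsCompact K := isClosed_closure.isCompact
  have hKB : K ⊆ basin f A r := by
    intro x hx
    obtain ⟨δ', hδ', hex⟩ := hS.br.exist (min η r) (lt_min hη hr)
    obtain ⟨p, hp, hd⟩ := Metric.mem_closure_iff.1 hx δ' hδ'
    obtain ⟨z, hz1, hz2⟩ := hex _ _ hd
    have hz : z ∈ basin f A r := hp (Wl_mono (min_le_left _ _) hz2)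
    exact stab hh hA z x (Wl_comm (Wl_mono (min_le_right _ _) hz1)) hz
  obtain ⟨m, hm⟩ := wl_small hh.fwd hδ
  obtain ⟨N, hN⟩ := hKc.elim_directed_cover (fun n => interior (cap f A r n))
    (fun n => isOpen_interior)
    (fun x hx => mem_iUnion.2 (exists_interior hh hA (hKB hx)))
    (Monotone.directed_le fun i j hij => interior_mono (cap_mono hA hij))
  refine ⟨m + N, fun n hn p hp => ?_⟩
  obtain ⟨x, hx, h⟩ := interior_subset (hN (subset_closure hp))
  obtain ⟨j, rfl⟩ : ∃ j, n = j + N := ⟨n - N, by omega⟩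
  refine ⟨f^[j] x, (iter_mem hA.inv j x).2 hx, ?_⟩
  rw [iterate_add_apply]
  exact hm j (by omega) _ _ h

end Pool.Agent.Lib.MP610fe3.T6
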