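import Pool.Agent.Lib.MP_610fe3_an.T6.Tr

/-! # Module HOL: the stage maps of a ladder are continuous and open -/

set_option autoImplicit false

open Set Filter Function Metric
open scoped Topology

namespace Pool.Agent.Lib.MP610fe3.T6

open Cf H6 T4

universe v

namespace HolM

open TrM

variable {M : Type v} [MetricSpace M] {f : M ≃ₜ M} {u : ℕ}
  {φ : M → EuclideanSpace ℝ (Fin u) → M} {C a b κ r r₁ e ρ : ℝ}

theorem lip_iter (hs : Sys f u φ C a b κ r r₁ e ρ) (k : ℕ) (x y : M) :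
    dist (f^[k] x) (f^[k] y) ≤ C ^ k * dist x y := by
  have hC := one_le hs
  induction k generalizing x y with
  | zero => simp
  | succ k ih =>
    rw [iterate_succ_apply, iterate_succ_apply, pow_succ]
    refine (ih _ _).trans ?_
    rw [mul_assoc]
    exact mul_le_mul_of_nonneg_left (hs.lip x y) (by positivity)

theorem lad_mono {e e' : ℝ} (h : e ≤ e') {q : ℕ → M} {l : ℕ} {z z' : M} (hz : Lad f e q l z z') :
    Lad f e' q l z z' := by
  obtain ⟨c, h0, h1, h2, h3⟩ := hz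
  exact ⟨c, h0, h1, fun k hk => Wl_mono h (h2 k hk), fun k hk => Wl_mono h (h3 k hk)⟩

/-- the unstable set of small size from the distance -/
theorem wl_of_dist (hs : Sys f u φ C a b κ r r₁ e ρ) {x y : M} (h : y ∈ Wl f.symm r x) {δ : ℝ}
    (h1 : dist y x ≤ δ) : y ∈ Wl f.symm (C * δ) x := by
  intro k
  have hC := one_le hs
  have h2 := dec_bwd hs h k
  have h3 : Real.exp (-(a * k)) ≤ 1 := by
    apply Real.exp_le_one_iff.2
    have := hs.a_pos
    have : 0 ≤ a * (k : ℝ) := by positivity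
    linarith
  have h4 : 0 ≤ dist y x := dist_nonneg
  calc dist (f.symm^[k] y) (f.symm^[k] x) ≤ C * Real.exp (-(a * k)) * dist y x := h2
    _ ≤ C * 1 * δ := by gcongr
    _ = C * δ := by ring

/-- small exponentials -/
theorem exists_small {x A ε : ℝ} (hx : 0 < x) (hε : 0 < ε) :
    ∃ n : ℕ, A * Real.exp (-(x * n)) ≤ ε := by
  have h2 : Tendsto (fun N : ℕ => Real.exp (-(x * N))) atTop (𝓝 0) := by
    apply Real.tendsto_exp_neg_atTop_nhds_zero.comp
    exact Tendsto.const_mul_atTop hx tendsto_natCast_atTop_atTop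
  have h3 := h2.const_mul A
  rw [mul_zero] at h3
  obtain ⟨n, hn⟩ := (h3.eventually (gt_mem_nhds hε)).exists
  exact ⟨n, hn.le⟩

/-- one step of the backward ladder -/
theorem onestep (hs : Sys f u φ C a b κ r r₁ e ρ) {δ' : ℝ} (hδ' : 0 < δ') :
    ∃ δ : ℝ, 0 < δ ∧ ∀ x y X : M, y ∈ Wl f e x → dist X y ≤ δ →
      ∃ z, z ∈ Wl f.symm δ' x ∧ X ∈ Wl f (2 * e) z := by
  have hC := one_le hs
  have her := e_le_r hs
  have he := hs.e_pos
  have he1 := hs.e_le'
  set δ₁ : ℝ := min (δ' / (3 * C ^ 2)) (e / (4 * C)) with hδ₁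
  have hδ₁0 : 0 < δ₁ := lt_min (by positivity) (by positivity)
  have hδ₁a : 3 * C ^ 2 * δ₁ ≤ δ' := by
    have h1 : δ₁ ≤ δ' / (3 * C ^ 2) := min_le_left _ _
    rw [le_div_iff₀ (by positivity)] at h1
    linarith
  have hδ₁b : 4 * C * δ₁ ≤ e := by
    have h1 : δ₁ ≤ e / (4 * C) := min_le_right _ _
    rw [le_div_iff₀ (by positivity)] at h1
    linarith
  have hδ₁c : δ₁ ≤ e / 4 := by nlinarith
  obtain ⟨n, hn⟩ := exists_small (x := b) (A := C * (r / 16)) hs.b_pos hδ₁0
  refine ⟨δ₁ / C ^ n, by positivity, fun x y X hy hX => ?_⟩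
  have hCn : (1 : ℝ) ≤ C ^ n := one_le_pow₀ hC
  have hX0 : ∀ j ≤ n, dist (f^[j] X) (f^[j] y) ≤ δ₁ := by
    intro j hj
    refine (lip_iter hs j X y).trans ?_
    have h1 : C ^ j ≤ C ^ n := pow_le_pow_right₀ hC hj
    have h2 : C ^ n * (δ₁ / C ^ n) = δ₁ := by field_simp
    calc C ^ j * dist X y ≤ C ^ n * (δ₁ / C ^ n) := by gcongr
      _ = δ₁ := h2
  have h1 : dist x X ≤ r₁ := by
    have a1 := hX0 0 (Nat.zero_le _)
    simp only [iterate_zero, id] at a1
    have a2 := Wl_dist hy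
    have a3 := dist_triangle x y X
    rw [dist_comm x y, dist_comm y X] at a3
    linarith
  obtain ⟨z, hz1, hz2⟩ := hs.step x X h1
  have hz1' : z ∈ Wl f.symm r x := Wl_mono (by linarith) hz1
  have hz2' : z ∈ Wl f r X := Wl_mono (by linarith) hz2
  have hy' : y ∈ Wl f r x := Wl_mono (by linarith) hy
  -- until the time n
  have h2 : ∀ j ≤ n, dist (f^[j] z) (f^[j] x) ≤ r := by
    intro j hj
    have a1 := hz2 j
    have a2 := hX0 j hj
    have a3 := hy j
    have a4 := dist_triangle4 (f^[j] z) (f^[j] X) (f^[j] y) (f^[j] x)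
    linarith
  -- at the time n
  have h3 : dist (f^[n] z) (f^[n] x) ≤ 3 * δ₁ := by
    have a1 := dec_fwd hs hz2' n
    have a2 := hX0 n le_rfl
    have a3 := dec_fwd hs hy' n
    have a4 := dist_triangle4 (f^[n] z) (f^[n] X) (f^[n] y) (f^[n] x)
    have a5 : 0 ≤ C * Real.exp (-(b * n)) := mul_nonneg (by linarith) (Real.exp_pos _).le
    have a6 : C * Real.exp (-(b * n)) * dist z X ≤ C * (r / 16) * Real.exp (-(b * n)) := by
      have := mul_le_mul_of_nonneg_left (Wl_dist hz2) a5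
      linarith
    have a7 : C * Real.exp (-(b * n)) * dist y x ≤ C * (r / 16) * Real.exp (-(b * n)) := by
      have a8 : dist y x ≤ r / 16 := (Wl_dist hy).trans (by linarith)
      have := mul_le_mul_of_nonneg_left a8 a5
      linarith
    linarith
  have h4 : ∀ j ≤ n, dist (f^[j] z) (f^[j] x) ≤ 3 * C * δ₁ := by
    intro j hj
    refine (close hs hz1' h2 h3 hj).trans ?_
    have h6 : Real.exp (-(a * (n - j : ℕ))) ≤ 1 := by
      apply Real.exp_le_one_iff.2
      have := hs.a_pos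
      have : (0 : ℝ) ≤ ((n - j : ℕ) : ℝ) := Nat.cast_nonneg _
      have : 0 ≤ a * ((n - j : ℕ) : ℝ) := by positivity
      linarith
    calc C * Real.exp (-(a * (n - j : ℕ))) * (3 * δ₁) ≤ C * 1 * (3 * δ₁) := by gcongr
      _ = 3 * C * δ₁ := by ring
  refine ⟨z, ?_, ?_⟩
  · have h5 := h4 0 (Nat.zero_le _)
    simp only [iterate_zero, id] at h5
    refine Wl_mono ?_ (wl_of_dist hs hz1' h5)
    calc C * (3 * C * δ₁) = 3 * C ^ 2 * δ₁ := by ring
      _ ≤ δ' := hδ₁a
  · intro k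
    rcases le_or_gt k n with hk | hk
    · have a1 := hX0 k hk
      have a2 := hy k
      have a3 := h4 k hk
      have a4 := dist_triangle4 (f^[k] X) (f^[k] y) (f^[k] x) (f^[k] z)
      rw [dist_comm (f^[k] x) (f^[k] z)] at a4
      have a5 : δ₁ + 3 * C * δ₁ ≤ e := by nlinarith
      linarith
    · have a1 := dec_fwd hs hz2' k
      rw [dist_comm]
      have a2 : Real.exp (-(b * k)) ≤ Real.exp (-(b * n)) := by
        apply Real.exp_le_exp.2
        have := hs.b_pos
        have : (n : ℝ) ≤ k := by exact_mod_cast hk.le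
        nlinarith
      have a3 : C * Real.exp (-(b * k)) * dist z X ≤ C * Real.exp (-(b * n)) * (r / 16) := by
        have := Wl_dist hz2
        have : 0 ≤ C := by linarith
        gcongr
      have a4 : C * Real.exp (-(b * n)) * (r / 16) ≤ δ₁ := by
        calc C * Real.exp (-(b * n)) * (r / 16) = C * (r / 16) * Real.exp (-(b * n)) := by ring
          _ ≤ δ₁ := hn
      linarith

/-- the backward ladder -/
theorem near (hs : Sys f u φ C a b κ r r₁ e ρ) (i : ℕ) : ∀ {δ' : ℝ}, 0 < δ' →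
    ∃ δ : ℝ, 0 < δ ∧ ∀ (q : ℕ → M) (z₀ X₀ X : M), Lad f e q i z₀ X₀ → dist X X₀ ≤ δ →
      X ∈ Wl f.symm (2 * e) (q i) → ∃ z, z ∈ Wl f.symm δ' z₀ ∧ Lad f (2 * e) q i z X := by
  have hC := one_le hs
  have her := e_le_r hs
  have he := hs.e_pos
  induction i with
  | zero =>
    intro δ' hδ'
    refine ⟨δ' / C, by positivity, fun q z₀ X₀ X hL hX hXq => ⟨X, ?_, ?_⟩⟩
    · obtain ⟨c, h0, h1, -, h3⟩ := hL
      have h4 : X₀ = z₀ := by rw [← h0, ← h1]
      subst h4
      have h5 : X₀ ∈ Wl f.symm e (q 0) := by rw [← h1]; exact h3 0 le_rfl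
      have h6 : X ∈ Wl f.symm r X₀ := Wl_mono (by linarith) (Wl_trans (Wl_comm h5) hXq)
      have h7 := wl_of_dist hs h6 hX
      rwa [mul_div_cancel₀ _ (by positivity : C ≠ 0)] at h7
    · exact ⟨fun _ => X, rfl, rfl, fun k hk => absurd hk (Nat.not_lt_zero k), fun k hk => by
        have : k = 0 := by omega
        subst this
        exact hXq⟩
  | succ i ih =>
    intro δ' hδ'
    obtain ⟨δ₁, hδ₁, h1⟩ := ih hδ'
    obtain ⟨δ, hδ, h2⟩ := onestep hs (δ' := min δ₁ e) (lt_min hδ₁ he)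
    refine ⟨δ, hδ, fun q z₀ X₀ X hL hX hXq => ?_⟩
    obtain ⟨c, hc0, hc1, hc2, hc3⟩ := hL
    rw [← hc1] at hX
    obtain ⟨z₁, hz1, hz2⟩ := h2 (c i) (c (i + 1)) X (hc2 i (Nat.lt_succ_self i)) hX
    have hz3 : z₁ ∈ Wl f.symm (2 * e) (q i) := by
      refine Wl_mono ?_ (Wl_trans (hc3 i (by omega)) hz1)
      have : min δ₁ e ≤ e := min_le_right _ _
      linarith
    obtain ⟨z, hz4, d, hd0, hd1, hd2, hd3⟩ := h1 q z₀ (c i) z₁
      ⟨c, hc0, rfl, fun k hk => hc2 k (by omega), fun k hk => hc3 k (by omega)⟩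
      ((Wl_dist hz1).trans (min_le_left _ _)) hz3
    refine ⟨z, hz4, fun k => if k ≤ i then d k else X, by simpa using hd0, by simp, fun k hk => ?_,
      fun k hk => ?_⟩
    · rcases Nat.lt_or_ge k i with hki | hki
      · have e1 : (if k + 1 ≤ i then d (k + 1) else X) = d (k + 1) := if_pos (by omega)
        have e2 : (if k ≤ i then d k else X) = d k := if_pos (by omega)
        show (if k + 1 ≤ i then d (k + 1) else X) ∈ Wl f (2 * e) (if k ≤ i then d k else X)
        rw [e1, e2]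
        exact hd2 k hki
      · have hk' : k = i := by omega
        have e1 : (if k + 1 ≤ i then d (k + 1) else X) = X := if_neg (by omega)
        have e2 : (if k ≤ i then d k else X) = d k := if_pos (by omega)
        show (if k + 1 ≤ i then d (k + 1) else X) ∈ Wl f (2 * e) (if k ≤ i then d k else X)
        rw [e1, e2, hk', hd1]
        exact hz2
    · show (if k ≤ i then d k else X) ∈ Wl f.symm (2 * e) (q k)
      by_cases hki : k ≤ i
      · rw [if_pos hki]
        exact hd3 k hki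
      · rw [if_neg hki]
        have hk' : k = i + 1 := by omega
        rw [hk']
        exact hXq

/-- points of a disc in the unstable set -/
theorem phi_wl (hs : Sys f u φ C a b κ r r₁ e ρ) (x : M) {s t : EuclideanSpace ℝ (Fin u)}
    (hs1 : s ∈ closedBall (0 : EuclideanSpace ℝ (Fin u)) ρ)
    (ht1 : t ∈ closedBall (0 : EuclideanSpace ℝ (Fin u)) ρ) :
    φ x s ∈ Wl f.symm (C ^ 2 * dist s t) (φ x t) := by
  have hC := one_le hs
  have her := e_le_r hs
  have he := hs.e_pos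
  have h1 : φ x s ∈ Wl f.symm r (φ x t) :=
    Wl_mono (by linarith) (Wl_trans (Wl_comm (hs.mem x t ht1)) (hs.mem x s hs1))
  have h2 := wl_of_dist hs h1 (hs.upper x s hs1 t ht1)
  refine Wl_mono (le_of_eq ?_) h2
  ring

end HolM

theorem specHol : SpecHol.{v} := by
  intro M _ _ f u φ C a b κ r r₁ e ρ η ρ₁ hs hc q i m w hD
  have hC := TrM.one_le hs
  have her := TrM.e_le_r hs
  have he := hs.e_pos
  have hρ := hs.ρ_pos
  have hρ₁ := hc.ρ₁_pos
  have hρρ := hc.ρ₁_le'
  have hηe : η ≤ e := by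
    have h1 := hc.η_le
    have h2 := hc.η_pos
    nlinarith
  -- the map
  have hex : ∀ s : EuclideanSpace ℝ (Fin u), ∃ y : EuclideanSpace ℝ (Fin u),
      y ∈ closedBall (0 : EuclideanSpace ℝ (Fin u)) (ρ / 2) ∧
      (s ∈ closedBall (0 : EuclideanSpace ℝ (Fin u)) 1 →
        Lad f e q i (f.symm^[m] (φ w (ρ₁ • s))) (φ (q i) y)) := by
    intro s
    by_cases h : s ∈ closedBall (0 : EuclideanSpace ℝ (Fin u)) 1
    · have h1 : ρ₁ • s ∈ closedBall (0 : EuclideanSpace ℝ (Fin u)) ρ₁ := by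
        rw [mem_closedBall_zero_iff] at h ⊢
        rw [norm_smul, Real.norm_of_nonneg hρ₁.le]
        nlinarith
      obtain ⟨z', hz'⟩ := hD _ h1
      have h2 : z' ∈ Wl f.symm (4 * e) (q i) := by
        obtain ⟨c, -, hc1, -, hc3⟩ := hz'
        have := hc3 i le_rfl
        rw [hc1] at this
        exact Wl_mono (by linarith) this
      obtain ⟨y, hy, hy'⟩ := hs.onto _ _ h2
      exact ⟨y, hy, fun _ => by rw [hy']; exact hz'⟩
    · exact ⟨0, mem_closedBall_self (by linarith), fun h' => absurd h' h⟩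
  choose h hmem hlad using hex
  have hin : ∀ s ∈ closedBall (0 : EuclideanSpace ℝ (Fin u)) 1,
      ρ₁ • s ∈ closedBall (0 : EuclideanSpace ℝ (Fin u)) ρ := by
    intro s h
    rw [mem_closedBall_zero_iff] at h ⊢
    rw [norm_smul, Real.norm_of_nonneg hρ₁.le]
    nlinarith
  have hmem' : ∀ s, h s ∈ closedBall (0 : EuclideanSpace ℝ (Fin u)) ρ := fun s =>
    closedBall_subset_closedBall (by linarith) (hmem s)
  refine ⟨h, ?_, ?_, fun s _ => hmem s, fun s hs1 => hlad s hs1⟩
  · -- continuity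
    intro s hs1
    rw [Metric.continuousWithinAt_iff]
    intro ε hε
    set η₀ : ℝ := e / (16 * C) with hη₀
    have hη₀0 : 0 < η₀ := by positivity
    have h16 : 16 * C * η₀ ≤ e := by
      rw [hη₀]
      field_simp
      exact le_rfl
    obtain ⟨N₀, hN₀⟩ := TrM.exists_time hs i hη₀0
    obtain ⟨n, hn⟩ := HolM.exists_small (x := a) (A := C * C * e) hs.a_pos (half_pos hε)
    set N := max N₀ n with hN
    have hN2 : C * C * e * Real.exp (-(a * N)) ≤ ε / 2 := by
      refine le_trans ?_ hn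
      have h1 : (n : ℝ) ≤ N := by exact_mod_cast le_max_right _ _
      have h2 := hs.a_pos
      have h3 : Real.exp (-(a * N)) ≤ Real.exp (-(a * n)) := by
        apply Real.exp_le_exp.2
        nlinarith
      gcongr
    have hCN : (1 : ℝ) ≤ C ^ N := one_le_pow₀ hC
    refine ⟨η₀ / (C ^ N * C ^ 2 * ρ₁), by positivity, fun s' hs1' hd => ?_⟩
    -- the starting points
    have h1 : f.symm^[m] (φ w (ρ₁ • s')) ∈ Wl f.symm (C ^ 2 * dist (ρ₁ • s') (ρ₁ • s))
        (f.symm^[m] (φ w (ρ₁ • s))) := Wl_iter (HolM.phi_wl hs w (hin s' hs1') (hin s hs1)) m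
    have h2 : dist (ρ₁ • s') (ρ₁ • s) = ρ₁ * dist s' s := by
      rw [dist_smul₀, Real.norm_of_nonneg hρ₁.le]
    have h3 : ∀ k ≤ N, dist (f^[k] (f.symm^[m] (φ w (ρ₁ • s'))))
        (f^[k] (f.symm^[m] (φ w (ρ₁ • s)))) ≤ 2 * η₀ := by
      intro k hk
      refine (HolM.lip_iter hs k _ _).trans ?_
      have a1 : C ^ k ≤ C ^ N := pow_le_pow_right₀ hC hk
      have a2 := Wl_dist h1
      rw [h2] at a2
      have a3 : C ^ N * (C ^ 2 * (ρ₁ * (η₀ / (C ^ N * C ^ 2 * ρ₁)))) = η₀ := by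
        field_simp
      calc C ^ k * dist (f.symm^[m] (φ w (ρ₁ • s'))) (f.symm^[m] (φ w (ρ₁ • s)))
          ≤ C ^ N * (C ^ 2 * (ρ₁ * (η₀ / (C ^ N * C ^ 2 * ρ₁)))) := by
            refine mul_le_mul a1 (a2.trans ?_) dist_nonneg (by positivity)
            gcongr
        _ = η₀ := a3
        _ ≤ 2 * η₀ := by linarith
    have h4 := TrM.fwd hs q i N η₀ _ _ _ _ hη₀0 h16 (hN₀ N (le_max_left _ _))
      (HolM.lad_mono (by linarith) (hlad s' hs1')) (HolM.lad_mono (by linarith) (hlad s hs1)) h3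
    have h5 : φ (q i) (h s') ∈ Wl f.symm r (φ (q i) (h s)) :=
      Wl_mono (by linarith) (Wl_trans (Wl_comm (hs.mem _ _ (hmem' s))) (hs.mem _ _ (hmem' s')))
    have h6 := TrM.close hs h5 (fun j hj => (h4 j hj).trans (by nlinarith)) (h4 N le_rfl)
      (Nat.zero_le N)
    simp only [iterate_zero, id, Nat.sub_zero] at h6
    have h7 := hs.lower (q i) (h s') (hmem' s') (h s) (hmem' s)
    calc dist (h s') (h s) ≤ C * dist (φ (q i) (h s')) (φ (q i) (h s)) := h7
      _ ≤ C * (C * Real.exp (-(a * N)) * (4 * C * η₀)) := by gcongr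
      _ ≤ C * (C * Real.exp (-(a * N)) * e) := by
        have : 4 * C * η₀ ≤ e := by nlinarith
        gcongr
      _ = C * C * e * Real.exp (-(a * N)) := by ring
      _ ≤ ε / 2 := hN2
      _ < ε := by linarith
  · -- openness
    intro t ht
    rw [Metric.isOpen_iff]
    rintro y₀ ⟨s₀, hs0, rfl⟩
    have hs0' : ‖s₀‖ < t := by simpa using hs0
    have hs1 : s₀ ∈ closedBall (0 : EuclideanSpace ℝ (Fin u)) 1 := by
      rw [mem_closedBall_zero_iff]
      linarith [ht.2]
    have hCm : (0 : ℝ) < C ^ m := by positivity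
    set δ' : ℝ := min (e / C ^ m) (ρ₁ * (t - ‖s₀‖) / (2 * (C ^ m * C))) with hδ'
    have hδ'0 : 0 < δ' := lt_min (by positivity) (by
      have : 0 < t - ‖s₀‖ := by linarith
      positivity)
    have hδ'a : C ^ m * δ' ≤ e := by
      have h1 : δ' ≤ e / C ^ m := min_le_left _ _
      rw [le_div_iff₀ hCm] at h1
      linarith
    have hδ'b : 2 * (C ^ m * C * δ') ≤ ρ₁ * (t - ‖s₀‖) := by
      have h1 : δ' ≤ ρ₁ * (t - ‖s₀‖) / (2 * (C ^ m * C)) := min_le_right _ _
      rw [le_div_iff₀ (by positivity)] at h1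
      linarith
    obtain ⟨δ, hδ, hnear⟩ := HolM.near hs i hδ'0
    refine ⟨min (ρ / 2) (min (δ / C) (e / C ^ 2)), by positivity, fun y hy => ?_⟩
    rw [mem_ball, lt_min_iff, lt_min_iff] at hy
    obtain ⟨hy1, hy2, hy3⟩ := hy
    have hyρ : y ∈ closedBall (0 : EuclideanSpace ℝ (Fin u)) ρ := by
      have a1 := hmem s₀
      rw [mem_closedBall] at a1 ⊢
      linarith [dist_triangle y (h s₀) 0]
    have hX : dist (φ (q i) y) (φ (q i) (h s₀)) ≤ δ := by
      refine (hs.upper _ _ hyρ _ (hmem' s₀)).trans ?_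
      rw [lt_div_iff₀ (by positivity)] at hy2
      linarith
    have hXq : φ (q i) y ∈ Wl f.symm (2 * e) (q i) := by
      have a1 := HolM.phi_wl hs (q i) hyρ (hmem' s₀)
      have a2 : φ (q i) (h s₀) ∈ Wl f.symm e (q i) := by
        obtain ⟨c, -, hc1, -, hc3⟩ := hlad s₀ hs1
        have := hc3 i le_rfl
        rwa [hc1] at this
      refine Wl_mono ?_ (Wl_trans a2 a1)
      rw [lt_div_iff₀ (by positivity)] at hy3
      linarith
    obtain ⟨z, hz1, hz2⟩ := hnear q _ _ _ (hlad s₀ hs1) hX hXq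
    -- the point `f^m z` in the disc
    have h1 : f^[m] z ∈ Wl f.symm (C ^ m * δ') (φ w (ρ₁ • s₀)) := by
      have a0 : φ w (ρ₁ • s₀) = f^[m] (f.symm^[m] (φ w (ρ₁ • s₀))) := (TrM.iis f m _).symm
      rw [a0]
      intro j
      rcases le_or_gt j m with hj | hj
      · rw [TrM.sii_le f hj, TrM.sii_le f hj]
        refine (HolM.lip_iter hs _ _ _).trans ?_
        have a1 : C ^ (m - j) ≤ C ^ m := pow_le_pow_right₀ hC (Nat.sub_le _ _)
        have a2 := Wl_dist hz1
        gcongr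
      · obtain ⟨l, rfl⟩ := Nat.exists_eq_add_of_le hj.le
        rw [add_comm, iterate_add_apply, iterate_add_apply, TrM.sii, TrM.sii]
        have a1 := hz1 l
        have a2 : (1 : ℝ) ≤ C ^ m := one_le_pow₀ hC
        refine a1.trans ?_
        nlinarith
    have hρ0 : (0 : EuclideanSpace ℝ (Fin u)) ∈ closedBall (0 : EuclideanSpace ℝ (Fin u)) ρ :=
      mem_closedBall_self hρ.le
    have h2 : f^[m] z ∈ Wl f.symm (4 * e) w := by
      have a1 := HolM.phi_wl hs w (hin s₀ hs1) hρ0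
      rw [hs.zero, dist_zero_right, norm_smul, Real.norm_of_nonneg hρ₁.le] at a1
      have a2 : C ^ 2 * (ρ₁ * ‖s₀‖) ≤ e := by
        have a3 := hc.ρ₁_le
        have a4 : ‖s₀‖ ≤ 1 := by simpa using hs1
        have a5 : C ^ 2 * (ρ₁ * ‖s₀‖) ≤ C ^ 2 * (ρ₁ * 1) := by gcongr
        linarith
      refine Wl_mono ?_ (Wl_trans a1 h1)
      linarith
    obtain ⟨x, hx, hxz⟩ := hs.onto w _ h2
    have hxρ : x ∈ closedBall (0 : EuclideanSpace ℝ (Fin u)) ρ :=
      closedBall_subset_closedBall (by linarith) hx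
    have h3 : dist x (ρ₁ • s₀) ≤ C * (C ^ m * δ') := by
      refine (hs.lower w x hxρ _ (hin s₀ hs1)).trans ?_
      rw [hxz]
      have := Wl_dist h1
      gcongr
    set s : EuclideanSpace ℝ (Fin u) := ρ₁⁻¹ • x with hsdef
    have hsx : ρ₁ • s = x := by rw [hsdef, smul_smul, mul_inv_cancel₀ hρ₁.ne', one_smul]
    have h4 : dist s s₀ < t - ‖s₀‖ := by
      have a1 : ρ₁ * dist s s₀ = dist x (ρ₁ • s₀) := by
        rw [← hsx, dist_smul₀, Real.norm_of_nonneg hρ₁.le]
      have a2 : ρ₁ * dist s s₀ < ρ₁ * (t - ‖s₀‖) := by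
        rw [a1]
        have a3 : 0 < ρ₁ * (t - ‖s₀‖) := by
          have : 0 < t - ‖s₀‖ := by linarith
          positivity
        nlinarith
      exact lt_of_mul_lt_mul_left a2 hρ₁.le
    have h5 : s ∈ ball (0 : EuclideanSpace ℝ (Fin u)) t := by
      rw [mem_ball]
      have := dist_triangle s s₀ 0
      rw [dist_zero_right s₀] at this
      linarith
    have h6 : s ∈ closedBall (0 : EuclideanSpace ℝ (Fin u)) 1 :=
      closedBall_subset_closedBall ht.2.le (ball_subset_closedBall h5)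
    have h7 : f.symm^[m] (φ w (ρ₁ • s)) = z := by rw [hsx, hxz, TrM.sii]
    have h8 := hlad s h6
    rw [h7] at h8
    have h9 : φ (q i) (h s) = φ (q i) y :=
      TrM.unique hs q i z _ _ (HolM.lad_mono (by linarith) h8) hz2
    refine ⟨s, h5, ?_⟩
    have h10 := hs.lower (q i) (h s) (hmem' s) y hyρ
    rw [h9, dist_self, mul_zero] at h10
    exact dist_le_zero.1 h10

end Pool.Agent.Lib.MP610fe3.T6
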