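import Pool.Agent.Lib.MP_610fe3_an.T6.Basic
import Pool.Agent.Lib.MP_610fe3_an.T6.Cells
import Pool.Agent.Lib.MP_610fe3_an.T6.Free
import Pool.Agent.Lib.MP_610fe3_an.T6.Hol

/-! # Module COUNT: every free disc has more separated points, with a bounded delay -/

set_option autoImplicit false

open Set Filter Function Metric
open scoped Topology

namespace Pool.Agent.Lib.MP610fe3.T6

open Cf H6 T4

universe v

namespace CountM

variable {M : Type v} [MetricSpace M] {f : M ≃ₜ M} {u : ℕ}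
  {φ : M → EuclideanSpace ℝ (Fin u) → M} {C a b κ r r₁ e ρ η ρ₁ : ℝ}

/-- separated points of an unstable set are far apart a little later -/
theorem grow (S : Sys f u φ C a b κ r r₁ e ρ) {s t : ℝ} {n l : ℕ} (ht : t ≤ r)
    (hl : C * Real.exp (-(a * l)) * t ≤ s) {U U' : M} (h : U ∈ Wl f.symm r U')
    (hs : ∃ k ≤ n, s < dist (f^[k] U) (f^[k] U')) :
    ∃ k ≤ n + l, t < dist (f^[k] U) (f^[k] U') := by
  obtain ⟨k, hk, hs⟩ := hs
  by_contra hcon
  push Not at hcon
  have h1 : f^[k + l] U ∈ Wl f.symm r (f^[k + l] U') :=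
    CellsM.fwd_mem f h fun j hj => (hcon j (by omega)).trans ht
  have h2 := S.dec_un h1 l
  rw [CellsM.symm_iter_add f (Nat.le_add_left l k), CellsM.symm_iter_add f (Nat.le_add_left l k),
    Nat.add_sub_cancel] at h2
  have h3 := hcon (k + l) (by omega)
  have h4 : 0 ≤ C * Real.exp (-(a * l)) := mul_nonneg (by linarith [S.C1]) (Real.exp_pos _).le
  have h5 := mul_le_mul_of_nonneg_left h3 h4
  linarith

/-- many separated points in a small unstable set -/
theorem points (S : Sys f u φ C a b κ r r₁ e ρ) {t c₀ : ℝ} (htr : t ≤ r)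
    (hc : 0 < c₀) (P : ℕ) :
    ∃ k₁ : ℕ, ∀ x : M, ∃ y : Fin P → M, (∀ i, y i ∈ Wl f.symm c₀ x) ∧
      ∀ i j, i ≠ j → ∃ k ≤ k₁, t < dist (f^[k] (y i)) (f^[k] (y j)) := by
  have hC := S.C1
  have hρ := S.ρ_pos
  have hr := S.r_pos
  let v : EuclideanSpace ℝ (Fin u) := EuclideanSpace.single ⟨0, S.u_pos⟩ (1 : ℝ)
  have hv : ‖v‖ = 1 := by
    change ‖EuclideanSpace.single (⟨0, S.u_pos⟩ : Fin u) (1 : ℝ)‖ = 1
    simp
  set σ : ℝ := min ρ (c₀ / C ^ 2) with hσ
  have hσ0 : 0 < σ := by positivity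
  have hσ1 : σ ≤ ρ := min_le_left _ _
  have hσ2 : C ^ 2 * σ ≤ c₀ := by
    calc C ^ 2 * σ ≤ C ^ 2 * (c₀ / C ^ 2) := by
          gcongr
          exact min_le_right _ _
      _ = c₀ := by field_simp
  let s : Fin P → EuclideanSpace ℝ (Fin u) := fun i => (σ * (i / (P + 1 : ℝ))) • v
  have hs : ∀ i, ‖s i‖ ≤ σ := by
    intro i
    change ‖(σ * (i / (P + 1 : ℝ))) • v‖ ≤ σ
    rw [norm_smul, hv, mul_one, Real.norm_eq_abs, abs_of_nonneg (by positivity)]
    have h1 : (i : ℝ) / (P + 1) ≤ 1 := by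
      rw [div_le_one (by positivity)]
      have : (i : ℝ) < P := by exact_mod_cast i.2
      linarith
    nlinarith
  have hdist : ∀ i j, i ≠ j → σ / (P + 1) ≤ dist (s i) (s j) := by
    intro i j hij
    rw [dist_eq_norm]
    change σ / (P + 1) ≤ ‖(σ * (i / (P + 1 : ℝ))) • v - (σ * (j / (P + 1 : ℝ))) • v‖
    rw [← sub_smul, norm_smul, hv, mul_one, Real.norm_eq_abs]
    have h1 : σ * ((i : ℝ) / (P + 1)) - σ * ((j : ℝ) / (P + 1)) = σ / (P + 1) * ((i : ℝ) - j) := by
      ring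
    rw [h1, abs_mul, abs_of_pos (by positivity : 0 < σ / ((P : ℝ) + 1))]
    have h2 : (1 : ℝ) ≤ |(i : ℝ) - j| := by
      have h3 : (1 : ℤ) ≤ |(i : ℤ) - j| := by
        apply Int.one_le_abs
        intro h4
        apply hij
        apply Fin.ext
        omega
      exact_mod_cast h3
    have h3 : 0 < σ / ((P : ℝ) + 1) := by positivity
    nlinarith
  set c : ℝ := σ / (P + 1) / C / 2 with hcdef
  have hc0 : 0 < c := by positivity
  obtain ⟨k₁, hk₁⟩ := HolM.exists_small (x := a) (A := C * t) S.a_pos hc0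
  refine ⟨k₁, fun x => ⟨fun i => φ x (s i), fun i => ?_, fun i j hij => ?_⟩⟩
  · refine S.mem_small x (mem_closedBall_zero_iff.2 ((hs i).trans hσ1)) ?_
    calc C ^ 2 * ‖s i‖ ≤ C ^ 2 * σ := by
          gcongr
          exact hs i
      _ ≤ c₀ := hσ2
  · have m1 : ∀ i, s i ∈ closedBall (0 : EuclideanSpace ℝ (Fin u)) ρ := fun i =>
      mem_closedBall_zero_iff.2 ((hs i).trans hσ1)
    have h1 := S.lower x (s i) (m1 i) (s j) (m1 j)
    have h2 := hdist i j hij
    have h3 : c < dist (φ x (s i)) (φ x (s j)) := by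
      have h4 : σ / (P + 1) / C ≤ dist (φ x (s i)) (φ x (s j)) := by
        rw [div_le_iff₀ (by linarith)]
        linarith
      have h5 : 0 < σ / (P + 1) / C := by positivity
      linarith
    obtain ⟨k, hk, h⟩ := grow S (s := c) (t := t) (n := 0) (l := k₁) htr (by
      calc C * Real.exp (-(a * k₁)) * t = C * t * Real.exp (-(a * k₁)) := by ring
        _ ≤ c := hk₁) (U := φ x (s i)) (U' := φ x (s j))
      (Wl_mono (by linarith) (Wl_trans (Wl_comm (S.mem x _ (m1 j))) (S.mem x _ (m1 i))))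
      ⟨0, le_rfl, h3⟩
    exact ⟨k, by omega, h⟩

/-- grouping -/
theorem group [CompactSpace M] (S : Sys f u φ C a b κ r r₁ e ρ) (T : ℕ) {ηg : ℝ} (hg : 0 < ηg) :
    ∃ P : ℕ, ∀ X : Finset M, X.Nonempty → ∃ G ⊆ X, G.Nonempty ∧ X.card ≤ P * G.card ∧
      ∀ p ∈ G, ∀ p' ∈ G, ∀ k ≤ T, dist (f^[k] p) (f^[k] p') ≤ ηg := by
  classical
  have hC := S.C1
  obtain ⟨t, -, htf, htc⟩ := finite_cover_balls_of_compact (isCompact_univ (X := M))
    (e := ηg / (2 * C ^ T)) (by positivity)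
  have hex : ∀ x : M, ∃ c ∈ htf.toFinset, dist x c < ηg / (2 * C ^ T) := by
    intro x
    have h1 := htc (mem_univ x)
    simp only [mem_iUnion] at h1
    obtain ⟨c, hc, hx⟩ := h1
    exact ⟨c, by simpa using hc, hx⟩
  choose g hg1 hg2 using hex
  refine ⟨htf.toFinset.card, fun X hX => ?_⟩
  obtain ⟨c, hc, hmax⟩ := Finset.exists_max_image htf.toFinset
    (fun c => (X.filter fun x => g x = c).card) ⟨g hX.choose, hg1 _⟩
  have hcard := Finset.card_le_mul_card_image_of_maps_to (f := g) (s := X) (t := htf.toFinset)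
    (fun x _ => hg1 x) ((X.filter fun x => g x = c).card) (fun b hb => hmax b hb)
  refine ⟨X.filter fun x => g x = c, Finset.filter_subset _ _, ?_, by rw [mul_comm]; exact hcard, ?_⟩
  · rw [← Finset.card_pos]
    have h1 := Finset.card_pos.2 hX
    by_contra h2
    have h3 : (X.filter fun x => g x = c).card = 0 := by omega
    rw [h3, zero_mul] at hcard
    omega
  · intro p hp p' hp' k hk
    have h1 := hg2 p
    have h2 := hg2 p'
    rw [(Finset.mem_filter.1 hp).2] at h1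
    rw [(Finset.mem_filter.1 hp').2] at h2
    have h3 : dist p p' ≤ ηg / C ^ T := by
      have h4 := dist_triangle_right p p' c
      have h5 : ηg / (2 * C ^ T) + ηg / (2 * C ^ T) = ηg / C ^ T := by field_simp; ring
      linarith
    calc dist (f^[k] p) (f^[k] p') ≤ C ^ k * dist p p' := S.lip_iter p p' k
      _ ≤ C ^ T * (ηg / C ^ T) := by
          have : C ^ k ≤ C ^ T := pow_le_pow_right₀ hC hk
          gcongr
      _ = ηg := by field_simp

end CountM

open CountM in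
theorem specCount : SpecCount.{v} := by
  classical
  intro M _ _ f u φ C a b κ r r₁ e ρ η A S hA hη hηe
  have hC := S.C1
  have her := S.e_le_r
  have he := S.e_pos
  have hr := S.r_pos
  have hηr : 4 * C * η ≤ r := by nlinarith
  have hηr' : η ≤ r := by nlinarith
  -- the scales
  set θ : ℝ := η / 16 with hθd
  have hθ : 0 < θ := by positivity
  obtain ⟨δ5, hδ5, hbr5⟩ := S.br.exist θ hθ
  set ε3 : ℝ := min θ (δ5 / 16) with hε3d
  have hε3 : 0 < ε3 := by positivity
  have hε3a : ε3 ≤ θ := min_le_left _ _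
  have hε3b : ε3 ≤ δ5 / 16 := min_le_right _ _
  obtain ⟨δ3, hδ3, hbr3⟩ := S.br.exist ε3 hε3
  set ε' : ℝ := min θ (δ3 / 4) with hε'd
  have hε' : 0 < ε' := by positivity
  have hε'a : ε' ≤ θ := min_le_left _ _
  have hε'b : ε' ≤ δ3 / 4 := min_le_right _ _
  obtain ⟨δ2, hδ2, hbr2⟩ := S.br.exist ε' hε'
  set δ' : ℝ := min (min θ (δ3 / 4)) (δ5 / 16) with hδ'd
  have hδ' : 0 < δ' := by positivity
  have hδ'a : δ' ≤ θ := (min_le_left _ _).trans (min_le_left _ _)
  have hδ'b : δ' ≤ δ3 / 4 := (min_le_left _ _).trans (min_le_right _ _)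
  have hδ'c : δ' ≤ δ5 / 16 := min_le_right _ _
  set δ : ℝ := min (δ2 / 4) (δ5 / 4) with hδd
  have hδ : 0 < δ := by positivity
  have hδa : δ ≤ δ2 / 4 := min_le_left _ _
  have hδb : δ ≤ δ5 / 4 := min_le_right _ _
  obtain ⟨T0, hT0⟩ := specFree f u φ C a b κ r r₁ e ρ A S hA η δ hη hδ
  set ηg : ℝ := min η (δ2 / 4) with hηgd
  have hηg : 0 < ηg := by positivity
  have hηga : ηg ≤ η := min_le_left _ _
  have hηgb : ηg ≤ δ2 / 4 := min_le_right _ _
  obtain ⟨P, hP⟩ := group S T0 hηg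
  obtain ⟨k1, hk1⟩ := points S hηr' (c₀ := min (δ5 / 16) r) (by positivity) (P + 1)
  obtain ⟨m0, hm0⟩ := hA.mix δ' hδ'
  have hm := hm0 m0 le_rfl
  obtain ⟨l1, hl1⟩ := HolM.exists_small (x := a) (A := C * (4 * C * η)) S.a_pos
    (show (0 : ℝ) < η / 2 by positivity)
  refine ⟨T0 + k1 + m0 + l1, fun n w w' hw hw' X hX hsep => ?_⟩
  rcases X.eq_empty_or_nonempty with rfl | hne
  · refine ⟨{w'}, by simp, fun p hp => ?_, fun p hp p' hp' hpp => ?_⟩
    · rw [Finset.mem_singleton] at hp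
      rw [hp]
      exact mem_Wl_self hη.le
    · rw [Finset.mem_singleton] at hp hp'
      exact absurd (hp.trans hp'.symm) hpp
  have : Nonempty M := ⟨w⟩
  obtain ⟨G, hGX, ⟨g0, hg0⟩, hcard, hGc⟩ := hP X hne
  have hfree : ∀ p ∈ X, Free f A r η p := fun p hp z hz =>
    hw (Wl_mono (by linarith) (Wl_trans (hX p hp) hz))
  obtain ⟨a0, ha0, hga0⟩ := hT0 T0 le_rfl g0 (hfree g0 (hGX hg0))
  obtain ⟨a1, ha1, hwa1⟩ := hT0 T0 le_rfl w' hw'
  have hz : ∀ p ∈ G, ∃ z, z ∈ Wl f ε' (f^[T0] p) ∧ z ∈ Wl f.symm ε' a0 := by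
    intro p hp
    refine hbr2 _ _ ?_
    have h1 := hGc p hp g0 hg0 T0 le_rfl
    have h2 := Wl_dist hga0
    have h3 := dist_triangle (f^[T0] p) (f^[T0] g0) a0
    linarith
  choose! z hz1 hz2 using hz
  obtain ⟨x, hx1, hx2⟩ := hk1 a1
  have hxA : ∀ i, f^[k1] (x i) ∈ A := fun i =>
    (BasM.iter_mem hA.inv k1 (x i)).2 (hA.sat a1 ha1 _ (Wl_mono (min_le_right _ _) (hx1 i)))
  have hy : ∀ i, ∃ y, y ∈ Wl f.symm δ' (f^[k1] (x i)) ∧ f^[m0] y ∈ Wl f δ' a0 :=
    fun i => hm _ (hxA i) _ ha0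
  choose y hy1 hy2 using hy
  have hv : ∀ q : Fin (P + 1) × M, q.2 ∈ G →
      ∃ v, v ∈ Wl f ε3 (z q.2) ∧ v ∈ Wl f.symm ε3 (f^[m0] (y q.1)) := by
    intro q hq
    refine hbr3 _ _ ?_
    have h1 := Wl_dist (hz2 q.2 hq)
    have h2 := Wl_dist (hy2 q.1)
    have h3 := dist_triangle_right (z q.2) (f^[m0] (y q.1)) a0
    linarith
  choose! v hv1 hv2 using hv
  -- the points near `a1`
  have hW : ∀ q : Fin (P + 1) × M, q.2 ∈ G →
      f.symm^[m0] (v q) ∈ Wl f.symm (δ' + ε3) (f^[k1] (x q.1)) := by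
    intro q hq
    have h1 := Wl_iter (hv2 q hq) m0
    rw [CellsM.sii] at h1
    exact Wl_trans (hy1 q.1) h1
  have hV : ∀ q : Fin (P + 1) × M, q.2 ∈ G →
      f.symm^[k1] (f.symm^[m0] (v q)) ∈ Wl f.symm (δ5 / 16 + (δ' + ε3)) a1 := by
    intro q hq
    have h1 := Wl_iter (hW q hq) k1
    rw [CellsM.sii] at h1
    exact Wl_trans (Wl_mono (min_le_left _ _) (hx1 q.1)) h1
  have hU : ∀ q : Fin (P + 1) × M, q.2 ∈ G →
      ∃ U, U ∈ Wl f θ (f.symm^[k1] (f.symm^[m0] (v q))) ∧ U ∈ Wl f.symm θ (f^[T0] w') := by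
    intro q hq
    refine hbr5 _ _ ?_
    have h1 := Wl_dist (hV q hq)
    have h2 := Wl_dist hwa1
    have h3 := dist_triangle_right (f.symm^[k1] (f.symm^[m0] (v q))) (f^[T0] w') a1
    linarith
  choose! U hU1 hU2 using hU
  set pt : Fin (P + 1) × M → M := fun q => f.symm^[T0] (U q) with hpt
  have hpt1 : ∀ q : Fin (P + 1) × M, q.2 ∈ G → pt q ∈ Wl f.symm θ w' := by
    intro q hq
    have h1 := Wl_iter (hU2 q hq) T0
    rw [CellsM.sii] at h1
    exact h1
  -- separation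
  have hsepU : ∀ q q' : Fin (P + 1) × M, q.2 ∈ G → q'.2 ∈ G → q ≠ q' →
      ∃ k ≤ k1 + m0 + n, η / 2 < dist (f^[k] (U q)) (f^[k] (U q')) := by
    intro q q' hq hq' hne
    by_cases hi : q.1 = q'.1
    · have hp : q.2 ≠ q'.2 := fun h => hne (Prod.ext hi h)
      obtain ⟨k, hk, hk2⟩ := hsep q.2 (hGX hq) q'.2 (hGX hq') hp
      have hkT : T0 < k := by
        by_contra hle
        push Not at hle
        have := hGc q.2 hq q'.2 hq' k hle
        linarith
      obtain ⟨j, rfl⟩ := Nat.exists_eq_add_of_le hkT.le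
      refine ⟨j + (m0 + k1), by omega, ?_⟩
      have key : ∀ q : Fin (P + 1) × M, q.2 ∈ G →
          dist (f^[j + (m0 + k1)] (U q)) (f^[T0 + j] q.2) ≤ θ + ε3 + ε' := by
        intro q hq
        have h1 := hU1 q hq (j + (m0 + k1))
        rw [iterate_add_apply f j (m0 + k1) (f.symm^[k1] (f.symm^[m0] (v q))),
          iterate_add_apply f m0 k1, iterate_symm_iterate, iterate_symm_iterate] at h1
        have h2 := hv1 q hq j
        have h3 := hz1 q.2 hq j
        rw [← iterate_add_apply, add_comm j T0] at h3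
        have h4 := dist_triangle4 (f^[j + (m0 + k1)] (U q)) (f^[j] (v q)) (f^[j] (z q.2))
          (f^[T0 + j] q.2)
        linarith
      have h1 := key q hq
      have h2 := key q' hq'
      have h3 := dist_triangle4 (f^[T0 + j] q.2) (f^[j + (m0 + k1)] (U q))
        (f^[j + (m0 + k1)] (U q')) (f^[T0 + j] q'.2)
      rw [dist_comm (f^[T0 + j] q.2) (f^[j + (m0 + k1)] (U q))] at h3
      linarith
    · obtain ⟨k, hk, hk2⟩ := hx2 q.1 q'.1 hi
      refine ⟨k, by omega, ?_⟩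
      have key : ∀ q : Fin (P + 1) × M, q.2 ∈ G →
          dist (f^[k] (U q)) (f^[k] (x q.1)) ≤ θ + (δ' + ε3) := by
        intro q hq
        have h1 := hU1 q hq k
        have h2 := hW q hq (k1 - k)
        rw [symm_iterate_iterate_of_le f (Nat.sub_le _ _), Nat.sub_sub_self hk] at h2
        rw [iterate_symm_iterate_of_le f hk] at h1
        have h3 := dist_triangle (f^[k] (U q)) (f.symm^[k1 - k] (f.symm^[m0] (v q))) (f^[k] (x q.1))
        linarith
      have h1 := key q hq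
      have h2 := key q' hq'
      have h3 := dist_triangle4 (f^[k] (x q.1)) (f^[k] (U q)) (f^[k] (U q')) (f^[k] (x q'.1))
      rw [dist_comm (f^[k] (x q.1)) (f^[k] (U q))] at h3
      linarith
  have hsepP : ∀ q q' : Fin (P + 1) × M, q.2 ∈ G → q'.2 ∈ G → q ≠ q' →
      ∃ k ≤ n + (T0 + k1 + m0 + l1), 4 * C * η < dist (f^[k] (pt q)) (f^[k] (pt q')) := by
    intro q q' hq hq' hne
    obtain ⟨k, hk, hk2⟩ := hsepU q q' hq hq' hne
    obtain ⟨k', hk', h⟩ := grow S (s := η / 2) (t := 4 * C * η) (n := T0 + k1 + m0 + n) (l := l1)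
      hηr (by
        calc C * Real.exp (-(a * l1)) * (4 * C * η) = C * (4 * C * η) * Real.exp (-(a * l1)) := by
              ring
          _ ≤ η / 2 := hl1) (U := pt q) (U' := pt q')
      (Wl_mono (by linarith) (Wl_trans (Wl_comm (hpt1 q' hq')) (hpt1 q hq)))
      ⟨T0 + k, by omega, by
        rw [add_comm, iterate_add_apply, iterate_add_apply, hpt]
        simp only [iterate_symm_iterate]
        exact hk2⟩
    exact ⟨k', by omega, h⟩
  have hmemG : ∀ q ∈ (Finset.univ : Finset (Fin (P + 1))) ×ˢ G, q.2 ∈ G := fun q hq =>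
    (Finset.mem_product.1 hq).2
  refine ⟨((Finset.univ : Finset (Fin (P + 1))) ×ˢ G).image pt, ?_, ?_, ?_⟩
  · rw [Finset.card_image_of_injOn, Finset.card_product, Finset.card_univ, Fintype.card_fin]
    · have hG : 0 < G.card := Finset.card_pos.2 ⟨g0, hg0⟩
      calc X.card ≤ P * G.card := hcard
        _ < (P + 1) * G.card := by
            rw [add_mul, one_mul]
            omega
    · intro q hq q' hq' hqq
      by_contra hne
      obtain ⟨k, -, hk⟩ := hsepP q q' (hmemG q hq) (hmemG q' hq') hne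
      rw [hqq, dist_self] at hk
      have : 0 < 4 * C * η := by positivity
      linarith
  · intro p hp
    obtain ⟨q, hq, rfl⟩ := Finset.mem_image.1 hp
    exact Wl_mono (by linarith) (hpt1 q (hmemG q hq))
  · intro p hp p' hp' hpp
    obtain ⟨q, hq, rfl⟩ := Finset.mem_image.1 hp
    obtain ⟨q', hq', rfl⟩ := Finset.mem_image.1 hp'
    exact hsepP q q' (hmemG q hq) (hmemG q' hq') fun h => hpp (by rw [h])

end Pool.Agent.Lib.MP610fe3.T6
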