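import Pool.Agent.Lib.MP_610fe3_an.T6.Level
import Pool.Agent.Lib.MP_610fe3_an.T6.Free
import Pool.Agent.Lib.MP_610fe3_an.T6.Tr

/-!
# Module INR: the inradius of the image of a disc

From COUNT (hypothesis) and TR.
-/

open Set Filter Function Metric
open scoped Topology

namespace Pool.Agent.Lib.MP610fe3.T6

open Cf H6 T4

universe v

namespace InrM

open LevelM

variable {M : Type v} [MetricSpace M] {f : M ≃ₜ M} {u : ℕ}
  {φ : M → EuclideanSpace ℝ (Fin u) → M} {C a b κ r r₁ e ρ : ℝ}

/-- separated sets have bounded cardinality -/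
theorem exists_bound [CompactSpace M] (hs : Sys f u φ C a b κ r r₁ e ρ) (n : ℕ) {η : ℝ}
    (hη : 0 < η) : ∃ B : ℕ, ∀ S : Finset M,
      (∀ p ∈ S, ∀ p' ∈ S, p ≠ p' → ∃ k ≤ n, η < dist (f^[k] p) (f^[k] p')) → S.card ≤ B := by
  classical
  have hC := one_le hs
  have hCn : (0 : ℝ) < C ^ n := by positivity
  obtain ⟨t, -, htf, ht⟩ := finite_cover_balls_of_compact (isCompact_univ (X := M))
    (show (0 : ℝ) < η / C ^ n / 2 by positivity)
  have hc : ∀ x : M, ∃ y ∈ t, dist x y < η / C ^ n / 2 := by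
    intro x
    have := ht (mem_univ x)
    simp only [mem_iUnion, mem_ball, exists_prop] at this
    exact this
  choose g hg hg' using hc
  refine ⟨htf.toFinset.card, fun S hS => ?_⟩
  apply Finset.card_le_card_of_injOn g
  · intro x _
    simpa using hg x
  · intro x hx y hy hxy
    by_contra hne
    obtain ⟨k, hk, hk'⟩ := hS x hx y hy hne
    have h1 : dist x y < η / C ^ n := by
      have h2 := hg' x
      have h3 := hg' y
      rw [← hxy, dist_comm] at h3
      linarith [dist_triangle x (g x) y]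
    have h2 := lip_iter hs x y k
    have h3 : C ^ k ≤ C ^ n := pow_le_pow_right₀ hC hk
    have h4 : C ^ k * dist x y ≤ C ^ n * (η / C ^ n) :=
      mul_le_mul h3 h1.le dist_nonneg hCn.le
    have h5 : C ^ n * (η / C ^ n) = η := by field_simp
    linarith

/-- maximal separated sets -/
theorem exists_max [CompactSpace M] (hs : Sys f u φ C a b κ r r₁ e ρ) (W : Set M) (n : ℕ) {η : ℝ}
    (hη : 0 < η) : ∃ S : Finset M, (∀ p ∈ S, p ∈ W) ∧
      (∀ p ∈ S, ∀ p' ∈ S, p ≠ p' → ∃ k ≤ n, η < dist (f^[k] p) (f^[k] p')) ∧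
      ∀ g ∈ W, ∃ p ∈ S, ∀ k ≤ n, dist (f^[k] g) (f^[k] p) ≤ η := by
  classical
  obtain ⟨B, hB⟩ := exists_bound hs n hη
  set P : ℕ → Prop := fun m => ∃ S : Finset M, S.card = m ∧ (∀ p ∈ S, p ∈ W) ∧
    (∀ p ∈ S, ∀ p' ∈ S, p ≠ p' → ∃ k ≤ n, η < dist (f^[k] p) (f^[k] p')) with hP
  have hP0 : P 0 := ⟨∅, by simp, by simp, by simp⟩
  obtain ⟨m, hm, hmax⟩ : ∃ m, P m ∧ ∀ k, P k → k ≤ m := by
    have hfin : {k | P k}.Finite := (Set.finite_Iic B).subset fun k hk => by
      obtain ⟨S, rfl, -, h⟩ := hk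
      exact hB S h
    obtain ⟨k₀, h1, h2⟩ := hfin.exists_maximal ⟨0, hP0⟩
    refine ⟨k₀, h1, fun k hk => ?_⟩
    by_contra hlt
    push Not at hlt
    exact absurd (h2 hk hlt.le) (by omega)
  obtain ⟨S, hSm, hSW, hS⟩ := hm
  refine ⟨S, hSW, hS, fun g hg => ?_⟩
  by_contra hcon
  push Not at hcon
  have hgS : g ∉ S := by
    intro h
    obtain ⟨k, _, hk⟩ := hcon g h
    rw [dist_self] at hk
    linarith
  have h1 : P (S.card + 1) := by
    refine ⟨insert g S, Finset.card_insert_of_notMem hgS, ?_, ?_⟩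
    · intro p hp
      rcases Finset.mem_insert.1 hp with rfl | hp
      · exact hg
      · exact hSW p hp
    · intro p hp p' hp' hne
      rcases Finset.mem_insert.1 hp with h1 | h1
      · rcases Finset.mem_insert.1 hp' with h2 | h2
        · exact absurd (h1.trans h2.symm) hne
        · rw [h1]
          exact hcon p' h2
      · rcases Finset.mem_insert.1 hp' with h2 | h2
        · obtain ⟨k, hk, hk'⟩ := hcon p h1
          exact ⟨k, hk, by rw [h2, dist_comm]; exact hk'⟩
        · exact hS p h1 p' h2 hne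
  have := hmax _ h1
  omega

theorem lad_mono {e e' : ℝ} (hee : e ≤ e') {q : ℕ → M} {l : ℕ} {z z' : M}
    (h : Lad f e q l z z') : Lad f e' q l z z' := by
  obtain ⟨c, h0, hl, hc1, hc2⟩ := h
  exact ⟨c, h0, hl, fun k hk => Wl_mono hee (hc1 k hk), fun k hk => Wl_mono hee (hc2 k hk)⟩

theorem lad_end {e : ℝ} {q : ℕ → M} {l : ℕ} {z z' : M} (h : Lad f e q l z z') :
    z' ∈ Wl f.symm e (q l) := by
  obtain ⟨c, h0, hl, hc1, hc2⟩ := h
  rw [← hl]
  exact hc2 l le_rfl

/-- the basin is saturated by ladders -/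
theorem lad_basin [CompactSpace M] (hs : Sys f u φ C a b κ r r₁ e ρ) {A : Set M}
    (hA : Attr f A r) {q : ℕ → M} {l : ℕ} {z z' : M} (h : Lad f e q l z z')
    (hz : z ∈ basin f A r) : z' ∈ basin f A r := by
  obtain ⟨c, h0, hl, hc1, hc2⟩ := h
  have her := e_le_r hs
  have he := hs.e_pos
  have : ∀ k ≤ l, c k ∈ basin f A r := by
    intro k
    induction k with
    | zero => intro _; rw [h0]; exact hz
    | succ k ih =>
      intro hk
      exact BasM.stab (FreeM.hyp hs) hA (c k) (c (k + 1))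
        (Wl_mono (by linarith) (hc1 k (by omega))) (ih (by omega))
  rw [← hl]
  exact this l le_rfl

end InrM

open LevelM InrM in
theorem specInr (hcount : SpecCount.{v}) : SpecInr.{v} := by
  classical
  intro M _ _ f u φ C a b κ r r₁ e ρ η ρ₁ A hs hA hsc
  have hC : 1 ≤ C := one_le hs
  have hC0 : 0 < C := by linarith
  have her := e_le_r hs
  have he := hs.e_pos
  have hη := hsc.η_pos
  have hρ₁ := hsc.ρ₁_pos
  have hρ := hs.ρ_pos
  have hr := hs.fwd.ε_pos
  have hηe : 16 * η ≤ e := by nlinarith [hsc.η_le]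
  have hCCρ : C * (C * ρ₁) ≤ η := by nlinarith [hsc.ρ₁_le]
  have hρ₁ρ : ρ₁ ≤ ρ := by linarith [hsc.ρ₁_le']
  obtain ⟨l, hl⟩ := hcount f u φ C a b κ r r₁ e ρ η A hs hA hη hsc.η_le
  set C₁ : ℝ := (C ^ 2 * η + ρ) * Real.exp (a * l) with hC₁
  have hC₁pos : 0 < C₁ := by positivity
  refine ⟨C₁, hC₁pos, ?_⟩
  intro q i m N w h hmN hi hw hh p hball
  set t : ℝ := C₁ * Real.exp (-(a * m)) with ht
  have htpos : 0 < t := by positivity
  have himg : ∀ x ∈ closedBall p t, x ∈ closedBall (0 : EuclideanSpace ℝ (Fin u)) (ρ / 2) := by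
    intro x hx
    obtain ⟨s, hs1, hs2⟩ := hball hx
    rw [← hs2]
    exact hh.mem s hs1
  have hexp : t = (C ^ 2 * η + ρ) * Real.exp (a * l - a * m) := by
    rw [ht, hC₁, mul_assoc, ← Real.exp_add]; ring_nf
  rcases Nat.lt_or_ge m l with hml | hml
  · -- the time is short: the ball is too large
    have h1 : ρ ≤ t := by
      rw [hexp]
      have h2 : (1 : ℝ) ≤ Real.exp (a * l - a * m) := by
        apply Real.one_le_exp
        have h3 : (m : ℝ) ≤ (l : ℝ) := by exact_mod_cast hml.le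
        nlinarith [hs.a_pos]
      have h4 : 0 ≤ C ^ 2 * η := by positivity
      nlinarith
    have : Nonempty (Fin u) := ⟨⟨0, hs.u_pos⟩⟩
    obtain ⟨v, hv⟩ := exists_norm_eq (EuclideanSpace ℝ (Fin u)) htpos.le
    have h2 : p + v ∈ closedBall p t := by
      rw [mem_closedBall, dist_eq_norm, add_sub_cancel_left, hv]
    have h3 : p - v ∈ closedBall p t := by
      rw [mem_closedBall, dist_eq_norm, sub_sub_cancel_left, norm_neg, hv]
    have h4 := himg _ h2
    have h5 := himg _ h3
    rw [mem_closedBall_zero_iff] at h4 h5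
    have h6 : (2 : ℝ) • v = (p + v) - (p - v) := by rw [two_smul]; abel
    have h7 : 2 * t ≤ ‖p + v‖ + ‖p - v‖ := by
      have h8 : ‖(2 : ℝ) • v‖ = 2 * t := by rw [norm_smul, hv]; norm_num
      rw [← h8, h6]
      exact norm_sub_le _ _
    linarith
  · -- the main case
    set m' : ℕ := m - l with hm'
    have hm'm : m' + l = m := by omega
    have hp : p ∈ closedBall p t := mem_closedBall_self htpos.le
    have hpρ := himg p hp
    obtain ⟨s₀, hs₀, hs₀p⟩ := hball hp
    have hlad₀ := hh.lad s₀ hs₀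
    rw [hs₀p] at hlad₀
    have hpq : φ (q i) p ∈ Wl f.symm e (q i) := lad_end hlad₀
    set e₀ : M := f^[m'] (φ (q i) p) with he₀
    have hpρ' : p ∈ closedBall (0 : EuclideanSpace ℝ (Fin u)) ρ :=
      closedBall_subset_closedBall (by linarith) hpρ
    -- the points near `e₀` come from ladders
    have hpt : ∀ z ∈ Wl f.symm η e₀, ∃ s ∈ closedBall (0 : EuclideanSpace ℝ (Fin u)) 1,
        Lad f e q i (f.symm^[m] (φ w (ρ₁ • s))) (f.symm^[m'] z) := by
      intro z hz
      have h1 : f.symm^[m'] z ∈ Wl f.symm η (φ (q i) p) := by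
        have := Wl_iter hz m'
        rwa [he₀, sii] at this
      have h2 : f.symm^[m'] z ∈ Wl f.symm (4 * e) (q i) :=
        Wl_mono (by linarith) (Wl_trans hpq h1)
      obtain ⟨x, hx, hxz⟩ := hs.onto _ _ h2
      have hxρ : x ∈ closedBall (0 : EuclideanSpace ℝ (Fin u)) ρ :=
        closedBall_subset_closedBall (by linarith) hx
      have h3 := hs.lower (q i) x hxρ p hpρ'
      rw [hxz] at h3
      have h4 := dec_bwd hs (Wl_mono (by linarith : η ≤ r) hz) m'
      rw [he₀, sii] at h4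
      have h5 : dist x p ≤ t := by
        calc dist x p ≤ C * dist (f.symm^[m'] z) (φ (q i) p) := h3
          _ ≤ C * (C * Real.exp (-(a * m')) * dist z (f^[m'] (φ (q i) p))) :=
              mul_le_mul_of_nonneg_left h4 hC0.le
          _ ≤ C * (C * Real.exp (-(a * m')) * η) := by
              have := Wl_dist hz
              rw [he₀] at this
              gcongr
          _ = C ^ 2 * η * Real.exp (a * l - a * m) := by
              have : (m' : ℝ) = m - l := by rw [hm']; push_cast [hml]; ring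
              rw [this, show -(a * ((m : ℝ) - l)) = a * l - a * m by ring]
              ring
          _ ≤ t := by
              rw [hexp]
              gcongr
              linarith
      obtain ⟨s, hs1, hs2⟩ := hball (show x ∈ closedBall p t from h5)
      refine ⟨s, hs1, ?_⟩
      have h6 := hh.lad s hs1
      rwa [hs2, hxz] at h6
    have hsm : ∀ s ∈ closedBall (0 : EuclideanSpace ℝ (Fin u)) 1,
        φ w (ρ₁ • s) ∈ Wl f.symm η w := by
      intro s hs1
      rw [mem_closedBall_zero_iff] at hs1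
      refine Wl_mono hCCρ (phi_mem hs ?_ hρ₁ρ)
      rw [norm_smul, Real.norm_of_nonneg hρ₁.le]
      exact mul_le_of_le_one_right hρ₁.le hs1
    -- `e₀` is free
    have hfree : Free f A r η e₀ := by
      intro z hz
      obtain ⟨s, hs1, hlad⟩ := hpt z hz
      have h1 : φ w (ρ₁ • s) ∈ basin f A r := hw (Wl_mono (by linarith) (hsm s hs1))
      have h2 : f.symm^[m] (φ w (ρ₁ • s)) ∈ basin f A r :=
        (BasM.symm_iter_mem (BasM.inv hA) m _).2 h1
      have h3 := lad_basin hs hA hlad h2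
      exact (BasM.symm_iter_mem (BasM.inv hA) m' _).1 h3
    -- counting
    obtain ⟨S, hSW, hSsep, hSmax⟩ := exists_max hs (Wl f.symm η w) (N - m) hη
    obtain ⟨S', hcard, hS'W, hS'sep⟩ := hl (N - m) w e₀ hw hfree S hSW hSsep
    have hsel : ∀ z : M, ∃ g : M, ∃ g' : M, z ∈ Wl f.symm η e₀ → (g ∈ Wl f.symm η w ∧
        Lad f e q i (f.symm^[m] g) (f.symm^[m'] z) ∧ g' ∈ S ∧
        ∀ k ≤ N - m, dist (f^[k] g) (f^[k] g') ≤ η) := by
      intro z
      by_cases hz : z ∈ Wl f.symm η e₀
      · obtain ⟨s, hs1, hlad⟩ := hpt z hz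
        obtain ⟨g', hg', hg''⟩ := hSmax _ (hsm s hs1)
        exact ⟨φ w (ρ₁ • s), g', fun _ => ⟨hsm s hs1, hlad, hg', hg''⟩⟩
      · exact ⟨z, z, fun h => absurd h hz⟩
    choose G G' hG using hsel
    obtain ⟨z, hz, z', hz', hne, hGG⟩ := Finset.exists_ne_map_eq_of_card_lt_of_maps_to hcard
      (f := G') (fun z hz => (hG z (hS'W z hz)).2.2.1)
    obtain ⟨g1, g2, -, g4⟩ := hG z (hS'W z hz)
    obtain ⟨g1', g2', -, g4'⟩ := hG z' (hS'W z' hz')
    rw [← hGG] at g4'
    -- the starting points are close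
    have hclose : ∀ k ≤ N, dist (f^[k] (f.symm^[m] (G z))) (f^[k] (f.symm^[m] (G z'))) ≤
        2 * η := by
      intro k hk
      rcases le_or_gt k m with hkm | hkm
      · rw [iis_le f hkm, iis_le f hkm]
        have h1 := g1 (m - k)
        have h2 := g1' (m - k)
        rw [dist_comm] at h2
        linarith [dist_triangle (f.symm^[m - k] (G z)) (f.symm^[m - k] w)
          (f.symm^[m - k] (G z'))]
      · have h1 : k = (k - m) + m := by omega
        rw [h1, iterate_add_apply, iterate_add_apply, iis, iis]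
        have h2 := g4 (k - m) (by omega)
        have h3 := g4' (k - m) (by omega)
        rw [dist_comm] at h3
        linarith [dist_triangle (f^[k - m] (G z)) (f^[k - m] (G' z)) (f^[k - m] (G z'))]
    have htr := TrM.fwd hs q i N η _ _ _ _ hη hsc.η_le hi (lad_mono (by linarith) g2)
      (lad_mono (by linarith) g2') hclose
    obtain ⟨k, hk, hk'⟩ := hS'sep z hz z' hz' hne
    have h1 := htr (k + m') (by omega)
    rw [iterate_add_apply, iterate_add_apply, iis, iis] at h1
    linarith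

end Pool.Agent.Lib.MP610fe3.T6
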