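import Pool.Agent.Lib.MP_610fe3_an.T6.Basic
import Pool.Agent.Lib.MP_610fe3_an.T6.Inr

/-!
# Module EY: the key estimate
-/

open Set Filter Function Metric
open scoped Topology

namespace Pool.Agent.Lib.MP610fe3.T6

open Cf H6 T4

universe v

namespace EyM

variable {M : Type v} [MetricSpace M] {f : M ≃ₜ M} {u : ℕ}
  {φ : M → EuclideanSpace ℝ (Fin u) → M} {C a b κ r r₁ e ρ η ρ₁ : ℝ}

/-- Points of a small disc which are close until the time `N - m`, moved back by `f^m`, are close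
until the time `N`. -/
theorem start_close {m N : ℕ} {p g w : M} (hmN : m ≤ N)
    (hp : p ∈ Wl f.symm η w) (hg : g ∈ Wl f.symm η w)
    (h : ∀ k ≤ N - m, dist (f^[k] p) (f^[k] g) ≤ 2 * η) :
    ∀ k ≤ N, dist (f^[k] (f.symm^[m] p)) (f^[k] (f.symm^[m] g)) ≤ 2 * η := by
  intro k hk
  rcases le_or_gt k m with hkm | hkm
  · rw [LevelM.iis_le f hkm, LevelM.iis_le f hkm]
    have h1 := hp (m - k)
    have h2 := hg (m - k)
    rw [dist_comm] at h2
    linarith [dist_triangle (f.symm^[m - k] p) (f.symm^[m - k] w) (f.symm^[m - k] g)]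
  · have h1 : k = (k - m) + m := by omega
    rw [h1, iterate_add_apply, iterate_add_apply, LevelM.iis, LevelM.iis]
    exact h (k - m) (by omega)

/-- The points of the disc are close after the time `m`, if they are close until the time `N` when
moved back. -/
theorem start_close' {m N : ℕ} {p g : M} {t : ℝ} (hmN : m ≤ N)
    (h : ∀ k ≤ N, dist (f^[k] (f.symm^[m] p)) (f^[k] (f.symm^[m] g)) ≤ t) :
    ∀ k ≤ N - m, dist (f^[k] p) (f^[k] g) ≤ t := by
  intro k hk
  have h1 := h (k + m) (by omega)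
  rwa [iterate_add_apply, iterate_add_apply, LevelM.iis, LevelM.iis] at h1

/-- The image of two points which are close until the time `N - m`. -/
theorem img_close (S : Sys f u φ C a b κ r r₁ e ρ) (hc : Sc C e ρ η ρ₁) {q : ℕ → M}
    {i m N : ℕ} {p g w z z' : M} (hmN : m ≤ N)
    (hi : i * (C * Real.exp (-(b * N)) * (2 * e)) ≤ η)
    (hp : p ∈ Wl f.symm η w) (hg : g ∈ Wl f.symm η w) (hz : Lad f e q i (f.symm^[m] p) z)
    (hz' : Lad f e q i (f.symm^[m] g) z')
    (h : ∀ k ≤ N - m, dist (f^[k] p) (f^[k] g) ≤ 2 * η) :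
    ∀ k ≤ N, dist (f^[k] z) (f^[k] z') ≤ 4 * C * η := by
  have he := S.e_pos
  exact TrM.fwd S q i N η _ _ _ _ hc.η_pos hc.η_le hi (hz.mono (by linarith))
    (hz'.mono (by linarith)) (start_close hmN hp hg h)

/-- The image of two separated points. -/
theorem img_sep (S : Sys f u φ C a b κ r r₁ e ρ) (hc : Sc C e ρ η ρ₁) {q : ℕ → M}
    {i m N : ℕ} {p g z z' : M} (hmN : m ≤ N)
    (hi : i * (C * Real.exp (-(b * N)) * (2 * e)) ≤ η / (4 * C))
    (hz : Lad f e q i (f.symm^[m] p) z)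
    (hz' : Lad f e q i (f.symm^[m] g) z')
    (h : ∃ k ≤ N - m, η < dist (f^[k] p) (f^[k] g)) :
    ∃ k ≤ N, η / (4 * C) < dist (f^[k] z) (f^[k] z') := by
  by_contra hcon
  push Not at hcon
  have he := S.e_pos
  have hη := hc.η_pos
  have hC := S.C1
  have hC0 : 0 < C := by linarith
  have h1 : 0 < η / (4 * C) := by positivity
  have h2 : η / (4 * C) ≤ η := by
    rw [div_le_iff₀ (by positivity)]
    nlinarith
  have h3 : 16 * C * (η / (4 * C)) ≤ e := by
    refine le_trans ?_ hc.η_le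
    gcongr
  have h4 := TrM.bwd S q i N (η / (4 * C)) _ _ _ _ h1 h3 hi (hz.mono (by linarith))
    (hz'.mono (by linarith)) (fun k hk => (hcon k hk).trans (by linarith))
  have h5 : 4 * C * (η / (4 * C)) = η := by field_simp
  rw [h5] at h4
  obtain ⟨k, hk, hk'⟩ := h
  have h6 := start_close' hmN h4 k hk
  linarith

/-- Points of an unstable set which are close until the time `N`. -/
theorem img_small (S : Sys f u φ C a b κ r r₁ e ρ) (hc : Sc C e ρ η ρ₁) {N : ℕ} {z z' : M}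
    (hz : z' ∈ Wl f.symm (2 * e) z)
    (h : ∀ k ≤ N, dist (f^[k] z') (f^[k] z) ≤ 4 * C * η) :
    dist z' z ≤ C * (4 * C * η) * Real.exp (-(a * N)) := by
  have hr := S.e_le_r
  have he := S.e_pos
  have hη := hc.η_le
  have h1 : ∀ j ≤ N, dist (f^[j] z') (f^[j] z) ≤ r := fun j hj => (h j hj).trans (by linarith)
  have h2 := TrM.close S (Wl_mono (by linarith) hz) h1 (h N le_rfl) (Nat.zero_le N)
  simp only [iterate_zero, id_eq, Nat.sub_zero] at h2
  linarith

/-- The number of dyadic scales. -/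
theorem exists_ell {C X : ℝ} (hC : 1 ≤ C) : ∃ l : ℕ, ∀ N : ℕ,
    X * C ^ N ≤ 2 ^ (l * (N + 1)) := by
  obtain ⟨l, hl⟩ := pow_unbounded_of_one_lt (C * max 1 X) one_lt_two
  refine ⟨l, fun N => ?_⟩
  have h1 : 1 ≤ max 1 X := le_max_left _ _
  have h2 : X ≤ max 1 X := le_max_right _ _
  have hC0 : 0 ≤ C := by linarith
  calc X * C ^ N ≤ max 1 X * C ^ N := by gcongr
    _ ≤ max 1 X ^ (N + 1) * C ^ (N + 1) := by
        gcongr
        · exact le_self_pow₀ h1 (Nat.succ_ne_zero N)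
        · exact Nat.le_succ N
    _ = (C * max 1 X) ^ (N + 1) := by rw [mul_pow, mul_comm]
    _ ≤ (2 ^ l) ^ (N + 1) := by
        gcongr
    _ = 2 ^ (l * (N + 1)) := by rw [← pow_mul]

end EyM

open EyM in
theorem specEy (hPl : SpecPl) (hHol : SpecHol.{v}) (hCells : SpecCells.{v})
    (hInr : SpecInr.{v}) : SpecEy.{v} := by
  classical
  intro M _ _ f u φ C a b κ r r₁ e ρ η ρ₁ A S hA hc
  have hC := S.C1
  have hC0 : 0 < C := by linarith
  have hη := hc.η_pos
  have hηe := hc.η_le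
  have he := S.e_pos
  have her := S.e_le_r
  have hρ := S.ρ_pos
  have hρ₁ := hc.ρ₁_pos
  have hρ₁' := hc.ρ₁_le'
  have hκ := S.κ_nonneg
  have hηe' : η ≤ e := by nlinarith
  obtain ⟨CP, hCP, hPL⟩ := hPl u S.u_pos
  obtain ⟨c₁, hc₁, hcell₁⟩ := hCells f u φ C a b κ r r₁ e ρ S η η hη (by linarith) hη
  obtain ⟨c₂, hc₂, hcell₂⟩ := hCells f u φ C a b κ r r₁ e ρ S (4 * C * η) (η / (4 * C))
    (by positivity) (by linarith) (by positivity)
  obtain ⟨CI, hCI, hinr⟩ := hInr f u φ C a b κ r r₁ e ρ η ρ₁ A S hA hc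
  set A₁ : ℝ := max 1 (C ^ 2 * c₁) with hA₁
  set A₂ : ℝ := max 1 (C ^ 2 * c₂) with hA₂
  set Cd : ℝ := max CI (C * (C * (4 * C * η))) with hCd
  have hA₁1 : 1 ≤ A₁ := le_max_left _ _
  have hA₂1 : 1 ≤ A₂ := le_max_left _ _
  have hCd0 : 0 < Cd := lt_of_lt_of_le hCI (le_max_left _ _)
  obtain ⟨l, hl⟩ := exists_ell (X := Cd * (4 * C * C) / η) hC
  refine ⟨C * (CP * A₁ ^ u * (((l : ℝ) + 1) * A₂ ^ u) ^ (u - 1) * Cd), by positivity, ?_⟩
  intro q i m N w hmN hi hw hdom s hs t ht z z' hz hz'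
  obtain ⟨h, hh⟩ := hHol f u φ C a b κ r r₁ e ρ η ρ₁ S hc q i m w hdom
  have hi' : i * (C * Real.exp (-(b * N)) * (2 * e)) ≤ η := by
    refine hi.trans ?_
    rw [div_le_iff₀ (by positivity)]
    nlinarith
  have hmN' : (m : ℝ) ≤ N := by exact_mod_cast hmN
  -- the points of the disc
  have hsc : ∀ x ∈ closedBall (0 : EuclideanSpace ℝ (Fin u)) 1,
      ρ₁ • x ∈ closedBall (0 : EuclideanSpace ℝ (Fin u)) ρ₁ := by
    intro x hx
    rw [mem_closedBall_zero_iff] at hx ⊢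
    rw [norm_smul, Real.norm_of_nonneg hρ₁.le]
    exact mul_le_of_le_one_right hρ₁.le hx
  have hscρ : ∀ x ∈ closedBall (0 : EuclideanSpace ℝ (Fin u)) 1,
      ρ₁ • x ∈ closedBall (0 : EuclideanSpace ℝ (Fin u)) ρ := fun x hx =>
    closedBall_subset_closedBall (by linarith) (hsc x hx)
  set P : EuclideanSpace ℝ (Fin u) → M := fun x => φ w (ρ₁ • x) with hP
  set X : EuclideanSpace ℝ (Fin u) → M := fun x => φ (q i) (h x) with hX
  have hPη : ∀ x ∈ closedBall (0 : EuclideanSpace ℝ (Fin u)) 1, P x ∈ Wl f.symm η w :=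
    fun x hx => hc.disc S w (hsc x hx)
  have hlad : ∀ x ∈ closedBall (0 : EuclideanSpace ℝ (Fin u)) 1,
      Lad f e q i (f.symm^[m] (P x)) (X x) := hh.lad
  have hXe : ∀ x ∈ closedBall (0 : EuclideanSpace ℝ (Fin u)) 1, X x ∈ Wl f.symm e (q i) :=
    fun x hx => (hlad x hx).last
  have hXX : ∀ x ∈ closedBall (0 : EuclideanSpace ℝ (Fin u)) 1,
      ∀ y ∈ closedBall (0 : EuclideanSpace ℝ (Fin u)) 1, X x ∈ Wl f.symm (2 * e) (X y) := by
    intro x hx y hy
    have := Wl_trans (Wl_comm (hXe y hy)) (hXe x hx)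
    rwa [← two_mul] at this
  have hhρ : ∀ x ∈ closedBall (0 : EuclideanSpace ℝ (Fin u)) 1,
      h x ∈ closedBall (0 : EuclideanSpace ℝ (Fin u)) ρ := fun x hx =>
    closedBall_subset_closedBall (by linarith) (hh.mem x hx)
  have hPlow : ∀ x ∈ closedBall (0 : EuclideanSpace ℝ (Fin u)) 1,
      ∀ y ∈ closedBall (0 : EuclideanSpace ℝ (Fin u)) 1, ρ₁ * dist x y ≤ C * dist (P x) (P y) := by
    intro x hx y hy
    have := S.lower w _ (hscρ x hx) _ (hscρ y hy)
    rwa [dist_smul₀, Real.norm_of_nonneg hρ₁.le] at this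
  have hPup : ∀ x ∈ closedBall (0 : EuclideanSpace ℝ (Fin u)) 1,
      ∀ y ∈ closedBall (0 : EuclideanSpace ℝ (Fin u)) 1, dist (P x) (P y) ≤ C * (ρ₁ * dist x y) := by
    intro x hx y hy
    have := S.upper w _ (hscρ x hx) _ (hscρ y hy)
    rwa [dist_smul₀, Real.norm_of_nonneg hρ₁.le] at this
  have hXlow : ∀ x ∈ closedBall (0 : EuclideanSpace ℝ (Fin u)) 1,
      ∀ y ∈ closedBall (0 : EuclideanSpace ℝ (Fin u)) 1, dist (h x) (h y) ≤ C * dist (X x) (X y) :=
    fun x hx y hy => S.lower (q i) _ (hhρ x hx) _ (hhρ y hy)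
  have hXup : ∀ x ∈ closedBall (0 : EuclideanSpace ℝ (Fin u)) 1,
      ∀ y ∈ closedBall (0 : EuclideanSpace ℝ (Fin u)) 1, dist (X x) (X y) ≤ C * dist (h x) (h y) :=
    fun x hx y hy => S.upper (q i) _ (hhρ x hx) _ (hhρ y hy)
  have hcl : ∀ x ∈ closedBall (0 : EuclideanSpace ℝ (Fin u)) 1,
      ∀ y ∈ closedBall (0 : EuclideanSpace ℝ (Fin u)) 1,
      (∀ k ≤ N - m, dist (f^[k] (P x)) (f^[k] (P y)) ≤ 2 * η) →
      ∀ k ≤ N, dist (f^[k] (X x)) (f^[k] (X y)) ≤ 4 * C * η :=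
    fun x hx y hy => img_close S hc hmN hi' (hPη x hx) (hPη y hy) (hlad x hx) (hlad y hy)
  have hse : ∀ x ∈ closedBall (0 : EuclideanSpace ℝ (Fin u)) 1,
      ∀ y ∈ closedBall (0 : EuclideanSpace ℝ (Fin u)) 1,
      (∃ k ≤ N - m, η < dist (f^[k] (P x)) (f^[k] (P y))) →
      ∃ k ≤ N, η / (4 * C) < dist (f^[k] (X x)) (f^[k] (X y)) :=
    fun x hx y hy => img_sep S hc hmN hi (hlad x hx) (hlad y hy)
  -- the cells
  obtain ⟨F, hF1, hF2, hF3⟩ := InrM.exists_max S (P '' closedBall 0 1) (N - m) hη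
  have hc_ex : ∀ j : Fin F.card, ∃ x ∈ closedBall (0 : EuclideanSpace ℝ (Fin u)) 1,
      P x = (F.equivFin.symm j : M) := fun j => hF1 _ (F.equivFin.symm j).2
  choose c hcb hcP using hc_ex
  have hcF : ∀ j, P (c j) ∈ F := fun j => by rw [hcP]; exact (F.equivFin.symm j).2
  have hcne : ∀ j k, j ≠ k → P (c j) ≠ P (c k) := by
    intro j k hjk heq
    rw [hcP, hcP] at heq
    exact hjk (F.equivFin.symm.injective (Subtype.ext heq))
  set Cl : Fin F.card → Set (EuclideanSpace ℝ (Fin u)) := fun j =>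
    {x | x ∈ closedBall 0 1 ∧ ∀ k ≤ N - m, dist (f^[k] (P x)) (f^[k] (P (c j))) ≤ η} with hCl
  have hcCl : ∀ j, c j ∈ Cl j := fun j => ⟨hcb j, fun k _ => by rw [dist_self]; exact hη.le⟩
  have hclj : ∀ j, ∀ x ∈ Cl j, ∀ y ∈ Cl j, ∀ k ≤ N,
      dist (f^[k] (X x)) (f^[k] (X y)) ≤ 4 * C * η := by
    intro j x hx y hy
    refine hcl x hx.1 y hy.1 fun k hk => ?_
    have h1 := hx.2 k hk
    have h2 := hy.2 k hk
    rw [dist_comm] at h2
    linarith [dist_triangle (f^[k] (P x)) (f^[k] (P (c j))) (f^[k] (P y))]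
  have hsep : ∀ j k, j ≠ k → ∃ n ≤ N - m, η < dist (f^[n] (P (c j))) (f^[n] (P (c k))) :=
    fun j k hjk => hF2 _ (hcF j) _ (hcF k) (hcne j k hjk)
  -- the constants
  set K : ℝ := A₁ * Real.exp (κ * (N - m)) with hK
  set K' : ℝ := A₂ * Real.exp (κ * N) with hK'
  set δ : ℝ := Cd * Real.exp (-(a * m)) with hδ
  have hK1 : 1 ≤ K := by
    have : 1 ≤ Real.exp (κ * (N - m)) := Real.one_le_exp (mul_nonneg hκ (by linarith))
    exact one_le_mul_of_one_le_of_one_le hA₁1 this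
  have hK'1 : 1 ≤ K' := by
    have : 1 ≤ Real.exp (κ * N) := Real.one_le_exp (by positivity)
    exact one_le_mul_of_one_le_of_one_le hA₂1 this
  have hδ0 : 0 < δ := by positivity
  -- packing of the source cells
  have hsrc : ∀ j, ∀ x ∈ Cl j, ∀ y ∈ Cl j, ∀ k, j ≠ k → dist x y ≤ K * dist (c j) (c k) := by
    intro j x hx y hy k hjk
    have hPP : ∀ x ∈ closedBall (0 : EuclideanSpace ℝ (Fin u)) 1,
        P x ∈ Wl f.symm (2 * e) (P (c j)) := fun x hx =>
      Wl_mono (by linarith) (Wl_trans (Wl_comm (hPη _ (hcb j))) (hPη x hx))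
    have h1 := hcell₁ (N - m) (P (c j)) (P (c k)) (P x) (P y) (hPP x hx.1) (hPP y hy.1)
      (hPP _ (hcb k)) hx.2 hy.2 (hsep j k hjk)
    have h2 := hPlow x hx.1 y hy.1
    have h3 := hPup _ (hcb j) _ (hcb k)
    rw [Nat.cast_sub hmN] at h1
    have h4 : ρ₁ * dist x y ≤ ρ₁ * (K * dist (c j) (c k)) := by
      calc ρ₁ * dist x y ≤ C * dist (P x) (P y) := h2
        _ ≤ C * (c₁ * Real.exp (κ * (N - m)) * dist (P (c j)) (P (c k))) := by gcongr
        _ ≤ C * (c₁ * Real.exp (κ * (N - m)) * (C * (ρ₁ * dist (c j) (c k)))) := by gcongr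
        _ = ρ₁ * (C ^ 2 * c₁ * Real.exp (κ * (N - m)) * dist (c j) (c k)) := by ring
        _ ≤ ρ₁ * (K * dist (c j) (c k)) := by
            have h5 : C ^ 2 * c₁ ≤ A₁ := le_max_right _ _
            rw [hK]
            gcongr
    exact le_of_mul_le_mul_left h4 hρ₁
  -- packing of the image cells
  have himg : ∀ j, ∀ x ∈ Cl j, ∀ y ∈ Cl j, ∀ k, j ≠ k →
      dist (h x) (h y) ≤ K' * dist (h (c j)) (h (c k)) := by
    intro j x hx y hy k hjk
    have h1 := hcell₂ N (X (c j)) (X (c k)) (X x) (X y) (hXX x hx.1 _ (hcb j))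
      (hXX y hy.1 _ (hcb j)) (hXX _ (hcb k) _ (hcb j)) (hclj j x hx _ (hcCl j))
      (hclj j y hy _ (hcCl j)) (hse _ (hcb j) _ (hcb k) (hsep j k hjk))
    calc dist (h x) (h y) ≤ C * dist (X x) (X y) := hXlow x hx.1 y hy.1
      _ ≤ C * (c₂ * Real.exp (κ * N) * dist (X (c j)) (X (c k))) := by gcongr
      _ ≤ C * (c₂ * Real.exp (κ * N) * (C * dist (h (c j)) (h (c k)))) := by
          gcongr
          exact hXup _ (hcb j) _ (hcb k)
      _ = C ^ 2 * c₂ * Real.exp (κ * N) * dist (h (c j)) (h (c k)) := by ring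
      _ ≤ K' * dist (h (c j)) (h (c k)) := by
          have h5 : C ^ 2 * c₂ ≤ A₂ := le_max_right _ _
          rw [hK']
          gcongr
  -- the image cells are small
  have hsm : ∀ j, ∀ x ∈ Cl j, ∀ y ∈ Cl j, dist (h x) (h y) ≤ δ := by
    intro j x hx y hy
    have h1 := img_small S hc (hXX x hx.1 y hy.1) (hclj j x hx y hy)
    have h2 : Real.exp (-(a * N)) ≤ Real.exp (-(a * m)) := by
      apply Real.exp_le_exp.2
      have := S.a_pos
      nlinarith
    calc dist (h x) (h y) ≤ C * dist (X x) (X y) := hXlow x hx.1 y hy.1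
      _ ≤ C * (C * (4 * C * η) * Real.exp (-(a * N))) := by gcongr
      _ ≤ C * (C * (4 * C * η) * Real.exp (-(a * m))) := by gcongr
      _ = C * (C * (4 * C * η)) * Real.exp (-(a * m)) := by ring
      _ ≤ δ := by
          rw [hδ]
          gcongr
          exact le_max_right _ _
  -- the centres are not too close
  have hcen : ∀ j k, j ≠ k → δ / 2 ^ (l * (N + 1)) ≤ dist (h (c j)) (h (c k)) := by
    intro j k hjk
    obtain ⟨n, hn, hn'⟩ := hse _ (hcb j) _ (hcb k) (hsep j k hjk)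
    have h1 := S.lip_iter (X (c j)) (X (c k)) n
    have h2 : C ^ n ≤ C ^ N := pow_le_pow_right₀ hC hn
    have h3 : η / (4 * C) ≤ C ^ N * (C * dist (h (c j)) (h (c k))) := by
      calc η / (4 * C) ≤ dist (f^[n] (X (c j))) (f^[n] (X (c k))) := hn'.le
        _ ≤ C ^ n * dist (X (c j)) (X (c k)) := h1
        _ ≤ C ^ N * (C * dist (h (c j)) (h (c k))) := by
            gcongr
            exact hXup _ (hcb j) _ (hcb k)
    have h4 := hl N
    have h5 : Real.exp (-(a * m)) ≤ 1 := Sys.exp_le_one S.a_pos m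
    have h6 : δ ≤ Cd := by
      calc δ = Cd * Real.exp (-(a * m)) := rfl
        _ ≤ Cd * 1 := by gcongr
        _ = Cd := mul_one _
    rw [div_le_iff₀ (by positivity)]
    rw [div_le_iff₀ (by positivity)] at h3
    have h7 : Cd * η ≤ (Cd * (4 * C * C) / η * C ^ N) * η * dist (h (c j)) (h (c k)) := by
      calc Cd * η ≤ Cd * (C ^ N * (C * dist (h (c j)) (h (c k))) * (4 * C)) := by gcongr
        _ = (Cd * (4 * C * C) / η * C ^ N) * η * dist (h (c j)) (h (c k)) := by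
            field_simp
    have h8 : Cd * η ≤ (2 ^ (l * (N + 1))) * η * dist (h (c j)) (h (c k)) := by
      refine h7.trans ?_
      gcongr
    have h9 : Cd ≤ dist (h (c j)) (h (c k)) * 2 ^ (l * (N + 1)) := by
      refine le_of_mul_le_mul_right ?_ hη
      linarith
    linarith
  -- the lemma
  have hbdd : ∀ j, Bornology.IsBounded (Cl j) := fun j =>
    isBounded_closedBall.subset fun x hx => hx.1
  have hbdd' : ∀ j, Bornology.IsBounded (h '' Cl j) := fun j => by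
    refine (isBounded_closedBall (x := (0 : EuclideanSpace ℝ (Fin u))) (r := ρ)).subset ?_
    rintro _ ⟨x, hx, rfl⟩
    exact hhρ x hx.1
  have hkey := hPL F.card Cl c (fun j => h (c j)) (fun j => diam (Cl j))
    (fun j => max (diam (h '' Cl j)) (δ / 2 ^ (l * (N + 1)))) h K K' δ (l * (N + 1)) hK1 hK'1 hδ0
    hh.cont hh.opn ?_ hcb ?_ ?_ ?_ ?_ ?_ ?_ ?_
  rotate_left
  · -- covering
    intro x hx
    obtain ⟨g, hg, hg'⟩ := hF3 (P x) ⟨x, hx, rfl⟩
    refine mem_iUnion.2 ⟨F.equivFin ⟨g, hg⟩, hx, fun k hk => ?_⟩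
    rw [hcP, Equiv.symm_apply_apply]
    exact hg' k hk
  · intro j
    refine ⟨diam_nonneg, diam_le_of_forall_dist_le (by norm_num) fun x hx y hy => ?_⟩
    have h1 := hx.1
    have h2 := hy.1
    rw [mem_closedBall] at h1 h2
    rw [dist_comm] at h2
    linarith [dist_triangle x 0 y]
  · exact fun j x hx y hy => dist_le_diam_of_mem (hbdd j) hx hy
  · intro j k hjk
    exact diam_le_of_forall_dist_le (by positivity) fun x hx y hy => hsrc j x hx y hy k hjk
  · intro j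
    have h1 : (0 : ℝ) < 2 ^ (l * (N + 1)) := by positivity
    refine ⟨max_le ?_ ?_, ?_⟩
    · refine diam_le_of_forall_dist_le hδ0.le ?_
      rintro _ ⟨x, hx, rfl⟩ _ ⟨y, hy, rfl⟩
      exact hsm j x hx y hy
    · exact div_le_self hδ0.le (one_le_pow₀ one_le_two)
    · calc δ = 2 ^ (l * (N + 1)) * (δ / 2 ^ (l * (N + 1))) := by field_simp
        _ ≤ _ := by
          gcongr
          exact le_max_right _ _
  · intro j x hx _
    exact (dist_le_diam_of_mem (hbdd' j) (mem_image_of_mem h hx)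
      (mem_image_of_mem h (hcCl j))).trans (le_max_left _ _)
  · intro j k hjk
    refine max_le ?_ ?_
    · refine diam_le_of_forall_dist_le (by positivity) ?_
      rintro _ ⟨x, hx, rfl⟩ _ ⟨y, hy, rfl⟩
      exact himg j x hx y hy k hjk
    · refine (hcen j k hjk).trans ?_
      exact le_mul_of_one_le_left dist_nonneg hK'1
  · intro p hp
    refine hinr q i m N w h hmN hi' hw hh p (Subset.trans (closedBall_subset_closedBall ?_) hp)
    rw [hδ]
    gcongr
    exact le_max_left _ _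
  -- conclusion
  have hhalf : ∀ s ∈ closedBall (0 : EuclideanSpace ℝ (Fin u)) (ρ₁ / 2),
      ρ₁⁻¹ • s ∈ closedBall (0 : EuclideanSpace ℝ (Fin u)) (1 / 2) := by
    intro s hs
    rw [mem_closedBall_zero_iff] at hs ⊢
    rw [norm_smul, norm_inv, Real.norm_of_nonneg hρ₁.le, inv_mul_le_iff₀ hρ₁]
    linarith
  have huniq : ∀ s ∈ closedBall (0 : EuclideanSpace ℝ (Fin u)) (ρ₁ / 2), ∀ z,
      Lad f e q i (f.symm^[m] (φ w s)) z → z = X (ρ₁⁻¹ • s) := by
    intro s hs z hz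
    have h1 := hlad (ρ₁⁻¹ • s) (closedBall_subset_closedBall (by norm_num) (hhalf s hs))
    have h2 : P (ρ₁⁻¹ • s) = φ w s := by
      simp only [hP]
      rw [smul_inv_smul₀ hρ₁.ne']
    rw [h2] at h1
    exact TrM.unique S q i _ _ _ (hz.mono (by linarith)) (h1.mono (by linarith))
  rw [huniq s hs z hz, huniq t ht z' hz']
  have h1 := hXup _ (closedBall_subset_closedBall (by norm_num) (hhalf s hs))
    _ (closedBall_subset_closedBall (by norm_num) (hhalf t ht))
  have h2 := hkey _ (hhalf s hs) _ (hhalf t ht)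
  have h3 : ((l * (N + 1) : ℕ) : ℝ) + 1 ≤ (l + 1) * (N + 1) := by
    push_cast
    have : (0 : ℝ) ≤ N := Nat.cast_nonneg N
    linarith
  refine h1.trans ?_
  have h4 : K ^ u = A₁ ^ u * Real.exp (u * κ * (N - m)) := by
    rw [hK, mul_pow, ← Real.exp_nat_mul]
    ring_nf
  have h5 : K' ^ u = A₂ ^ u * Real.exp (u * κ * N) := by
    rw [hK', mul_pow, ← Real.exp_nat_mul]
    ring_nf
  have h6 : Real.exp (u * κ * N) ^ (u - 1) = Real.exp (u * (u - 1 : ℕ) * κ * N) := by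
    rw [← Real.exp_nat_mul]
    ring_nf
  have h7 : Real.exp (u * κ * (N - m) + u * (u - 1 : ℕ) * κ * N - a * m) =
      Real.exp (u * κ * (N - m)) * Real.exp (u * (u - 1 : ℕ) * κ * N) * Real.exp (-(a * m)) := by
    rw [← Real.exp_add, ← Real.exp_add]
    ring_nf
  calc C * dist (h (ρ₁⁻¹ • s)) (h (ρ₁⁻¹ • t))
      ≤ C * (CP * K ^ u * (((l * (N + 1) : ℕ) + 1) * K' ^ u) ^ (u - 1) * δ) := by gcongr
    _ ≤ C * (CP * K ^ u * (((l + 1) * (N + 1)) * K' ^ u) ^ (u - 1) * δ) := by gcongr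
    _ = _ := by
        rw [h4, h5, h7, hδ]
        rw [show ((l : ℝ) + 1) * (N + 1) * (A₂ ^ u * Real.exp (u * κ * N)) =
          ((l + 1) * A₂ ^ u) * (N + 1) * Real.exp (u * κ * N) by ring]
        rw [mul_pow _ (Real.exp (u * κ * N)), mul_pow _ ((N : ℝ) + 1), h6]
        ring

end Pool.Agent.Lib.MP610fe3.T6
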