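import Pool.Agent.Lib.MP_610fe3_an.T6.SpecE

/-! # Module PACKS: packing of the source cells -/

set_option autoImplicit false

open Set Filter Function Metric MeasureTheory
open scoped Topology

namespace Pool.Agent.Lib.MP610fe3.T6

namespace PackSM

/-- Disjoint balls inside a ball. -/
theorem pack {u : ℕ} (hu : 1 ≤ u) {ι : Type} (S : Finset ι) (c : ι → EuclideanSpace ℝ (Fin u))
    (r : ι → ℝ) (e : EuclideanSpace ℝ (Fin u)) (R : ℝ) (hR : 0 ≤ R) (hr : ∀ i ∈ S, 0 ≤ r i)
    (hd : ∀ i ∈ S, ∀ j ∈ S, i ≠ j → r i + r j ≤ dist (c i) (c j))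
    (hin : ∀ i ∈ S, dist (c i) e + r i ≤ R) : ∑ i ∈ S, r i ^ u ≤ R ^ u := by
  have : Nonempty (Fin u) := ⟨⟨0, hu⟩⟩
  have : Nontrivial (EuclideanSpace ℝ (Fin u)) := by
    apply Module.nontrivial_of_finrank_pos (R := ℝ)
    rw [finrank_euclideanSpace_fin]
    omega
  set V : ENNReal := volume (ball (0 : EuclideanSpace ℝ (Fin u)) 1) with hV
  have hV0 : V ≠ 0 := (measure_ball_pos volume _ one_pos).ne'
  have hVt : V ≠ ⊤ := measure_ball_lt_top.ne
  have hvol : ∀ (x : EuclideanSpace ℝ (Fin u)) {t : ℝ}, 0 ≤ t →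
      volume (ball x t) = ENNReal.ofReal (t ^ u) * V := by
    intro x t ht
    rw [Measure.addHaar_ball volume x ht, finrank_euclideanSpace_fin]
  have h1 : volume (⋃ i ∈ S, ball (c i) (r i)) = ∑ i ∈ S, volume (ball (c i) (r i)) := by
    apply measure_biUnion_finset
    · intro i hi j hj hij
      exact ball_disjoint_ball (hd i hi j hj hij)
    · intro i _
      exact measurableSet_ball
  have h2 : volume (⋃ i ∈ S, ball (c i) (r i)) ≤ volume (ball e R) := by
    apply measure_mono
    intro x hx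
    simp only [mem_iUnion, exists_prop] at hx
    obtain ⟨i, hi, hx⟩ := hx
    rw [mem_ball] at hx ⊢
    have := hin i hi
    linarith [dist_triangle x (c i) e]
  rw [h1, hvol e hR, Finset.sum_congr rfl fun i hi => hvol (c i) (hr i hi), ← Finset.sum_mul,
    ENNReal.mul_le_mul_iff_left hV0 hVt,
    ← ENNReal.ofReal_sum_of_nonneg fun i hi => pow_nonneg (hr i hi) u] at h2
  exact (ENNReal.ofReal_le_ofReal_iff (pow_nonneg hR u)).1 h2

end PackSM

theorem specPackS : SpecPackS := by
  intro u hu
  refine ⟨4 ^ u, by positivity, fun n c D K hK hc hD hsep => ?_⟩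
  have hK0 : 0 < K := by linarith
  have h := PackSM.pack hu (Finset.univ : Finset (Fin n)) c (fun i => D i / (2 * K)) 0 2 (by norm_num)
    (fun i _ => div_nonneg (hD i).1 (by positivity)) (fun i _ j _ hij => by
      have h1 := hsep i j hij
      have h2 := hsep j i hij.symm
      rw [dist_comm] at h2
      rw [← add_div, div_le_iff₀ (by positivity)]
      linarith) (fun i _ => by
      have h1 : D i / (2 * K) ≤ 1 := by
        rw [div_le_one (by positivity)]
        linarith [(hD i).2]
      have h2 := hc i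
      rw [mem_closedBall] at h2
      linarith)
  simp only [div_pow] at h
  rw [← Finset.sum_div, div_le_iff₀ (by positivity)] at h
  calc ∑ i, D i ^ u ≤ 2 ^ u * (2 * K) ^ u := h
    _ = 4 ^ u * K ^ u := by rw [← mul_pow, ← mul_pow]; ring_nf

end Pool.Agent.Lib.MP610fe3.T6
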