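import Pool.Agent.Lib.MP_610fe3_an.T6.PackS

/-! # Module PACKT: packing of the target cells, in dyadic shells -/

set_option autoImplicit false

open Set Filter Function Metric MeasureTheory
open scoped Topology

namespace Pool.Agent.Lib.MP610fe3.T6

namespace PackTM

/-- one shell -/
theorem shell {u : ℕ} (hu : 1 ≤ u) {ι : Type} (S : Finset ι) (c : ι → EuclideanSpace ℝ (Fin u))
    (D' : ι → ℝ) (e : EuclideanSpace ℝ (Fin u)) (K R : ℝ) (hK : 1 ≤ K) (hR : 0 < R)
    (hD : ∀ i ∈ S, 0 ≤ D' i)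
    (hsep : ∀ i ∈ S, ∀ j ∈ S, i ≠ j → D' i ≤ K * dist (c i) (c j))
    (hlo : ∀ i ∈ S, R / 2 < max (dist (c i) e) (D' i))
    (hhi : ∀ i ∈ S, max (dist (c i) e) (D' i) ≤ R) :
    ∑ i ∈ S, (D' i / max (dist (c i) e) (D' i)) ^ u ≤ (6 * K) ^ u := by
  have hK0 : 0 < K := by linarith
  have h := PackSM.pack hu S c (fun i => D' i / (2 * K)) e (3 / 2 * R) (by positivity)
    (fun i hi => div_nonneg (hD i hi) (by positivity)) (fun i hi j hj hij => by
      have h1 := hsep i hi j hj hij
      have h2 := hsep j hj i hi hij.symm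
      rw [dist_comm] at h2
      rw [← add_div, div_le_iff₀ (by positivity)]
      linarith) (fun i hi => by
      have h1 := hhi i hi
      have h2 : D' i / (2 * K) ≤ R / 2 := by
        rw [div_le_iff₀ (by positivity)]
        have h3 : D' i ≤ R := (le_max_right _ _).trans h1
        nlinarith
      have h4 : dist (c i) e ≤ R := (le_max_left _ _).trans h1
      linarith)
  simp only [div_pow] at h
  rw [← Finset.sum_div, div_le_iff₀ (by positivity), ← mul_pow] at h
  have h5 : ∀ i ∈ S, (D' i / max (dist (c i) e) (D' i)) ^ u ≤ D' i ^ u * (2 / R) ^ u := by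
    intro i hi
    rw [← mul_pow]
    have h0 : 0 < max (dist (c i) e) (D' i) := lt_trans (by positivity) (hlo i hi)
    apply pow_le_pow_left₀ (div_nonneg (hD i hi) h0.le)
    rw [div_le_iff₀ h0]
    have h6 : 1 ≤ 2 / R * max (dist (c i) e) (D' i) := by
      rw [div_mul_eq_mul_div, one_le_div hR]
      linarith [hlo i hi]
    calc D' i = D' i * 1 := (mul_one _).symm
      _ ≤ D' i * (2 / R * max (dist (c i) e) (D' i)) := mul_le_mul_of_nonneg_left h6 (hD i hi)
      _ = D' i * (2 / R) * max (dist (c i) e) (D' i) := by ring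
  calc ∑ i ∈ S, (D' i / max (dist (c i) e) (D' i)) ^ u
      ≤ ∑ i ∈ S, D' i ^ u * (2 / R) ^ u := Finset.sum_le_sum h5
    _ = (∑ i ∈ S, D' i ^ u) * (2 / R) ^ u := by rw [Finset.sum_mul]
    _ ≤ (3 / 2 * R * (2 * K)) ^ u * (2 / R) ^ u := mul_le_mul_of_nonneg_right h (by positivity)
    _ = (6 * K) ^ u := by
      rw [← mul_pow]
      congr 1
      field_simp
      ring

end PackTM

open scoped Classical in
theorem specPackT : SpecPackT := by
  intro u hu
  refine ⟨2 * 6 ^ u, by positivity, fun n c D' e K δ L hK hδ hD hsep => ?_⟩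
  have hK0 : 0 < K := by linarith
  have hD0 : ∀ i, 0 < D' i := by
    intro i
    have h1 := (hD i).2
    by_contra h
    push Not at h
    have h2 : (2 : ℝ) ^ L * D' i ≤ 0 := mul_nonpos_of_nonneg_of_nonpos (by positivity) h
    linarith
  set R : Fin n → ℝ := fun i => max (dist (c i) e) (D' i) with hRdef
  set f : Fin n → ℝ := fun i => (D' i / R i) ^ u with hf
  have hR0 : ∀ i, 0 < R i := fun i => lt_of_lt_of_le (hD0 i) (le_max_right _ _)
  have hf0 : ∀ i, 0 ≤ f i := fun i => by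
    have := hR0 i
    have := hD0 i
    positivity
  have hex : ∀ i, dist (c i) e ≤ 3 * δ → ∃ l < L + 2, 3 * δ * (1 / 2) ^ l / 2 < R i ∧
      R i ≤ 3 * δ * (1 / 2) ^ l := by
    intro i hi
    have hle : R i ≤ 3 * δ := max_le hi (by linarith [(hD i).1])
    obtain ⟨l, h1, h2⟩ := exists_nat_pow_near_of_lt_one (x := R i / (3 * δ)) (y := 1 / 2)
      (div_pos (hR0 i) (by positivity)) ((div_le_one (by positivity)).2 hle) (by norm_num)
      (by norm_num)
    rw [lt_div_iff₀ (by positivity)] at h1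
    rw [div_le_iff₀ (by positivity)] at h2
    refine ⟨l, ?_, ?_, by linarith⟩
    · by_contra hl
      push Not at hl
      have h3 : ((1 : ℝ) / 2) ^ l ≤ (1 / 2) ^ (L + 2) :=
        pow_le_pow_of_le_one (by norm_num) (by norm_num) hl
      have h4 : D' i ≤ R i := le_max_right _ _
      have h5 := (hD i).2
      have h6 : ((1 : ℝ) / 2) ^ (L + 2) * 2 ^ L = 1 / 4 := by
        rw [pow_add, mul_right_comm, ← mul_pow]
        norm_num
      have h7 : R i ≤ (1 / 2) ^ (L + 2) * (3 * δ) :=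
        h2.trans (mul_le_mul_of_nonneg_right h3 (by positivity))
      have h8 : (2 : ℝ) ^ L * D' i ≤ 2 ^ L * ((1 / 2) ^ (L + 2) * (3 * δ)) :=
        mul_le_mul_of_nonneg_left (h4.trans h7) (by positivity)
      have h9 : (2 : ℝ) ^ L * ((1 / 2) ^ (L + 2) * (3 * δ)) = 3 / 4 * δ := by
        calc (2 : ℝ) ^ L * ((1 / 2) ^ (L + 2) * (3 * δ)) =
            ((1 / 2) ^ (L + 2) * 2 ^ L) * (3 * δ) := by ring
          _ = 3 / 4 * δ := by rw [h6]; ring
      linarith
    · rw [pow_succ] at h1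
      linarith
  have hbound : ∀ i, (if dist (c i) e ≤ 3 * δ then f i else 0) ≤
      ∑ l ∈ Finset.range (L + 2), (if 3 * δ * (1 / 2) ^ l / 2 < R i ∧
        R i ≤ 3 * δ * (1 / 2) ^ l then f i else 0) := by
    intro i
    split_ifs with hi
    · obtain ⟨l, hl, h1⟩ := hex i hi
      calc f i = (if 3 * δ * (1 / 2) ^ l / 2 < R i ∧
            R i ≤ 3 * δ * (1 / 2) ^ l then f i else 0) := by rw [if_pos h1]
        _ ≤ _ := Finset.single_le_sum (f := fun l => if 3 * δ * (1 / 2) ^ l / 2 < R i ∧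
            R i ≤ 3 * δ * (1 / 2) ^ l then f i else 0) (fun l _ => by
              split_ifs
              · exact hf0 i
              · exact le_rfl) (Finset.mem_range.2 hl)
    · exact Finset.sum_nonneg fun l _ => by
        split_ifs
        · exact hf0 i
        · exact le_rfl
  have hshell : ∀ l : ℕ, ∑ i, (if 3 * δ * (1 / 2) ^ l / 2 < R i ∧
      R i ≤ 3 * δ * (1 / 2) ^ l then f i else 0) ≤ (6 * K) ^ u := by
    intro l
    rw [← Finset.sum_filter]
    exact PackTM.shell hu _ c D' e K (3 * δ * (1 / 2) ^ l) hK (by positivity)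
      (fun i _ => (hD0 i).le) (fun i _ j _ hij => hsep i j hij)
      (fun i hi => (Finset.mem_filter.1 hi).2.1) (fun i hi => (Finset.mem_filter.1 hi).2.2)
  calc (∑ i, if dist (c i) e ≤ 3 * δ then (D' i / max (dist (c i) e) (D' i)) ^ u else 0)
      ≤ ∑ i, ∑ l ∈ Finset.range (L + 2), (if 3 * δ * (1 / 2) ^ l / 2 < R i ∧
        R i ≤ 3 * δ * (1 / 2) ^ l then f i else 0) := Finset.sum_le_sum fun i _ => hbound i
    _ = ∑ l ∈ Finset.range (L + 2), ∑ i, (if 3 * δ * (1 / 2) ^ l / 2 < R i ∧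
        R i ≤ 3 * δ * (1 / 2) ^ l then f i else 0) := Finset.sum_comm
    _ ≤ ∑ l ∈ Finset.range (L + 2), (6 * K) ^ u := Finset.sum_le_sum fun l _ => hshell l
    _ = (L + 2) * (6 * K) ^ u := by
      rw [Finset.sum_const, Finset.card_range, nsmul_eq_mul]
      push_cast
      ring
    _ ≤ 2 * 6 ^ u * ((L + 1) * K ^ u) := by
      rw [mul_pow]
      have h1 : (0 : ℝ) ≤ 6 ^ u * K ^ u := by positivity
      have h2 : ((L : ℝ) + 2) ≤ 2 * (L + 1) := by
        have : (0 : ℝ) ≤ L := Nat.cast_nonneg L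
        linarith
      calc ((L : ℝ) + 2) * (6 ^ u * K ^ u) ≤ 2 * (L + 1) * (6 ^ u * K ^ u) :=
            mul_le_mul_of_nonneg_right h2 h1
        _ = 2 * 6 ^ u * ((L + 1) * K ^ u) := by ring

end Pool.Agent.Lib.MP610fe3.T6
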