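import Pool.Agent.Lib.MP_610fe3_an.T6.SpecE

/-!
# Module PATH
-/

open Set Filter Function Metric MeasureTheory
open scoped Topology ENNReal

namespace Pool.Agent.Lib.MP610fe3.T6

open scoped Classical in
/-- Module PATH. -/
theorem specPath (hCone : SpecCone) : SpecPath := by
  intro u hu
  obtain ⟨C, hC, hT⟩ := hCone u hu
  set V : ℝ := (volume (closedBall (0 : EuclideanSpace ℝ (Fin u)) 1)).toReal with hV
  have hV0 : 0 < V :=
    ENNReal.toReal_pos (measure_closedBall_pos _ _ one_pos).ne' measure_closedBall_lt_top.ne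
  refine ⟨C / V, by positivity, ?_⟩
  intro n c D D' p e₁ e₂ δ hδ hD hD' he₁ he₂
  choose T hTm hTz hTv using fun (e : EuclideanSpace ℝ (Fin u)) (he : e ∈ closedBall p δ)
    (i : Fin n) => hT e (c i) p (D' i) δ (hD' i).1 (hD' i).2 he
  set T₁ : Fin n → Set (EuclideanSpace ℝ (Fin u)) := T e₁ he₁ with hT₁
  set T₂ : Fin n → Set (EuclideanSpace ℝ (Fin u)) := T e₂ he₂ with hT₂
  set F : Finset (Fin n) := Finset.univ.filter (fun i => dist (c i) p ≤ 2 * δ) with hF
  set q : EuclideanSpace ℝ (Fin u) → Fin n → ℝ :=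
    fun e i => (D' i / max (dist (c i) e) (D' i)) ^ (u - 1) with hq
  have hq0 : ∀ e i, 0 ≤ q e i := by
    intro e i
    have h1 : 0 < max (dist (c i) e) (D' i) := lt_max_of_lt_right (hD' i).1
    have h2 := (hD' i).1
    rw [hq]
    simp only
    positivity
  set S : ℝ := ∑ i ∈ F, D i * (q e₁ i + q e₂ i) with hS
  have hS0 : 0 ≤ S :=
    Finset.sum_nonneg (fun i _ => mul_nonneg (hD i) (add_nonneg (hq0 _ _) (hq0 _ _)))
  -- the function to be averaged
  set g : EuclideanSpace ℝ (Fin u) → ℝ≥0∞ := fun z => ∑ i ∈ F, ENNReal.ofReal (D i) *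
    ((T₁ i).indicator (fun _ => (1 : ℝ≥0∞)) z + (T₂ i).indicator (fun _ => (1 : ℝ≥0∞)) z) with hg
  have hmi : ∀ i, Measurable (fun z => (T₁ i).indicator (fun _ => (1 : ℝ≥0∞)) z +
      (T₂ i).indicator (fun _ => (1 : ℝ≥0∞)) z) := fun i =>
    ((measurable_const.indicator (hTm e₁ he₁ i)).add (measurable_const.indicator (hTm e₂ he₂ i)))
  have hgm : Measurable g := by
    rw [hg]
    exact Finset.measurable_fun_sum _ (fun i _ => (hmi i).const_mul _)
  have hvolB : volume (closedBall p δ) = ENNReal.ofReal (δ ^ u * V) := by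
    have h := Measure.addHaar_closedBall' (volume : Measure (EuclideanSpace ℝ (Fin u))) p hδ.le
    rw [finrank_euclideanSpace_fin] at h
    rw [h, ENNReal.ofReal_mul (by positivity), hV,
      ENNReal.ofReal_toReal measure_closedBall_lt_top.ne]
  have hvol0 : volume (closedBall p δ) ≠ 0 := (measure_closedBall_pos _ _ hδ).ne'
  have hvol1 : volume (closedBall p δ) ≠ ∞ := measure_closedBall_lt_top.ne
  have hint : ∫⁻ z in closedBall p δ, g z ∂volume ≤ ENNReal.ofReal (C * δ ^ u * S) := by
    calc ∫⁻ z in closedBall p δ, g z ∂volume ≤ ∫⁻ z, g z ∂volume := setLIntegral_le_lintegral _ _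
      _ = ∑ i ∈ F, ∫⁻ z, ENNReal.ofReal (D i) * ((T₁ i).indicator (fun _ => (1 : ℝ≥0∞)) z +
            (T₂ i).indicator (fun _ => (1 : ℝ≥0∞)) z) ∂volume := by
          rw [hg]
          exact lintegral_finsetSum _ (fun i _ => (hmi i).const_mul _)
      _ = ∑ i ∈ F, ENNReal.ofReal (D i) * (volume (T₁ i) + volume (T₂ i)) := by
          apply Finset.sum_congr rfl
          intro i _
          rw [lintegral_const_mul _ (hmi i),
            lintegral_add_left (measurable_const.indicator (hTm e₁ he₁ i)),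
            lintegral_indicator_const (hTm e₁ he₁ i), lintegral_indicator_const (hTm e₂ he₂ i),
            one_mul, one_mul]
      _ ≤ ∑ i ∈ F, ENNReal.ofReal (C * δ ^ u * (D i * (q e₁ i + q e₂ i))) := by
          apply Finset.sum_le_sum
          intro i _
          have h1 : volume (T₁ i) ≤ ENNReal.ofReal (C * δ ^ u * q e₁ i) := hTv e₁ he₁ i
          have h2 : volume (T₂ i) ≤ ENNReal.ofReal (C * δ ^ u * q e₂ i) := hTv e₂ he₂ i
          calc ENNReal.ofReal (D i) * (volume (T₁ i) + volume (T₂ i))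
              ≤ ENNReal.ofReal (D i) * (ENNReal.ofReal (C * δ ^ u * q e₁ i) +
                ENNReal.ofReal (C * δ ^ u * q e₂ i)) := by gcongr
            _ = ENNReal.ofReal (C * δ ^ u * (D i * (q e₁ i + q e₂ i))) := by
                rw [← ENNReal.ofReal_add (mul_nonneg (by positivity) (hq0 _ _))
                  (mul_nonneg (by positivity) (hq0 _ _)), ← ENNReal.ofReal_mul (hD i)]
                congr 1
                ring
      _ = ENNReal.ofReal (C * δ ^ u * S) := by
          rw [← ENNReal.ofReal_sum_of_nonneg, ← Finset.mul_sum]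
          intro i _
          exact mul_nonneg (by positivity)
            (mul_nonneg (hD i) (add_nonneg (hq0 _ _) (hq0 _ _)))
  obtain ⟨z, hz, hgz⟩ := exists_le_setLAverage (μ := volume) hvol0 hvol1 hgm.aemeasurable.restrict
  refine ⟨z, hz, ?_⟩
  have hgz2 : g z ≤ ENNReal.ofReal (C / V * S) := by
    refine hgz.trans ?_
    rw [setLAverage_eq, hvolB]
    rw [ENNReal.div_le_iff (by
      rw [← hvolB]; exact hvol0) ENNReal.ofReal_ne_top]
    refine hint.trans (le_of_eq ?_)
    rw [← ENNReal.ofReal_mul (by positivity)]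
    congr 1
    field_simp
  have hsumF : (∑ i, if dist (c i) p ≤ 2 * δ then
        D i * ((D' i / max (dist (c i) e₁) (D' i)) ^ (u - 1) +
          (D' i / max (dist (c i) e₂) (D' i)) ^ (u - 1)) else 0) = S := by
    rw [hS, hF, Finset.sum_filter]
  rw [hsumF, ← ENNReal.ofReal_le_ofReal_iff (by positivity)]
  refine le_trans ?_ hgz2
  rw [← Finset.sum_filter, ENNReal.ofReal_sum_of_nonneg (fun i _ => hD i), hg]
  simp only
  have hseg : ∀ e ∈ closedBall p δ, ∀ x ∈ segment ℝ e z, x ∈ closedBall p δ := fun e he x hx =>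
    (convex_closedBall p δ).segment_subset he hz hx
  have hmem : ∀ i, (∃ x ∈ segment ℝ e₁ z ∪ segment ℝ z e₂, dist x (c i) ≤ D' i) →
      i ∈ F ∧ (z ∈ T₁ i ∨ z ∈ T₂ i) := by
    rintro i ⟨x, hx, hxi⟩
    have hclose : x ∈ closedBall p δ → i ∈ F := by
      intro hxp
      rw [hF]
      refine Finset.mem_filter.2 ⟨Finset.mem_univ _, ?_⟩
      have h1 := dist_triangle_left (c i) p x
      have h2 := mem_closedBall.1 hxp
      have h3 := (hD' i).2
      linarith
    rcases hx with hx | hx
    · exact ⟨hclose (hseg e₁ he₁ x hx), Or.inl (hTz e₁ he₁ i z hz x hx hxi)⟩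
    · rw [segment_symm] at hx
      exact ⟨hclose (hseg e₂ he₂ x hx), Or.inr (hTz e₂ he₂ i z hz x hx hxi)⟩
  refine le_trans (Finset.sum_le_sum (g := fun i => ENNReal.ofReal (D i) *
    ((T₁ i).indicator (fun _ => (1 : ℝ≥0∞)) z + (T₂ i).indicator (fun _ => (1 : ℝ≥0∞)) z)) ?_)
    (Finset.sum_le_sum_of_subset ?_)
  · intro i hi
    have h1 := (hmem i (Finset.mem_filter.1 hi).2).2
    have h2 : (1 : ℝ≥0∞) ≤ (T₁ i).indicator (fun _ => (1 : ℝ≥0∞)) z +
        (T₂ i).indicator (fun _ => (1 : ℝ≥0∞)) z := by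
      rcases h1 with h1 | h1
      · rw [indicator_of_mem h1]; exact le_self_add
      · rw [indicator_of_mem h1]; exact le_add_self
    calc ENNReal.ofReal (D i) = ENNReal.ofReal (D i) * 1 := (mul_one _).symm
      _ ≤ _ := by gcongr
  · intro i hi
    exact (hmem i (Finset.mem_filter.1 hi).2).1

end Pool.Agent.Lib.MP610fe3.T6
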