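import Pool.Agent.Lib.MP_610fe3_an.T6.SpecE

/-!
# Module PL: the image of the small ball

From PATH, PACKS, PACKT and CUT. The points `p_j` are chosen at the distances `5 δ j` from the
image of a given point, so no maximal separated set is needed.
-/

open Set Filter Function Metric MeasureTheory
open scoped Topology

namespace Pool.Agent.Lib.MP610fe3.T6

universe v

namespace PlM

/-- `x y^{u-1} ≤ t^{u-1} x^u + y^u / t`. -/
theorem young {x y t : ℝ} (hx : 0 ≤ x) (hy : 0 ≤ y) (ht : 0 < t) {u : ℕ} (hu : 1 ≤ u) :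
    x * y ^ (u - 1) ≤ t ^ (u - 1) * x ^ u + y ^ u / t := by
  obtain ⟨m, rfl⟩ : ∃ m, u = m + 1 := ⟨u - 1, by omega⟩
  simp only [Nat.add_sub_cancel]
  rcases le_total y (t * x) with h | h
  · have h1 : y ^ m ≤ (t * x) ^ m := pow_le_pow_left₀ hy h m
    have h2 : x * y ^ m ≤ x * (t * x) ^ m := mul_le_mul_of_nonneg_left h1 hx
    have h3 : x * (t * x) ^ m = t ^ m * x ^ (m + 1) := by rw [mul_pow]; ring
    have h4 : 0 ≤ y ^ (m + 1) / t := by positivity
    linarith
  · have h1 : x ≤ y / t := by rw [le_div_iff₀ ht]; linarith [mul_comm t x]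
    have h2 : x * y ^ m ≤ y / t * y ^ m := mul_le_mul_of_nonneg_right h1 (pow_nonneg hy m)
    have h3 : y / t * y ^ m = y ^ (m + 1) / t := by ring
    have h4 : 0 ≤ t ^ m * x ^ (m + 1) := by positivity
    linarith

end PlM

open PlM in
theorem specPl (hpath : SpecPath) (hps : SpecPackS) (hpt : SpecPackT) (hcut : SpecCut) :
    SpecPl := by
  classical
  intro u hu
  obtain ⟨Cp, hCp, path⟩ := hpath u hu
  obtain ⟨Cs, hCs, packs⟩ := hps u hu
  obtain ⟨Ct, hCt, packt⟩ := hpt u hu
  refine ⟨40 * Cp * (8 * Cp * Ct) ^ (u - 1) * Cs, by positivity, ?_⟩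
  intro n Cl c c' D D' h K K' δ L hK hK' hδ hcont hopn hcov hc hD hdiam hsep hD' himg hsep' hno
    s₀ hs₀ t₀ ht₀
  have hD'pos : ∀ i, 0 < D' i := fun i => by
    have h1 := (hD' i).2
    have h2 : (0 : ℝ) < 2 ^ L := by positivity
    by_contra h3
    push Not at h3
    nlinarith
  set Wd : ℝ := (L + 1) * K' ^ u with hWd
  have hWdpos : 0 < Wd := by positivity
  set t : ℝ := 8 * Cp * Ct * Wd with ht
  have htpos : 0 < t := by positivity
  -- one point
  have one : ∀ s ∈ closedBall (0 : EuclideanSpace ℝ (Fin u)) (1 / 2),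
      1 ≤ 8 * Cp * t ^ (u - 1) *
        ∑ i, if dist (c' i) (h s) ≤ 2 * δ then D i ^ u else 0 := by
    intro s hs
    obtain ⟨e₂, he₂, he₂'⟩ := Set.not_subset.1 (hno (h s))
    obtain ⟨z, hz, hsum⟩ := path n c' D D' (h s) (h s) e₂ δ hδ (fun i => (hD i).1)
      (fun i => ⟨hD'pos i, (hD' i).1⟩) (mem_closedBall_self hδ.le) he₂
    set P := segment ℝ (h s) z ∪ segment ℝ z e₂ with hP
    have hPc : IsPreconnected P :=
      IsPreconnected.union z (right_mem_segment ℝ _ _) (left_mem_segment ℝ _ _)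
        (convex_segment _ _).isPreconnected (convex_segment _ _).isPreconnected
    have hc1 := hcut u n Cl D h P hcont hopn hcov hdiam hPc
      ⟨s, hs, Or.inl (left_mem_segment ℝ _ _)⟩ ⟨e₂, Or.inr (right_mem_segment ℝ _ _), he₂'⟩
    have hc2 : (∑ i, if (∃ s ∈ Cl i, s ∈ closedBall 0 1 ∧ h s ∈ P) then D i else 0) ≤
        ∑ i, if (∃ x ∈ P, dist x (c' i) ≤ D' i) then D i else 0 := by
      apply Finset.sum_le_sum
      intro i _
      split_ifs with h1 h2 h2
      · exact le_refl _
      · obtain ⟨s', hs'1, hs'2, hs'3⟩ := h1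
        exact absurd ⟨h s', hs'3, himg i s' hs'1 hs'2⟩ h2
      · exact (hD i).1
      · exact le_refl _
    have hc3 : (∑ i, if dist (c' i) (h s) ≤ 2 * δ then
        D i * ((D' i / max (dist (c' i) (h s)) (D' i)) ^ (u - 1) +
          (D' i / max (dist (c' i) e₂) (D' i)) ^ (u - 1)) else 0) ≤
        2 * t ^ (u - 1) * (∑ i, if dist (c' i) (h s) ≤ 2 * δ then D i ^ u else 0) +
        ((∑ i, if dist (c' i) (h s) ≤ 3 * δ then
            (D' i / max (dist (c' i) (h s)) (D' i)) ^ u else 0) +
          ∑ i, if dist (c' i) e₂ ≤ 3 * δ then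
            (D' i / max (dist (c' i) e₂) (D' i)) ^ u else 0) / t := by
      rw [Finset.mul_sum, ← Finset.sum_add_distrib, Finset.sum_div, ← Finset.sum_add_distrib]
      apply Finset.sum_le_sum
      intro i _
      have hA : 0 ≤ D' i / max (dist (c' i) (h s)) (D' i) :=
        div_nonneg (hD'pos i).le (le_trans (hD'pos i).le (le_max_right _ _))
      have hB : 0 ≤ D' i / max (dist (c' i) e₂) (D' i) :=
        div_nonneg (hD'pos i).le (le_trans (hD'pos i).le (le_max_right _ _))
      by_cases h1 : dist (c' i) (h s) ≤ 2 * δ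
      · have h2 : dist (c' i) (h s) ≤ 3 * δ := by linarith
        have h3 : dist (c' i) e₂ ≤ 3 * δ := by
          have := dist_triangle (c' i) (h s) e₂
          have h4 : dist (h s) e₂ ≤ δ := by rw [dist_comm]; exact he₂
          linarith
        rw [if_pos h1, if_pos h1, if_pos h2, if_pos h3]
        have y1 := young (hD i).1 hA htpos hu
        have y2 := young (hD i).1 hB htpos hu
        rw [add_div]
        linarith
      · rw [if_neg h1, if_neg h1]
        have h2 : 0 ≤ ((if dist (c' i) (h s) ≤ 3 * δ then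
            (D' i / max (dist (c' i) (h s)) (D' i)) ^ u else 0) +
          if dist (c' i) e₂ ≤ 3 * δ then
            (D' i / max (dist (c' i) e₂) (D' i)) ^ u else 0) / t := by
          apply div_nonneg _ htpos.le
          apply add_nonneg
          · split_ifs
            · positivity
            · exact le_refl _
          · split_ifs
            · positivity
            · exact le_refl _
        linarith
    have hw1 := packt n c' D' (h s) K' δ L hK' hδ hD' hsep'
    have hw2 := packt n c' D' e₂ K' δ L hK' hδ hD' hsep'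
    set S := ∑ i, if dist (c' i) (h s) ≤ 2 * δ then D i ^ u else 0 with hS
    have hc4 : 1 / 2 ≤ Cp * (2 * t ^ (u - 1) * S + (Ct * Wd + Ct * Wd) / t) := by
      refine hc1.trans (hc2.trans (hsum.trans ?_))
      apply mul_le_mul_of_nonneg_left _ hCp.le
      refine hc3.trans ?_
      have : ((∑ i, if dist (c' i) (h s) ≤ 3 * δ then
            (D' i / max (dist (c' i) (h s)) (D' i)) ^ u else 0) +
          ∑ i, if dist (c' i) e₂ ≤ 3 * δ then
            (D' i / max (dist (c' i) e₂) (D' i)) ^ u else 0) / t ≤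
          (Ct * Wd + Ct * Wd) / t := by
        apply div_le_div_of_nonneg_right _ htpos.le
        exact add_le_add hw1 hw2
      linarith
    have hc5 : Cp * ((Ct * Wd + Ct * Wd) / t) = 1 / 4 := by
      rw [ht]
      field_simp
      ring
    have hc6 : Cp * (2 * t ^ (u - 1) * S + (Ct * Wd + Ct * Wd) / t) =
        2 * Cp * t ^ (u - 1) * S + 1 / 4 := by
      rw [mul_add, hc5]; ring
    rw [hc6] at hc4
    nlinarith
  -- the points at the distances 5 δ j
  set R := dist (h s₀) (h t₀) with hR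
  have hRnn : 0 ≤ R := dist_nonneg
  set J : ℕ := ⌊R / (5 * δ)⌋₊ + 1 with hJ
  have hRJ : R ≤ 5 * δ * J := by
    have h1 : R / (5 * δ) < J := by rw [hJ]; push_cast; exact Nat.lt_floor_add_one _
    rw [div_lt_iff₀ (by positivity)] at h1
    linarith
  have hex : ∀ j : Fin J, ∃ s ∈ closedBall (0 : EuclideanSpace ℝ (Fin u)) (1 / 2),
      dist (h s) (h s₀) = 5 * δ * j := by
    intro j
    have hpre : IsPreconnected (closedBall (0 : EuclideanSpace ℝ (Fin u)) (1 / 2)) :=
      (convex_closedBall _ _).isPreconnected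
    have hcs : ContinuousOn (fun s => dist (h s) (h s₀))
        (closedBall (0 : EuclideanSpace ℝ (Fin u)) (1 / 2)) :=
      fun s hs => Filter.Tendsto.dist
        ((ContinuousOn.mono hcont (closedBall_subset_closedBall (by norm_num))) s hs)
        tendsto_const_nhds
    have hivt := hpre.intermediate_value hs₀ ht₀ hcs
    have hj : (j : ℕ) ≤ ⌊R / (5 * δ)⌋₊ := by have := j.2; omega
    have hj2 : (j : ℝ) ≤ R / (5 * δ) := by
      have h1 : ((j : ℕ) : ℝ) ≤ (⌊R / (5 * δ)⌋₊ : ℝ) := by exact_mod_cast hj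
      exact h1.trans (Nat.floor_le (by positivity))
    have hj3 : 5 * δ * (j : ℝ) ≤ R := by
      rw [le_div_iff₀ (by positivity)] at hj2
      linarith
    have hmem : 5 * δ * (j : ℝ) ∈ Icc (dist (h s₀) (h s₀)) (dist (h t₀) (h s₀)) := by
      rw [dist_self, dist_comm]
      exact ⟨by positivity, hj3⟩
    obtain ⟨s, hs, hs'⟩ := hivt hmem
    exact ⟨s, hs, hs'⟩
  choose σ hσ hσ' using hex
  -- disjointness of the families
  have hdisj : ∀ i, (∑ j, if dist (c' i) (h (σ j)) ≤ 2 * δ then D i ^ u else 0) ≤ D i ^ u := by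
    intro i
    by_cases hi : ∃ j, dist (c' i) (h (σ j)) ≤ 2 * δ
    · obtain ⟨j, hj⟩ := hi
      rw [Finset.sum_eq_single j]
      · rw [if_pos hj]
      · intro k _ hkj
        rw [if_neg]
        intro hk
        have h1 : dist (h (σ k)) (h (σ j)) ≤ 4 * δ := by
          have := dist_triangle (h (σ k)) (c' i) (h (σ j))
          rw [dist_comm (h (σ k)) (c' i)] at this
          linarith
        have h2 : |dist (h (σ k)) (h s₀) - dist (h (σ j)) (h s₀)| ≤ dist (h (σ k)) (h (σ j)) :=
          abs_dist_sub_le _ _ _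
        rw [hσ', hσ'] at h2
        have h3 : 5 * δ ≤ |5 * δ * (k : ℝ) - 5 * δ * (j : ℝ)| := by
          rw [← mul_sub, abs_mul, abs_of_pos (by positivity : (0 : ℝ) < 5 * δ)]
          have h4 : (1 : ℝ) ≤ |(k : ℝ) - (j : ℝ)| := by
            have h5 : ((k : ℕ) : ℤ) - ((j : ℕ) : ℤ) ≠ 0 := by
              intro h6
              apply hkj
              ext
              omega
            have h6 : (1 : ℤ) ≤ |((k : ℕ) : ℤ) - ((j : ℕ) : ℤ)| := Int.one_le_abs h5
            exact_mod_cast h6
          nlinarith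
        linarith
      · intro hj'
        exact absurd (Finset.mem_univ j) hj'
    · push Not at hi
      rw [Finset.sum_eq_zero]
      · have := (hD i).1; positivity
      · intro j _
        rw [if_neg (not_le.2 (hi j))]
  have hsumJ : (J : ℝ) ≤ 8 * Cp * t ^ (u - 1) * (Cs * K ^ u) := by
    have h1 : (J : ℝ) = ∑ _j : Fin J, (1 : ℝ) := by simp
    rw [h1]
    calc ∑ _j : Fin J, (1 : ℝ) ≤ ∑ j : Fin J, 8 * Cp * t ^ (u - 1) *
          ∑ i, (if dist (c' i) (h (σ j)) ≤ 2 * δ then D i ^ u else 0) :=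
          Finset.sum_le_sum fun j _ => one (σ j) (hσ j)
      _ = 8 * Cp * t ^ (u - 1) * ∑ i, ∑ j : Fin J,
          (if dist (c' i) (h (σ j)) ≤ 2 * δ then D i ^ u else 0) := by
          rw [← Finset.mul_sum, Finset.sum_comm]
      _ ≤ 8 * Cp * t ^ (u - 1) * ∑ i, D i ^ u := by
          apply mul_le_mul_of_nonneg_left _ (by positivity)
          exact Finset.sum_le_sum fun i _ => hdisj i
      _ ≤ 8 * Cp * t ^ (u - 1) * (Cs * K ^ u) := by
          apply mul_le_mul_of_nonneg_left _ (by positivity)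
          exact packs n c D K hK hc hD hsep
  calc R ≤ 5 * δ * J := hRJ
    _ ≤ 5 * δ * (8 * Cp * t ^ (u - 1) * (Cs * K ^ u)) :=
        mul_le_mul_of_nonneg_left hsumJ (by positivity)
    _ = 40 * Cp * (8 * Cp * Ct) ^ (u - 1) * Cs * K ^ u * Wd ^ (u - 1) * δ := by
        rw [ht, mul_pow (8 * Cp * Ct) Wd]; ring

end Pool.Agent.Lib.MP610fe3.T6
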