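import Pool.Agent.Lib.MP_610fe3_an.T6.Free

/-!
# Module START: a disc in the basin whose boundary meets the complement of the basin (helper23)
-/

open Set Filter Function Metric
open scoped Topology

namespace Pool.Agent.Lib.MP610fe3.T6

open Cf H6 T4 FreeM BasM

universe v

namespace StartM

theorem isOpen_basin {M : Type v} [MetricSpace M] {f : M ≃ₜ M} {C ν r r₁ : ℝ} {A : Set M}
    (hh : Hyp f C ν r r₁) (hA : Attr f A r) : IsOpen (basin f A r) := by
  rw [isOpen_iff_mem_nhds]
  intro x hx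
  obtain ⟨n, hn⟩ := exists_interior hh hA hx
  filter_upwards [mem_interior_iff_mem_nhds.1 hn] with y hy
  exact ⟨n, hy⟩

/-- A point of the frontier of the basin. -/
theorem exists_frontier {M : Type v} [MetricSpace M] [ConnectedSpace M] {f : M ≃ₜ M}
    {C ν r r₁ : ℝ} {A : Set M} (hh : Hyp f C ν r r₁) (hA : Attr f A r)
    (hne : basin f A r ≠ univ) : ∃ x ∈ closure (basin f A r), x ∉ basin f A r := by
  by_contra hcon
  push Not at hcon
  have hcl : IsClosed (basin f A r) := by
    rw [← closure_subset_iff_isClosed]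
    exact hcon
  have hcl' : IsClopen (basin f A r) := ⟨hcl, isOpen_basin hh hA⟩
  rcases isClopen_iff.1 hcl' with h | h
  · obtain ⟨x, hx⟩ := hA.ne
    have : x ∈ basin f A r := ⟨0, x, hx, mem_Wl_self hh.fwd.ε_pos.le⟩
    rw [h] at this
    exact this
  · exact hne h

end StartM

open StartM

theorem specStart : SpecStart.{v} := by
  intro M _ _ _ f u φ C a b κ r r₁ e ρ A hS hA hne d₀ hd₀
  have hh := hyp hS
  have hr : 0 < r := hS.fwd.ε_pos
  have hC : 1 ≤ C := hS.fwd.one_le
  have hC0 : 0 < C := by linarith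
  have hρ := hS.ρ_pos
  have he := hS.e_pos
  obtain ⟨x₀, hx₀, hx₀'⟩ := exists_frontier hh hA hne
  set ε' : ℝ := min (min r (4 * e)) (d₀ / C) with hε'
  have hε'0 : 0 < ε' := lt_min (lt_min hr (by linarith)) (by positivity)
  obtain ⟨δ, hδ, hex⟩ := hS.br.exist ε' hε'0
  obtain ⟨y, hy, hd⟩ := Metric.mem_closure_iff.1 hx₀ δ hδ
  obtain ⟨z, hz1, hz2⟩ := hex _ _ hd
  have hz : z ∉ basin f A r := fun hz =>
    hx₀' (stab hh hA z x₀ (Wl_comm (Wl_mono ((min_le_left _ _).trans (min_le_left _ _)) hz1)) hz)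
  obtain ⟨s, hs, rfl⟩ := hS.onto y z (Wl_mono ((min_le_left _ _).trans (min_le_right _ _)) hz2)
  have hsn : ‖s‖ ≤ ρ / 2 := by simpa using hs
  have hs' : s ∈ closedBall (0 : EuclideanSpace ℝ (Fin u)) ρ := by
    rw [mem_closedBall, dist_zero_right]; linarith
  have h0 : (0 : EuclideanSpace ℝ (Fin u)) ∈ closedBall (0 : EuclideanSpace ℝ (Fin u)) ρ := by
    simp [hρ.le]
  have hsd : ‖s‖ ≤ d₀ := by
    have h1 := hS.lower y s hs' 0 h0
    rw [dist_zero_right, hS.zero] at h1
    have h2 : dist (φ y s) y ≤ d₀ / C := (Wl_dist hz2).trans (min_le_right _ _)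
    calc ‖s‖ ≤ C * dist (φ y s) y := h1
      _ ≤ C * (d₀ / C) := by gcongr
      _ = d₀ := by field_simp
  -- the point of minimal norm outside of the basin
  set R : ℝ := min d₀ (ρ / 2) with hR
  set K : Set (EuclideanSpace ℝ (Fin u)) := {s | s ∈ closedBall 0 R ∧ φ y s ∉ basin f A r}
    with hK
  have hcont : ContinuousOn (φ y) (closedBall 0 R) := by
    refine LipschitzOnWith.continuousOn (K := ⟨C, hC0.le⟩) ?_
    refine LipschitzOnWith.of_dist_le_mul fun s hs t ht => ?_
    have hRρ : R ≤ ρ := (min_le_right _ _).trans (by linarith)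
    exact hS.upper y s (closedBall_subset_closedBall hRρ hs) t
      (closedBall_subset_closedBall hRρ ht)
  have hKcl : IsClosed K := by
    have := hcont.preimage_isClosed_of_isClosed isClosed_closedBall
      (isOpen_basin hh hA).isClosed_compl
    exact this
  have hKc : IsCompact K := (isCompact_closedBall _ R).of_isClosed_subset hKcl fun s hs => hs.1
  have hKne : K.Nonempty := ⟨s, by
    rw [mem_closedBall, dist_zero_right]
    exact le_min hsd hsn, hz⟩
  obtain ⟨x, hx, hmin⟩ := hKc.exists_isMinOn hKne continuous_norm.continuousOn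
  have hyB : y ∈ basin f A r := hy
  have hx0 : 0 < ‖x‖ := by
    rw [norm_pos_iff]
    rintro rfl
    exact hx.2 (by rw [hS.zero]; exact hyB)
  have hxR : ‖x‖ ≤ R := by simpa using hx.1
  refine ⟨y, ‖x‖, x, hx0, hxR.trans (min_le_left _ _), rfl, hx.2, fun x' hx' => ?_⟩
  by_contra hcon
  have hx'n : ‖x'‖ < ‖x‖ := by simpa using hx'
  have : x' ∈ K := ⟨by rw [mem_closedBall, dist_zero_right]; linarith, hcon⟩
  exact absurd (hmin this) (by simpa using hx'n)

end Pool.Agent.Lib.MP610fe3.T6
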