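import Pool.Agent.Lib.MP_610fe3_an.T6.SpecE

/-!
# Module WALK
-/

open Set Filter Function Metric MeasureTheory
open scoped Topology

namespace Pool.Agent.Lib.MP610fe3.T6

universe v

namespace WalkM

/-- The summand of the constant. -/
noncomputable def gs (a κ c T : ℝ) (j : ℕ) : ℝ :=
  Real.exp (-(a * j)) * (Real.exp (κ * j) / c) * (T * (j + 1) + c * Real.exp (-(κ * j)))

theorem gs_nonneg {a κ c T : ℝ} (hc : 0 < c) (hT : 0 < T) (j : ℕ) : 0 ≤ gs a κ c T j := by
  unfold gs; positivity

theorem summable_gs {a κ c T : ℝ} (ha : κ < a) (hκ : 0 ≤ κ) (hc : 0 < c) :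
    Summable (gs a κ c T) := by
  have hr0 : 0 < Real.exp (-(a - κ)) := Real.exp_pos _
  have hr1 : Real.exp (-(a - κ)) < 1 := by
    rw [Real.exp_lt_one_iff]; linarith
  have hq0 : 0 < Real.exp (-a) := Real.exp_pos _
  have hq1 : Real.exp (-a) < 1 := by
    rw [Real.exp_lt_one_iff]; linarith
  have s1 : Summable (fun j : ℕ => ((j : ℝ) ^ 1 * Real.exp (-(a - κ)) ^ j : ℝ)) :=
    summable_pow_mul_geometric_of_norm_lt_one 1 (by
      rw [Real.norm_eq_abs, abs_of_pos hr0]; exact hr1)
  have s2 : Summable (fun j : ℕ => (Real.exp (-(a - κ)) ^ j : ℝ)) :=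
    summable_geometric_of_lt_one hr0.le hr1
  have s3 : Summable (fun j : ℕ => (Real.exp (-a) ^ j : ℝ)) :=
    summable_geometric_of_lt_one hq0.le hq1
  refine (((s1.add s2).mul_left (T / c)).add s3).congr ?_
  intro j
  have e1 : Real.exp (-(a - κ)) ^ j = Real.exp (-(a * j)) * Real.exp (κ * j) := by
    rw [← Real.exp_nat_mul, ← Real.exp_add]; congr 1; ring
  have e2 : Real.exp (-a) ^ j = Real.exp (-(a * j)) := by
    rw [← Real.exp_nat_mul]; congr 1; ring
  have e3 : Real.exp (κ * j) * Real.exp (-(κ * j)) = 1 := by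
    rw [← Real.exp_add]; simp
  rw [e1, e2, gs, pow_one]
  have e4 : Real.exp (-(a * j)) * (Real.exp (κ * j) / c) * (T * (j + 1) +
      c * Real.exp (-(κ * j))) = T / c * (j * (Real.exp (-(a * j)) * Real.exp (κ * j)) +
      Real.exp (-(a * j)) * Real.exp (κ * j)) +
      Real.exp (-(a * j)) * (Real.exp (κ * j) * Real.exp (-(κ * j))) := by
    field_simp
  rw [e4, e3, mul_one]

end WalkM

open WalkM

/-- Module WALK. -/
theorem specWalk : SpecWalk.{v} := by
  intro a κ c T ha hκ hc hT
  have hsum := summable_gs (T := T) ha hκ hc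
  have hg0 : ∀ j, 0 ≤ gs a κ c T j := gs_nonneg hc hT
  have hts : 0 ≤ ∑' j, gs a κ c T j := tsum_nonneg hg0
  refine ⟨∑' j, gs a κ c T j + 1, by linarith, ?_⟩
  intro X _ G lev Y E J hY hE hJ hlev hG
  -- the potential
  set w : ℕ → ℝ := fun j => Real.exp (-(a * j)) * (Real.exp (κ * j) / c) with hw
  set m : ℕ → ℝ := fun j => T * (j + 1) + c * Real.exp (-(κ * j)) with hm
  have hw0 : ∀ j, 0 ≤ w j := fun j => by rw [hw]; positivity
  have hm0 : ∀ j, 0 ≤ m j := fun j => by rw [hm]; positivity
  set Ψ : ℝ → ℝ := fun t => ∑ j ∈ Finset.range (J + 1), E * (w j * min t (m j)) with hΨ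
  have hmono : ∀ j (t t' : ℝ), t ≤ t' → E * (w j * min t (m j)) ≤ E * (w j * min t' (m j)) := by
    intro j t t' htt
    exact mul_le_mul_of_nonneg_left (mul_le_mul_of_nonneg_left (min_le_min_right _ htt) (hw0 j)) hE
  have hΨmono : ∀ t t' : ℝ, t ≤ t' → Ψ t ≤ Ψ t' := fun t t' htt =>
    Finset.sum_le_sum (fun j _ => hmono j t t' htt)
  have hstep : ∀ t ∈ Icc (0 : ℝ) Y,
      Ψ t + E * Real.exp (-(a * lev t)) ≤ Ψ (t + c * Real.exp (-(κ * lev t))) := by
    intro t ht
    have hlJ : lev t ∈ Finset.range (J + 1) := Finset.mem_range.2 (Nat.lt_succ_of_le (hJ t ht))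
    have hpos : 0 < c * Real.exp (-(κ * lev t)) := by positivity
    have hterm : E * (w (lev t) * min (t + c * Real.exp (-(κ * lev t))) (m (lev t))) =
        E * (w (lev t) * min t (m (lev t))) + E * Real.exp (-(a * lev t)) := by
      have h1 := hlev t ht
      have h2 : t + c * Real.exp (-(κ * lev t)) ≤ m (lev t) := by
        rw [hm]; simp only; linarith
      rw [min_eq_left h2, min_eq_left (by linarith)]
      have e3 : Real.exp (κ * lev t) * Real.exp (-(κ * lev t)) = 1 := by
        rw [← Real.exp_add]; simp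
      have e4 : w (lev t) * (c * Real.exp (-(κ * lev t))) = Real.exp (-(a * lev t)) := by
        rw [hw]
        simp only
        calc Real.exp (-(a * lev t)) * (Real.exp (κ * lev t) / c) *
              (c * Real.exp (-(κ * lev t))) = Real.exp (-(a * lev t)) *
              (Real.exp (κ * lev t) * Real.exp (-(κ * lev t))) := by field_simp
          _ = _ := by rw [e3, mul_one]
      rw [mul_add, mul_add, e4]
    rw [hΨ]
    simp only
    rw [← Finset.add_sum_erase _ _ hlJ, ← Finset.add_sum_erase (Finset.range (J + 1))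
      (fun j => E * (w j * min (t + c * Real.exp (-(κ * lev t))) (m j))) hlJ]
    rw [hterm]
    have hrest : ∑ j ∈ (Finset.range (J + 1)).erase (lev t), E * (w j * min t (m j)) ≤
        ∑ j ∈ (Finset.range (J + 1)).erase (lev t),
          E * (w j * min (t + c * Real.exp (-(κ * lev t))) (m j)) :=
      Finset.sum_le_sum (fun j _ => hmono j _ _ (by linarith))
    linarith
  have ha0 : 0 < a := lt_of_le_of_lt hκ ha
  have hexp1 : ∀ l : ℕ, Real.exp (-(a * l)) ≤ 1 := by
    intro l
    rw [Real.exp_le_one_iff]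
    have : 0 ≤ a * (l : ℝ) := by positivity
    linarith
  have hδ : 0 < c * Real.exp (-(κ * J)) := by positivity
  have key : ∀ n : ℕ, ∀ t ∈ Icc (0 : ℝ) Y, Y - t ≤ n * (c * Real.exp (-(κ * J))) →
      dist (G Y) (G t) ≤ Ψ Y - Ψ t + E := by
    intro n
    induction n with
    | zero =>
      intro t ht hn
      have : t = Y := by
        rw [Nat.cast_zero, zero_mul] at hn
        linarith [ht.2]
      rw [this, dist_self]
      linarith
    | succ n ih =>
      intro t ht hn
      have hle : c * Real.exp (-(κ * J)) ≤ c * Real.exp (-(κ * lev t)) := by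
        apply mul_le_mul_of_nonneg_left _ hc.le
        apply Real.exp_le_exp.2
        have : (lev t : ℝ) ≤ J := Nat.cast_le.2 (hJ t ht)
        have := mul_le_mul_of_nonneg_left this hκ
        linarith
      rcases le_or_gt (t + c * Real.exp (-(κ * lev t))) Y with hcase | hcase
      · have ht' : t + c * Real.exp (-(κ * lev t)) ∈ Icc (0 : ℝ) Y :=
          ⟨by linarith [ht.1], hcase⟩
        have h1 := ih _ ht' (by push_cast at hn; linarith)
        have h2 := hG t ht _ ht' (by linarith) (by linarith)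
        have h3 := hstep t ht
        have h4 := dist_triangle (G Y) (G (t + c * Real.exp (-(κ * lev t)))) (G t)
        linarith
      · have h2 := hG t ht Y ⟨hY, le_rfl⟩ ht.2 (by linarith)
        have h3 := hΨmono t Y ht.2
        have h4 : E * Real.exp (-(a * lev t)) ≤ E * 1 :=
          mul_le_mul_of_nonneg_left (hexp1 _) hE
        linarith
  obtain ⟨n, hn⟩ := exists_nat_ge (Y / (c * Real.exp (-(κ * J))))
  have h1 := key n 0 ⟨le_rfl, hY⟩ (by
    rw [div_le_iff₀ hδ] at hn; linarith)
  have h0 : Ψ 0 = 0 := by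
    rw [hΨ]
    simp only
    apply Finset.sum_eq_zero
    intro j _
    rw [min_eq_left (hm0 j)]
    ring
  have hYle : Ψ Y ≤ E * ∑' j, gs a κ c T j := by
    rw [hΨ]
    simp only
    rw [← Finset.mul_sum]
    apply mul_le_mul_of_nonneg_left _ hE
    refine le_trans ?_ (hsum.sum_le_tsum (Finset.range (J + 1)) (fun j _ => hg0 j))
    apply Finset.sum_le_sum
    intro j _
    exact mul_le_mul_of_nonneg_left (min_le_right _ _) (hw0 j)
  have h5 : (∑' j, gs a κ c T j + 1) * E = E * ∑' j, gs a κ c T j + E := by ring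
  rw [h5]
  linarith

end Pool.Agent.Lib.MP610fe3.T6
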