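import Pool.Agent.Lib.MP_610fe3_an.T6.Core
import Pool.Agent.Lib.MP_610fe3_an.T6.MainC
import Pool.Agent.Lib.MP_610fe3_an.T6.Tr
import Pool.Agent.Lib.MP_610fe3_an.T6.Hol
import Pool.Agent.Lib.MP_610fe3_an.T6.Cells
import Pool.Agent.Lib.MP_610fe3_an.T6.Free
import Pool.Agent.Lib.MP_610fe3_an.T6.Count
import Pool.Agent.Lib.MP_610fe3_an.T6.Inr
import Pool.Agent.Lib.MP_610fe3_an.T6.Ey
import Pool.Agent.Lib.MP_610fe3_an.T6.Level
import Pool.Agent.Lib.MP_610fe3_an.T6.Start
import Pool.Agent.Lib.MP_610fe3_an.T6.Paths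
import Pool.Agent.Lib.MP_610fe3_an.T6.Walk
import Pool.Agent.Lib.MP_610fe3_an.T6.Qc
import Pool.Agent.Lib.MP_610fe3_an.T6.Cone
import Pool.Agent.Lib.MP_610fe3_an.T6.Path
import Pool.Agent.Lib.MP_610fe3_an.T6.PackS
import Pool.Agent.Lib.MP_610fe3_an.T6.PackT
import Pool.Agent.Lib.MP_610fe3_an.T6.Cut
import Pool.Agent.Lib.MP_610fe3_an.T6.Pl

/-!
# Anosov diffeomorphisms with almost conformal unstable bundle are transitive
-/

namespace Pool.Agent.Lib.MP610fe3.T6

universe u v

/-- **The main theorem.** -/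
theorem main : SpecMain.{u, v} := by
  have hPl : SpecPl := specPl (specPath specCone) specPackS specPackT specCut
  have hInr : SpecInr.{v} := specInr specCount
  have hEy : SpecEy.{v} := specEy hPl specHol CellsM.specCells hInr
  have hCore : SpecCore.{v} :=
    @specCore specTr hEy specLevel specStart specPaths specWalk
  exact @MainC.specMain specQc hCore

end Pool.Agent.Lib.MP610fe3.T6
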