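import Pool.Agent.Lib.MP_610fe3_an.T6.Basic

/-!
# The abstract theorem
-/

open Set Filter Function Metric
open scoped Topology

namespace Pool.Agent.Lib.MP610fe3.T6

open Cf H6 T4

universe v

namespace CoStage

/-! ### Chains of stable steps which end in a closed set -/

section Chain

variable {M : Type v} [MetricSpace M] {f : M ≃ₜ M} {e : ℝ} {A : Set M}

/-- Points joined to `A` by `k` stable steps. -/
def St (f : M ≃ₜ M) (e : ℝ) (A : Set M) : ℕ → Set M
  | 0 => A
  | k + 1 => {z | ∃ w ∈ St f e A k, w ∈ Wl f e z}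

theorem isClosed_St [CompactSpace M] (hA : IsClosed A) (k : ℕ) : IsClosed (St f e A k) := by
  induction k with
  | zero => exact hA
  | succ k ih =>
    have h1 : IsClosed {p : M × M | p.2 ∈ Wl f e p.1 ∧ p.2 ∈ St f e A k} :=
      (isClosed_Wl_prod f e).inter (ih.preimage continuous_snd)
    have h2 : St f e A (k + 1) = Prod.fst '' {p : M × M | p.2 ∈ Wl f e p.1 ∧ p.2 ∈ St f e A k} := by
      ext z
      constructor
      · rintro ⟨w, hw, hwz⟩
        exact ⟨(z, w), ⟨hwz, hw⟩, rfl⟩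
      · rintro ⟨⟨z', w⟩, ⟨h3, h4⟩, rfl⟩
        exact ⟨w, h4, h3⟩
    rw [h2]
    exact (h1.isCompact.image continuous_fst).isClosed

theorem St_sub {B : Set M} (hAB : A ⊆ B) (hB : ∀ x, ∀ y ∈ Wl f e x, x ∈ B → y ∈ B) (k : ℕ) :
    St f e A k ⊆ B := by
  induction k with
  | zero => exact hAB
  | succ k ih =>
    rintro z ⟨w, hw, hwz⟩
    exact hB w z (Wl_comm hwz) (ih hw)

theorem St_of_lad {q : ℕ → M} {l : ℕ} {z z' : M} (h : Lad f e q l z z') (hz : z' ∈ A) :
    z ∈ St f e A l := by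
  obtain ⟨c, h0, hl, h1, -⟩ := h
  have : ∀ k ≤ l, c (l - k) ∈ St f e A k := by
    intro k
    induction k with
    | zero => intro _; rw [Nat.sub_zero, hl]; exact hz
    | succ k ih =>
      intro hk
      refine ⟨c (l - k), ih (by omega), ?_⟩
      have h2 := h1 (l - (k + 1)) (by omega)
      rwa [show l - (k + 1) + 1 = l - k by omega] at h2
  have h3 := this l le_rfl
  rwa [Nat.sub_self, h0] at h3

end Chain

/-! ### Choice of the times -/

/-- The bound of the displacement tends to zero. -/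
theorem exists_time {u : ℕ} {a b b₂ κ : ℝ} (hu : 1 ≤ u) (hb : 0 < b) (hb₂ : b ≤ b₂)
    (hκ : 0 ≤ κ) (h : u * κ * (u * b₂ - b) < a * b) {A B δ : ℝ} (hA : 0 < A) (hB : 0 < B)
    (hδ : 0 < δ) : ∃ m₀ : ℕ, ∀ m ≥ m₀, ∃ N : ℕ, m ≤ N ∧
      B * Real.exp (b₂ * m) * Real.exp (-(b * N)) ≤ 1 ∧
      A * ((N + 1) ^ (u - 1) *
        Real.exp (u * κ * (N - m) + u * (u - 1 : ℕ) * κ * N - a * m)) ≤ δ := by
  set θ : ℝ := b₂ / b with hθ
  have hθ1 : 1 ≤ θ := by rw [hθ, one_le_div hb]; exact hb₂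
  set c₀ : ℝ := max (Real.log B / b) 0 with hc₀
  have hc₀0 : 0 ≤ c₀ := le_max_right _ _
  have hcast : ((u - 1 : ℕ) : ℝ) = (u : ℝ) - 1 := by
    rw [Nat.cast_sub hu, Nat.cast_one]
  have hu0 : (1 : ℝ) ≤ u := by exact_mod_cast hu
  -- the exponent
  set σ : ℝ := a - (u * κ * (θ - 1) + u * (u - 1) * κ * θ) with hσ
  have hσ0 : 0 < σ := by
    have h1 : b * σ = a * b - u * κ * (u * b₂ - b) := by
      rw [hσ, hθ]
      field_simp
      ring
    have h2 : 0 < b * σ := by rw [h1]; linarith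
    exact (pos_iff_pos_of_mul_pos h2).1 hb
  -- the constant
  set E₀ : ℝ := u * κ * (c₀ + 1) + u * (u - 1) * κ * (c₀ + 1) with hE₀
  have key : Tendsto (fun m : ℕ => A * ((θ * m + (c₀ + 2)) ^ (u - 1) * Real.exp (E₀ - σ * m)))
      atTop (𝓝 0) := by
    have h1 : Tendsto (fun x : ℝ => x ^ (u - 1) * Real.exp (-x)) atTop (𝓝 0) :=
      Real.tendsto_pow_mul_exp_neg_atTop_nhds_zero (u - 1)
    -- compare with a polynomial times an exponential
    have h2 : Tendsto (fun m : ℕ => σ * (m : ℝ)) atTop atTop :=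
      Tendsto.const_mul_atTop hσ0 tendsto_natCast_atTop_atTop
    have h3 := (h1.comp h2)
    have h4 : Tendsto (fun m : ℕ => Real.exp (-(σ * m))) atTop (𝓝 0) :=
      Real.tendsto_exp_neg_atTop_nhds_zero.comp h2
    -- bound
    set P : ℝ := θ / σ + (c₀ + 2) with hP
    have hP0 : 0 ≤ P := by positivity
    have h5 : ∀ m : ℕ, A * ((θ * m + (c₀ + 2)) ^ (u - 1) * Real.exp (E₀ - σ * m)) ≤
        A * (P ^ (u - 1) * Real.exp E₀) *
          (((σ * m) ^ (u - 1) * Real.exp (-(σ * m)) + Real.exp (-(σ * m)))) := by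
      intro m
      have hσm : 0 ≤ σ * m := by positivity
      have e1 : θ * m + (c₀ + 2) ≤ P * max (σ * m) 1 := by
        have i1 : θ * m = θ / σ * (σ * m) := by field_simp
        rw [i1, hP, add_mul]
        have i2 : θ / σ * (σ * m) ≤ θ / σ * max (σ * m) 1 := by
          gcongr
          exact le_max_left _ _
        have i3 : c₀ + 2 ≤ (c₀ + 2) * max (σ * m) 1 :=
          le_mul_of_one_le_right (by positivity) (le_max_right _ _)
        linarith
      have e2 : (θ * m + (c₀ + 2)) ^ (u - 1) ≤ P ^ (u - 1) * max (σ * m) 1 ^ (u - 1) := by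
        rw [← mul_pow]
        gcongr
      have e3 : max (σ * m) 1 ^ (u - 1) ≤ (σ * m) ^ (u - 1) + 1 := by
        rcases le_total (σ * m) 1 with h | h
        · rw [max_eq_right h, one_pow]
          have : 0 ≤ (σ * m) ^ (u - 1) := pow_nonneg hσm _
          linarith
        · rw [max_eq_left h]
          linarith
      have e4 : Real.exp (E₀ - σ * m) = Real.exp E₀ * Real.exp (-(σ * m)) := by
        rw [← Real.exp_add]
        ring_nf
      rw [e4]
      have e5 : 0 < Real.exp E₀ := Real.exp_pos _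
      have e6 : 0 < Real.exp (-(σ * m)) := Real.exp_pos _
      calc A * ((θ * m + (c₀ + 2)) ^ (u - 1) * (Real.exp E₀ * Real.exp (-(σ * m))))
          ≤ A * ((P ^ (u - 1) * ((σ * m) ^ (u - 1) + 1)) *
              (Real.exp E₀ * Real.exp (-(σ * m)))) := by
            have : (θ * m + (c₀ + 2)) ^ (u - 1) ≤ P ^ (u - 1) * ((σ * m) ^ (u - 1) + 1) :=
              e2.trans (by gcongr)
            gcongr
        _ = _ := by ring
    refine squeeze_zero (fun m => by positivity) h5 ?_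
    have h6 := (h3.add h4).const_mul (A * (P ^ (u - 1) * Real.exp E₀))
    simpa using h6
  obtain ⟨m₀, hm₀⟩ := eventually_atTop.1 (key.eventually (ge_mem_nhds hδ))
  refine ⟨m₀, fun m hm => ?_⟩
  set N : ℕ := ⌈θ * m + c₀⌉₊ with hN
  have hN1 : θ * m + c₀ ≤ N := Nat.le_ceil _
  have hN2 : (N : ℝ) < θ * m + c₀ + 1 := Nat.ceil_lt_add_one (by positivity)
  have hmN : m ≤ N := by
    have : (m : ℝ) ≤ N := by
      have : (m : ℝ) ≤ θ * m := le_mul_of_one_le_left (by positivity) hθ1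
      linarith
    exact_mod_cast this
  refine ⟨N, hmN, ?_, ?_⟩
  · have h1 : B ≤ Real.exp (b * c₀) := by
      have : Real.log B ≤ b * c₀ := by
        have h2 : Real.log B / b ≤ c₀ := le_max_left _ _
        rw [div_le_iff₀ hb] at h2
        linarith
      calc B = Real.exp (Real.log B) := (Real.exp_log hB).symm
        _ ≤ _ := Real.exp_le_exp.2 this
    calc B * Real.exp (b₂ * m) * Real.exp (-(b * N))
        ≤ Real.exp (b * c₀) * Real.exp (b₂ * m) * Real.exp (-(b * N)) := by gcongr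
      _ = Real.exp (b * c₀ + b₂ * m - b * N) := by
          rw [← Real.exp_add, ← Real.exp_add]
          ring_nf
      _ ≤ 1 := by
          rw [Real.exp_le_one_iff]
          have h3 : b * (θ * m + c₀) ≤ b * N := by gcongr
          have h4 : b * θ = b₂ := by rw [hθ]; field_simp
          nlinarith
  · refine le_trans ?_ (hm₀ m hm)
    have h1 : (N : ℝ) + 1 ≤ θ * m + (c₀ + 2) := by linarith
    have h2 : (u : ℝ) * κ * (N - m) + u * (u - 1 : ℕ) * κ * N - a * m ≤ E₀ - σ * m := by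
      rw [hcast, hE₀, hσ]
      have i1 : (u : ℝ) * κ * (N - m) ≤ u * κ * ((θ * m + c₀ + 1) - m) := by
        have : 0 ≤ (u : ℝ) * κ := by positivity
        gcongr
      have i2 : (u : ℝ) * (u - 1) * κ * N ≤ u * (u - 1) * κ * (θ * m + c₀ + 1) := by
        have : 0 ≤ (u : ℝ) * (u - 1) * κ := by
          have : (0 : ℝ) ≤ u - 1 := by linarith
          positivity
        gcongr
      nlinarith
    gcongr

/-! ### The displacement at one stage -/

section Stage

variable {M : Type v} [MetricSpace M] [CompactSpace M] {f : M ≃ₜ M} {u : ℕ}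
  {φ : M → EuclideanSpace ℝ (Fin u) → M} {C a b κ r r₁ e ρ η ρ₁ : ℝ} {A : Set M}

omit [CompactSpace M] in
/-- Close points have close images under a ladder. -/
theorem far_bound (hTr : SpecTr.{v}) (S : Sys f u φ C a b κ r r₁ e ρ) (hc : Sc C e ρ η ρ₁)
    {q : ℕ → M} {i n : ℕ} {w w' z z' : M}
    (hn : i * (C * Real.exp (-(b * n)) * (2 * e)) ≤ η) (hw : w' ∈ Wl f.symm η w)
    (h : Lad f e q i (f.symm^[n] w) z) (h' : Lad f e q i (f.symm^[n] w') z') :
    dist z' z ≤ 4 * C ^ 2 * η * Real.exp (-(a * n)) := by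
  have he := S.e_pos
  have hη := hc.η_pos
  have hC := S.C1
  obtain ⟨-, -, h3⟩ := hTr f u φ C a b κ r r₁ e ρ S q i
  have hm : Lad f (2 * e) q i (f.symm^[n] w) z := h.mono (by linarith)
  have hm' : Lad f (2 * e) q i (f.symm^[n] w') z' := h'.mono (by linarith)
  have h4 := (h3 n η _ _ _ _ hη hc.η_le hn hm hm').1
    (fun k hk => by
      rw [iterate_symm_iterate_of_le f hk, iterate_symm_iterate_of_le f hk, dist_comm]
      exact (hw (n - k)).trans (by linarith))
  have h5 : f^[n] z' ∈ Wl f.symm r (f^[n] z) := by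
    intro k
    have hle : 4 * C * η ≤ r := by
      have := hc.η_le
      have := S.e_le_r
      linarith
    rcases le_total k n with hk | hk
    · rw [symm_iterate_iterate_of_le f hk, symm_iterate_iterate_of_le f hk, dist_comm]
      exact (h4 (n - k) (by omega)).trans hle
    · obtain ⟨j, rfl⟩ := Nat.exists_eq_add_of_le hk
      rw [add_comm n j, iterate_add_apply, iterate_add_apply, Cf.symm_iterate_iterate,
        Cf.symm_iterate_iterate]
      have i1 := Wl_trans (Wl_comm h.last) h'.last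
      exact (i1 j).trans (by linarith [S.e_le_r])
  have h6 := S.dec_un h5 n
  rw [Cf.symm_iterate_iterate, Cf.symm_iterate_iterate] at h6
  refine h6.trans ?_
  have h7 := h4 n le_rfl
  rw [dist_comm] at h7
  have h8 : 0 < Real.exp (-(a * n)) := Real.exp_pos _
  calc C * Real.exp (-(a * n)) * dist (f^[n] z') (f^[n] z)
      ≤ C * Real.exp (-(a * n)) * (4 * C * η) := by gcongr
    _ = 4 * C ^ 2 * η * Real.exp (-(a * n)) := by ring

/-- The point of the radial path at the time `t`. -/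
theorem norm_path {v : EuclideanSpace ℝ (Fin u)} (hv : ‖v‖ = 1) {d t : ℝ} (hd : 0 < d)
    (ht : 0 ≤ t) : ‖(d * (1 - Real.exp (-t))) • v‖ = d * (1 - Real.exp (-t)) := by
  have h1 : Real.exp (-t) ≤ 1 := by rw [Real.exp_le_one_iff]; linarith
  rw [norm_smul, hv, mul_one, Real.norm_eq_abs, abs_of_nonneg]
  have : 0 ≤ 1 - Real.exp (-t) := by linarith
  positivity

omit [CompactSpace M] in
/-- The displacement at one stage. -/
theorem stage_bound (hTr : SpecTr.{v}) (S : Sys f u φ C a b κ r r₁ e ρ) (hc : Sc C e ρ η ρ₁)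
    {C₁ Cw c T d : ℝ} {y : M} {lev : EuclideanSpace ℝ (Fin u) → ℕ} (hC₁ : 0 < C₁)
    (hey : ∀ (q : ℕ → M) (i m N : ℕ) (w : M), m ≤ N →
      i * (C * Real.exp (-(b * N)) * (2 * e)) ≤ η / (4 * C) → Free f A r (2 * η) w →
      Dom f φ e ρ₁ q i m w →
      ∀ s ∈ closedBall (0 : EuclideanSpace ℝ (Fin u)) (ρ₁ / 2), ∀ t ∈ closedBall 0 (ρ₁ / 2),
      ∀ z z', Lad f e q i (f.symm^[m] (φ w s)) z → Lad f e q i (f.symm^[m] (φ w t)) z' →
        dist z z' ≤ C₁ * (N + 1) ^ (u - 1) *
          Real.exp (u * κ * (N - m) + u * (u - 1 : ℕ) * κ * N - a * m))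
    (hw : ∀ (G : ℝ → M) (lev : ℝ → ℕ) (Y E : ℝ) (J : ℕ), 0 ≤ Y → 0 ≤ E →
      (∀ t ∈ Icc (0 : ℝ) Y, lev t ≤ J) → (∀ t ∈ Icc (0 : ℝ) Y, t ≤ T * (lev t + 1)) →
      (∀ t ∈ Icc (0 : ℝ) Y, ∀ t' ∈ Icc (0 : ℝ) Y, t ≤ t' → t' - t ≤ c * Real.exp (-(κ * lev t)) →
        dist (G t') (G t) ≤ E * Real.exp (-(a * lev t))) →
      dist (G Y) (G 0) ≤ Cw * E)
    (hd : 0 < d) (hbas : ∀ x ∈ ball (0 : EuclideanSpace ℝ (Fin u)) d, φ y x ∈ basin f A r)
    (hA : Attr f A r)
    (hJ : ∀ s : ℝ, 0 < s → ∃ J : ℕ, ∀ x ∈ ball (0 : EuclideanSpace ℝ (Fin u)) d,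
          s ≤ d - ‖x‖ → lev x ≤ J)
    (hlev : ∀ x ∈ ball (0 : EuclideanSpace ℝ (Fin u)) d,
          (∀ z ∈ Wl f.symm (2 * η) (f^[lev x] (φ y x)),
            ∃ x' ∈ ball (0 : EuclideanSpace ℝ (Fin u)) d, φ y x' = f.symm^[lev x] z) ∧
          Real.log (d / (d - ‖x‖)) ≤ T * (lev x + 1) ∧
          ∀ x' ∈ ball (0 : EuclideanSpace ℝ (Fin u)) d,
            dist x' x ≤ c * Real.exp (-(κ * lev x)) * (d - ‖x‖) →
            ∃ s ∈ closedBall (0 : EuclideanSpace ℝ (Fin u)) (ρ₁ / 2),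
              φ (f^[lev x] (φ y x)) s = f^[lev x] (φ y x'))
    {q : ℕ → M} {i m N : ℕ} (hmN : m ≤ N)
    (hN : i * (C * Real.exp (-(b * N)) * (2 * e)) ≤ η / (4 * C))
    (hq0 : q 0 = f.symm^[m] y) (hq : ∀ k < i, q (k + 1) ∈ Wl f e (q k))
    (hdom : ∀ x ∈ ball (0 : EuclideanSpace ℝ (Fin u)) d, ∃ z', Lad f e q i (f.symm^[m] (φ y x)) z')
    {x : EuclideanSpace ℝ (Fin u)} (hx : x ∈ ball (0 : EuclideanSpace ℝ (Fin u)) d) {z' : M}
    (hz' : Lad f e q i (f.symm^[m] (φ y x)) z') :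
    dist z' (q i) ≤ Cw * (max C₁ (4 * C ^ 2 * η) * ((N + 1) ^ (u - 1) *
      Real.exp (u * κ * (N - m) + u * (u - 1 : ℕ) * κ * N - a * m))) := by
  classical
  have he := S.e_pos
  have hη := hc.η_pos
  have hC := S.C1
  have hC0 : 0 < C := by linarith
  obtain ⟨huniq, -, -⟩ := hTr f u φ C a b κ r r₁ e ρ S q i
  have huniq' : ∀ {z z' z''}, Lad f e q i z z' → Lad f e q i z z'' → z' = z'' :=
    fun h h' => huniq _ _ _ (h.mono (by linarith)) (h'.mono (by linarith))
  have hη' : η / (4 * C) ≤ η := div_le_self hη.le (by linarith)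
  set E : ℝ := max C₁ (4 * C ^ 2 * η) * ((N + 1) ^ (u - 1) *
      Real.exp (u * κ * (N - m) + u * (u - 1 : ℕ) * κ * N - a * m)) with hE
  have hmax : 0 < max C₁ (4 * C ^ 2 * η) := lt_max_of_lt_left hC₁
  have hE0 : 0 < E := by positivity
  have hκ := S.κ_nonneg
  -- the stage map
  have : Nonempty M := ⟨y⟩
  choose! H hH using hdom
  have hself : Lad f e q i (f.symm^[m] y) (q i) :=
    ⟨q, hq0, rfl, hq, fun k _ => mem_Wl_self he.le⟩
  have h0 : (0 : EuclideanSpace ℝ (Fin u)) ∈ ball (0 : EuclideanSpace ℝ (Fin u)) d :=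
    mem_ball_self hd
  have hH0 : H 0 = q i := by
    have h1 := hH 0 h0
    rw [S.zero] at h1
    exact huniq' h1 hself
  have hHx : H x = z' := huniq' (hH x hx) hz'
  rw [← hHx, ← hH0]
  -- the local displacement
  have hloc : ∀ x₁ ∈ ball (0 : EuclideanSpace ℝ (Fin u)) d,
      ∀ x₂ ∈ ball (0 : EuclideanSpace ℝ (Fin u)) d,
      dist x₂ x₁ ≤ c * Real.exp (-(κ * lev x₁)) * (d - ‖x₁‖) →
      dist (H x₂) (H x₁) ≤ E * Real.exp (-(a * lev x₁)) := by
    intro x₁ hx₁ x₂ hx₂ h12
    obtain ⟨hl1, -, hl3⟩ := hlev x₁ hx₁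
    obtain ⟨s, hs, hφs⟩ := hl3 x₂ hx₂ h12
    set j : ℕ := lev x₁ with hj
    set w : M := f^[j] (φ y x₁) with hwdef
    have hpull : ∀ z : M, f.symm^[m + j] z = f.symm^[m] (f.symm^[j] z) := fun z => by
      rw [iterate_add_apply]
    have e2 : f.symm^[m + j] (φ w s) = f.symm^[m] (φ y x₂) := by
      rw [hφs, hpull, Cf.symm_iterate_iterate]
    have e1 : f.symm^[m + j] (φ w 0) = f.symm^[m] (φ y x₁) := by
      rw [S.zero, hwdef, hpull, Cf.symm_iterate_iterate]
    have hL1 : Lad f e q i (f.symm^[m + j] (φ w 0)) (H x₁) := by rw [e1]; exact hH x₁ hx₁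
    have hL2 : Lad f e q i (f.symm^[m + j] (φ w s)) (H x₂) := by rw [e2]; exact hH x₂ hx₂
    have hexp : (0 : ℝ) < Real.exp (-(a * j)) := Real.exp_pos _
    have hone : (1 : ℝ) ≤ (N + 1) ^ (u - 1) := one_le_pow₀ (by
      have : (0 : ℝ) ≤ N := by positivity
      linarith)
    have hNm : (0 : ℝ) ≤ N - m := by
      have : (m : ℝ) ≤ N := by exact_mod_cast hmN
      linarith
    rcases le_or_gt (m + j) N with hmj | hmj
    · -- the key estimate
      have hfree : Free f A r (2 * η) w := by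
        intro z hz
        obtain ⟨x', hx', hzx⟩ := hl1 z hz
        have h1 := hbas x' hx'
        rw [hzx] at h1
        exact (BasM.symm_iter_mem (fun x => BasM.inv hA x) j z).1 h1
      have hD : Dom f φ e ρ₁ q i (m + j) w := by
        intro s' hs'
        have h1 := hc.disc S w hs'
        obtain ⟨x', hx', hzx⟩ := hl1 (φ w s') (Wl_mono (by linarith) h1)
        refine ⟨H x', ?_⟩
        rw [hpull, ← hzx]
        exact hH x' hx'
      have hρ₁ := hc.ρ₁_pos
      have h1 := hey q i (m + j) N w hmj hN hfree hD s hs 0 (mem_closedBall_self (by positivity))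
        _ _ hL2 hL1
      refine h1.trans ?_
      have h2 : Real.exp (u * κ * (N - (m + j : ℕ)) + u * (u - 1 : ℕ) * κ * N - a * (m + j : ℕ)) ≤
          Real.exp (u * κ * (N - m) + u * (u - 1 : ℕ) * κ * N - a * m) *
            Real.exp (-(a * j)) := by
        rw [← Real.exp_add, Real.exp_le_exp]
        push_cast
        have : 0 ≤ (u : ℝ) * κ * j := by positivity
        nlinarith
      rw [hE]
      calc C₁ * (N + 1) ^ (u - 1) *
            Real.exp (u * κ * (N - (m + j : ℕ)) + u * (u - 1 : ℕ) * κ * N - a * (m + j : ℕ))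
          ≤ max C₁ (4 * C ^ 2 * η) * (N + 1) ^ (u - 1) *
            (Real.exp (u * κ * (N - m) + u * (u - 1 : ℕ) * κ * N - a * m) *
              Real.exp (-(a * j))) := by
            have := le_max_left C₁ (4 * C ^ 2 * η)
            gcongr
        _ = _ := by ring
    · -- after the time `N`
      have hN' : i * (C * Real.exp (-(b * (m + j : ℕ))) * (2 * e)) ≤ η := by
        refine le_trans ?_ (hN.trans hη')
        have h1 : Real.exp (-(b * (m + j : ℕ))) ≤ Real.exp (-(b * N)) := by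
          rw [Real.exp_le_exp]
          have h2 : (N : ℝ) ≤ (m + j : ℕ) := by exact_mod_cast hmj.le
          have := S.b_pos
          nlinarith
        gcongr
      have hρ₁ := hc.ρ₁_pos
      have hs' : s ∈ closedBall (0 : EuclideanSpace ℝ (Fin u)) ρ₁ :=
        closedBall_subset_closedBall (by linarith) hs
      have h1 := far_bound hTr S hc hN' (w := φ w 0) (w' := φ w s)
        (by rw [S.zero]; exact hc.disc S w hs') hL1 hL2
      refine h1.trans ?_
      have h2 : Real.exp (-(a * (m + j : ℕ))) ≤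
          Real.exp (u * κ * (N - m) + u * (u - 1 : ℕ) * κ * N - a * m) *
            Real.exp (-(a * j)) := by
        rw [← Real.exp_add, Real.exp_le_exp]
        push_cast
        have i1 : 0 ≤ (u : ℝ) * κ * (N - m) := by positivity
        have i2 : 0 ≤ (u : ℝ) * (u - 1 : ℕ) * κ * N := by positivity
        nlinarith
      rw [hE]
      calc 4 * C ^ 2 * η * Real.exp (-(a * (m + j : ℕ)))
          ≤ max C₁ (4 * C ^ 2 * η) * (Real.exp (u * κ * (N - m) + u * (u - 1 : ℕ) * κ * N - a * m) *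
              Real.exp (-(a * j))) := by
            have := le_max_right C₁ (4 * C ^ 2 * η)
            gcongr
        _ ≤ max C₁ (4 * C ^ 2 * η) * ((N + 1) ^ (u - 1) *
              (Real.exp (u * κ * (N - m) + u * (u - 1 : ℕ) * κ * N - a * m) *
              Real.exp (-(a * j)))) := by
            have i1 : 0 ≤ Real.exp (u * κ * (N - m) + u * (u - 1 : ℕ) * κ * N - a * m) *
              Real.exp (-(a * j)) := by positivity
            have := le_mul_of_one_le_left i1 hone
            gcongr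
        _ = _ := by ring
  -- the path
  rcases eq_or_ne x 0 with rfl | hx0
  · rw [dist_self]
    have h1 := hw (fun _ => q i) (fun _ => 0) 0 E 0 le_rfl hE0.le (fun _ _ => le_rfl)
      (fun t ht => by
        have h2 := (hlev 0 h0).2.1
        have h3 : t = 0 := le_antisymm ht.2 ht.1
        rw [h3]
        rw [norm_zero, sub_zero, div_self hd.ne', Real.log_one] at h2
        have h4 : (0 : ℝ) < lev 0 + 1 := by positivity
        have h5 : 0 ≤ T := nonneg_of_mul_nonneg_left h2 h4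
        positivity)
      (fun t _ t' _ _ _ => by
        rw [dist_self]
        positivity)
    rwa [dist_self] at h1
  have hxn : 0 < ‖x‖ := norm_pos_iff.2 hx0
  have hxd : ‖x‖ < d := by rwa [mem_ball_zero_iff] at hx
  set v : EuclideanSpace ℝ (Fin u) := ‖x‖⁻¹ • x with hv
  have hv1 : ‖v‖ = 1 := by
    rw [hv, norm_smul, norm_inv, norm_norm, inv_mul_cancel₀ hxn.ne']
  set X : ℝ → EuclideanSpace ℝ (Fin u) := fun t => (d * (1 - Real.exp (-t))) • v with hX
  have hnorm : ∀ t, 0 ≤ t → ‖X t‖ = d * (1 - Real.exp (-t)) := fun t ht => norm_path hv1 hd ht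
  have hdn : ∀ t, 0 ≤ t → d - ‖X t‖ = d * Real.exp (-t) := fun t ht => by
    rw [hnorm t ht]
    ring
  have hXb : ∀ t, 0 ≤ t → X t ∈ ball (0 : EuclideanSpace ℝ (Fin u)) d := fun t ht => by
    rw [mem_ball_zero_iff]
    have h1 := hdn t ht
    have h2 : 0 < d * Real.exp (-t) := by positivity
    linarith
  set Y : ℝ := Real.log (d / (d - ‖x‖)) with hY
  have hdx : 0 < d - ‖x‖ := by linarith
  have hY0 : 0 ≤ Y := by
    apply Real.log_nonneg
    rw [one_le_div hdx]
    linarith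
  have hexpY : Real.exp (-Y) = (d - ‖x‖) / d := by
    rw [hY, Real.exp_neg, Real.exp_log (by positivity), inv_div]
  have hXY : X Y = x := by
    simp only [hX, hexpY, hv, smul_smul]
    have : d * (1 - (d - ‖x‖) / d) * ‖x‖⁻¹ = 1 := by
      field_simp
      ring
    rw [this, one_smul]
  have hX0 : X 0 = 0 := by
    simp [hX]
  obtain ⟨J, hJ'⟩ := hJ (d - ‖x‖) hdx
  have h1 := hw (fun t => H (X t)) (fun t => lev (X t)) Y E J hY0 hE0.le
    (fun t ht => hJ' _ (hXb t ht.1) (by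
      rw [hdn t ht.1]
      have h2 : Real.exp (-Y) ≤ Real.exp (-t) := Real.exp_le_exp.2 (by linarith [ht.2])
      rw [hexpY, div_le_iff₀ hd] at h2
      linarith))
    (fun t ht => by
      have h2 := (hlev (X t) (hXb t ht.1)).2.1
      rw [hdn t ht.1] at h2
      have h3 : d / (d * Real.exp (-t)) = Real.exp t := by
        rw [Real.exp_neg]
        field_simp
      rwa [h3, Real.log_exp] at h2)
    (fun t ht t' ht' htt h2 => by
      refine hloc (X t) (hXb t ht.1) (X t') (hXb t' ht'.1) ?_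
      rw [hdn t ht.1]
      have h3 : dist (X t') (X t) = d * (Real.exp (-t) - Real.exp (-t')) := by
        rw [dist_eq_norm]
        simp only [hX]
        rw [← sub_smul, norm_smul, hv1, mul_one, Real.norm_eq_abs, abs_of_nonneg]
        · ring
        · have h4 : Real.exp (-t') ≤ Real.exp (-t) := Real.exp_le_exp.2 (by linarith)
          nlinarith
      rw [h3]
      have h4 : Real.exp (-t) - Real.exp (-t') ≤ Real.exp (-t) * (t' - t) := by
        have h5 : Real.exp (-t') = Real.exp (-t) * Real.exp (-(t' - t)) := by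
          rw [← Real.exp_add]
          ring_nf
        have h6 := Real.add_one_le_exp (-(t' - t))
        have h7 := Real.exp_pos (-t)
        rw [h5]
        nlinarith
      have h8 : 0 < Real.exp (-t) := Real.exp_pos _
      calc d * (Real.exp (-t) - Real.exp (-t')) ≤ d * (Real.exp (-t) * (t' - t)) := by gcongr
        _ ≤ d * (Real.exp (-t) * (c * Real.exp (-(κ * lev (X t))))) := by gcongr
        _ = _ := by ring)
  simp only [hXY, hX0] at h1
  exact h1

end Stage

end CoStage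

/-- **The abstract theorem.** -/
theorem specCore (hTr : SpecTr.{v}) (hEy : SpecEy.{v}) (hLevel : SpecLevel.{v})
    (hStart : SpecStart.{v}) (hPaths : SpecPaths.{v}) (hWalk : SpecWalk.{v}) : SpecCore.{v} := by
  intro M _ _ _ f u φ C a b κ r r₁ e ρ ρs Λ b₂ A S hA hρs hΛ hb₂ hslow hκa hineq
  by_contra hne
  obtain ⟨η, ρ₁, hc⟩ := Sc.exists S
  have he := S.e_pos
  have hη := hc.η_pos
  have hC := S.C1
  have hC0 : 0 < C := by linarith
  have hρ₁ := hc.ρ₁_pos
  have hρ₁ρ := hc.ρ₁_le'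
  have her := S.e_le_r
  have ha := S.a_pos
  have hb := S.b_pos
  obtain ⟨C₁, hC₁, hey⟩ := hEy f u φ C a b κ r r₁ e ρ η ρ₁ A S hA hc
  obtain ⟨c, T, hc0, hT0, hlevel⟩ := hLevel f u φ C a b κ r r₁ e ρ η ρ₁ S hc
  obtain ⟨Cw, hCw, hwalk⟩ := hWalk a κ c T hκa S.κ_nonneg hc0 hT0
  obtain ⟨y, d, x₀, hd, hdρ, hx₀, hx₀B, hbas⟩ := hStart f u φ C a b κ r r₁ e ρ A S hA hne ρ₁ hρ₁
  obtain ⟨lev, hJ, hlev⟩ := hlevel y d hd hdρ
  obtain ⟨δe, hδe, hbr⟩ := S.br.exist e he
  set δ₂ : ℝ := min (δe / 4) e with hδ₂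
  have hδ₂0 : 0 < δ₂ := lt_min (by positivity) he
  have hδ₂1 : δ₂ ≤ δe / 4 := min_le_left _ _
  have hδ₂2 : δ₂ ≤ e := min_le_right _ _
  have hyB : y ∈ basin f A r := by
    have := hbas 0 (mem_ball_self hd)
    rwa [S.zero] at this
  obtain ⟨Λ', hΛ', hp⟩ := hPaths f u φ C a b κ r r₁ e ρ ρs Λ b₂ A S hA hρs hΛ
    (hb.le.trans hb₂) hslow δ₂ hδ₂0 y hyB
  obtain ⟨m₀, hm₀⟩ := CoStage.exists_time (A := Cw * max C₁ (4 * C ^ 2 * η))
    (B := Λ' * (C * (2 * e)) * (4 * C / η)) (δ := δ₂ / C) S.u_pos hb hb₂ S.κ_nonneg hineq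
    (by
      have : 0 < max C₁ (4 * C ^ 2 * η) := lt_max_of_lt_left hC₁
      positivity) (by positivity) (by positivity)
  obtain ⟨m₁, hm₁⟩ : ∃ m₁ : ℕ, ∀ m ≥ m₁, C * (C * Real.exp (-(a * m)) * (C * ρ₁)) ≤ δ₂ := by
    have h1 : Tendsto (fun m : ℕ => a * (m : ℝ)) atTop atTop :=
      Tendsto.const_mul_atTop ha tendsto_natCast_atTop_atTop
    have h2 := (((Real.tendsto_exp_neg_atTop_nhds_zero.comp h1).const_mul C).mul_const
      (C * ρ₁)).const_mul C
    simp only [mul_zero, zero_mul] at h2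
    exact eventually_atTop.1 (h2.eventually (ge_mem_nhds hδ₂0))
  set m : ℕ := max m₀ m₁ with hm
  obtain ⟨N, hmN, hN1, hN2⟩ := hm₀ m (le_max_left _ _)
  obtain ⟨K, q, hK, hq0, hqK, hq⟩ := hp m
  have hNi : ∀ i ≤ K, (i : ℝ) * (C * Real.exp (-(b * N)) * (2 * e)) ≤ η / (4 * C) := by
    intro i hi
    have h1 : (i : ℝ) ≤ Λ' * Real.exp (b₂ * m) := by
      have : (i : ℝ) ≤ K := by exact_mod_cast hi
      exact this.trans hK
    calc (i : ℝ) * (C * Real.exp (-(b * N)) * (2 * e))
        ≤ Λ' * Real.exp (b₂ * m) * (C * Real.exp (-(b * N)) * (2 * e)) := by gcongr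
      _ = Λ' * (C * (2 * e)) * (4 * C / η) * Real.exp (b₂ * m) * Real.exp (-(b * N)) *
          (η / (4 * C)) := by
          field_simp
      _ ≤ 1 * (η / (4 * C)) := by gcongr
      _ = η / (4 * C) := one_mul _
  have hqe : ∀ k < K, q (k + 1) ∈ Wl f e (q k) := fun k hk => Wl_mono hδ₂2 (hq k hk)
  -- the stages
  have hP : ∀ i ≤ K, ∀ x ∈ ball (0 : EuclideanSpace ℝ (Fin u)) d,
      ∃ z', Lad f e q i (f.symm^[m] (φ y x)) z' ∧ z' ∈ Wl f.symm δ₂ (q i) := by
    intro i
    induction i with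
    | zero =>
      intro _ x hx
      have hx' : ‖x‖ ≤ ρ₁ := by
        rw [mem_ball_zero_iff] at hx
        linarith
      have hxρ : x ∈ closedBall (0 : EuclideanSpace ℝ (Fin u)) ρ := by
        rw [mem_closedBall_zero_iff]
        linarith
      have h1 : φ y x ∈ Wl f.symm r y := Wl_mono (by linarith) (S.mem y x hxρ)
      have h2 : f.symm^[m] (φ y x) ∈ Wl f.symm δ₂ (f.symm^[m] y) := by
        refine S.wl_un (Wl_iter h1 m) (le_trans ?_ (hm₁ m (le_max_right _ _)))
        have h3 := S.dec_un h1 m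
        have h4 := S.upper y x hxρ 0 S.ρ_mem
        rw [S.zero, dist_zero_right] at h4
        have h5 : dist (φ y x) y ≤ C * ρ₁ :=
          h4.trans (mul_le_mul_of_nonneg_left hx' hC0.le)
        have h6 : 0 ≤ C * Real.exp (-(a * m)) := by positivity
        have h7 : dist (f.symm^[m] (φ y x)) (f.symm^[m] y) ≤
            C * Real.exp (-(a * m)) * (C * ρ₁) := h3.trans (mul_le_mul_of_nonneg_left h5 h6)
        exact mul_le_mul_of_nonneg_left h7 hC0.le
      rw [← hq0] at h2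
      exact ⟨_, Lad.zero (Wl_mono hδ₂2 h2), h2⟩
    | succ i ih =>
      intro hi x hx
      have hex : ∀ x ∈ ball (0 : EuclideanSpace ℝ (Fin u)) d,
          ∃ z', Lad f e q (i + 1) (f.symm^[m] (φ y x)) z' := by
        intro x hx
        obtain ⟨z, hz1, hz2⟩ := ih (by omega) x hx
        have h1 : dist z (q (i + 1)) < δe := by
          have h2 := Wl_dist hz2
          have h3 := Wl_dist (hq i hi)
          have h4 := dist_triangle_right z (q (i + 1)) (q i)
          linarith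
        obtain ⟨z'', h5, h6⟩ := hbr _ _ h1
        exact ⟨z'', hz1.succ h5 h6⟩
      obtain ⟨z', hz'⟩ := hex x hx
      refine ⟨z', hz', S.wl_un (Wl_mono (by linarith) hz'.last) ?_⟩
      have h1 := CoStage.stage_bound hTr S hc hC₁ hey (hwalk M) hd hbas hA hJ hlev hmN (hNi (i + 1) hi)
        hq0 (fun k hk => hqe k (by omega)) hex hx hz'
      have h2 : dist z' (q (i + 1)) ≤ δ₂ / C := h1.trans (by rw [← mul_assoc]; exact hN2)
      calc C * dist z' (q (i + 1)) ≤ C * (δ₂ / C) := by gcongr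
        _ = δ₂ := by field_simp
  -- the end
  have hB : ∀ x, ∀ y ∈ Wl f e x, x ∈ basin f A r → y ∈ basin f A r := fun x y hy =>
    BasM.stab S.hyp hA x y (Wl_mono (by linarith) hy)
  have hAB : A ⊆ basin f A r := fun x hx => ⟨0, x, hx, mem_Wl_self S.r_pos.le⟩
  have hsub : (fun x => f.symm^[m] (φ y x)) '' ball (0 : EuclideanSpace ℝ (Fin u)) d ⊆
      CoStage.St f e A K := by
    rintro _ ⟨x, hx, rfl⟩
    obtain ⟨z', hz1, hz2⟩ := hP K le_rfl x hx
    exact CoStage.St_of_lad hz1 (hA.sat _ hqK _ (Wl_mono (by linarith) hz2))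
  have hcont : ContinuousOn (fun x => f.symm^[m] (φ y x))
      (closure (ball (0 : EuclideanSpace ℝ (Fin u)) d)) := by
    rw [closure_ball _ hd.ne']
    refine (f.symm.continuous.iterate m).comp_continuousOn ?_
    refine (LipschitzOnWith.of_dist_le_mul (K := ⟨C, hC0.le⟩) fun s hs t ht => ?_).continuousOn
    exact S.upper y s (closedBall_subset_closedBall (by linarith) hs) t
      (closedBall_subset_closedBall (by linarith) ht)
  have hx₀' : x₀ ∈ closure (ball (0 : EuclideanSpace ℝ (Fin u)) d) := by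
    rw [closure_ball _ hd.ne', mem_closedBall_zero_iff]
    exact hx₀.le
  have h1 : f.symm^[m] (φ y x₀) ∈ CoStage.St f e A K := by
    have h2 := hcont.image_closure (mem_image_of_mem _ hx₀')
    exact closure_minimal hsub (CoStage.isClosed_St hA.closed K) h2
  have h2 := CoStage.St_sub hAB hB K h1
  exact hx₀B ((BasM.symm_iter_mem (fun x => BasM.inv hA x) m (φ y x₀)).1 h2)

end Pool.Agent.Lib.MP610fe3.T6
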