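import Pool.Agent.Lib.MP_610fe3_an.T4.Bas
import Pool.Agent.Lib.MP_610fe3_an.H6E.Reach

/-!
# Anosov homeomorphisms with almost conformal unstable sets: definitions

Text of the proof: `/team-store/MP_610fe3_an_T6_PROOF.md`. Stable objects are `Wl f _ _`, unstable
objects are `Wl f.symm _ _`.
-/

open Set Filter Function Metric
open scoped Topology

namespace Pool.Agent.Lib.MP610fe3.T6

open Cf H6 T4

universe v

/-- Quasiconformality of the backward iterates on the unstable sets; `κ` is the exponential defect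
of conformality. -/
def Qc {M : Type v} [MetricSpace M] (f : M ≃ₜ M) (r C κ : ℝ) : Prop :=
  ∀ (n : ℕ) (z : M), ∀ p ∈ Wl f.symm r z, ∀ q ∈ Wl f.symm r z, ∀ p' ∈ Wl f.symm r z,
    ∀ q' ∈ Wl f.symm r z, dist (f.symm^[n] p) (f.symm^[n] q) * dist p' q' ≤
      C * Real.exp (κ * n) * dist (f.symm^[n] p') (f.symm^[n] q') * dist p q

/-- A hyperbolic homeomorphism with almost conformal unstable sets: `a` is a lower unstable rate,
`b` a lower stable rate, `κ` the defect of conformality, `r` the scale of the local sets; points at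
distance at most `r₁` have a bracket at the scale `r / 16`; `e` is the scale of the ladders, `φ x`
a parametrization of the unstable set of `x` by a ball of radius `ρ`. The constant `C` is a common
bound. -/
structure Sys {M : Type v} [MetricSpace M] (f : M ≃ₜ M) (u : ℕ)
    (φ : M → EuclideanSpace ℝ (Fin u) → M) (C a b κ r r₁ e ρ : ℝ) : Prop where
  u_pos : 1 ≤ u
  a_pos : 0 < a
  b_pos : 0 < b
  κ_nonneg : 0 ≤ κ
  fwd : Dec f r C (Real.exp (-b))
  bwd : Dec f.symm r C (Real.exp (-a))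
  br : Br f r C
  lip : ∀ x y, dist (f x) (f y) ≤ C * dist x y
  qc : Qc f r C κ
  e_pos : 0 < e
  e_le : 64 * C * e ≤ r
  r₁_pos : 0 < r₁
  e_le' : 4 * e ≤ r₁
  step : ∀ p q, dist p q ≤ r₁ → ∃ z, z ∈ Wl f.symm (r / 16) p ∧ z ∈ Wl f (r / 16) q
  ρ_pos : 0 < ρ
  zero : ∀ x, φ x 0 = x
  upper : ∀ x, ∀ s ∈ closedBall (0 : EuclideanSpace ℝ (Fin u)) ρ, ∀ t ∈ closedBall 0 ρ,
    dist (φ x s) (φ x t) ≤ C * dist s t
  lower : ∀ x, ∀ s ∈ closedBall (0 : EuclideanSpace ℝ (Fin u)) ρ, ∀ t ∈ closedBall 0 ρ,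
    dist s t ≤ C * dist (φ x s) (φ x t)
  mem : ∀ x, ∀ s ∈ closedBall (0 : EuclideanSpace ℝ (Fin u)) ρ, φ x s ∈ Wl f.symm (r / 4) x
  onto : ∀ x, ∀ z ∈ Wl f.symm (4 * e) x,
    ∃ s ∈ closedBall (0 : EuclideanSpace ℝ (Fin u)) (ρ / 2), φ x s = z

/-- The choice of the scale `η` of the cells and the radius `ρ₁` of the small discs. -/
structure Sc (C e ρ η ρ₁ : ℝ) : Prop where
  η_pos : 0 < η
  η_le : 16 * C * η ≤ e
  ρ₁_pos : 0 < ρ₁
  ρ₁_le : C ^ 2 * ρ₁ ≤ η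
  ρ₁_le' : 2 * ρ₁ ≤ ρ

/-- `z'` is the stage `l` of the ladder over `q` which starts at `z`. -/
def Lad {M : Type v} [MetricSpace M] (f : M ≃ₜ M) (e : ℝ) (q : ℕ → M) (l : ℕ) (z z' : M) :
    Prop :=
  ∃ c : ℕ → M, c 0 = z ∧ c l = z' ∧ (∀ k < l, c (k + 1) ∈ Wl f e (c k)) ∧
    ∀ k ≤ l, c k ∈ Wl f.symm e (q k)

/-- The unstable set of `w` of size `η` is contained in the basin of `A`. -/
def Free {M : Type v} [MetricSpace M] (f : M ≃ₜ M) (A : Set M) (r η : ℝ) (w : M) : Prop :=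
  Wl f.symm η w ⊆ basin f A r

/-- The disc of radius `ρ₁` at `w`, moved back by `f^m`, is in the domain of the stage `i` of the
ladder over `q`. -/
def Dom {M : Type v} [MetricSpace M] (f : M ≃ₜ M) {u : ℕ}
    (φ : M → EuclideanSpace ℝ (Fin u) → M) (e ρ₁ : ℝ) (q : ℕ → M) (i m : ℕ) (w : M) : Prop :=
  ∀ s ∈ closedBall (0 : EuclideanSpace ℝ (Fin u)) ρ₁, ∃ z', Lad f e q i (f.symm^[m] (φ w s)) z'

/-- `h` is the map from the disc of radius `ρ₁` at `w` to the disc at `q i`, given by the ladder,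
in coordinates. -/
structure HolMap {M : Type v} [MetricSpace M] (f : M ≃ₜ M) {u : ℕ}
    (φ : M → EuclideanSpace ℝ (Fin u) → M) (e ρ ρ₁ : ℝ) (q : ℕ → M) (i m : ℕ) (w : M)
    (h : EuclideanSpace ℝ (Fin u) → EuclideanSpace ℝ (Fin u)) : Prop where
  cont : ContinuousOn h (closedBall 0 1)
  opn : ∀ t ∈ Ioo (1 / 2 : ℝ) 1, IsOpen (h '' ball 0 t)
  mem : ∀ s ∈ closedBall (0 : EuclideanSpace ℝ (Fin u)) 1, h s ∈ closedBall 0 (ρ / 2)
  lad : ∀ s ∈ closedBall (0 : EuclideanSpace ℝ (Fin u)) 1,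
    Lad f e q i (f.symm^[m] (φ w (ρ₁ • s))) (φ (q i) (h s))

end Pool.Agent.Lib.MP610fe3.T6
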