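import Pool.Agent.Lib.MP_610fe3_an.T6.Free
import Pool.Agent.Lib.MP_610fe3_an.T6.Cells

/-!
# Module PATHS: the ladder from a point of the basin to the attractor (helper23)
-/

open Set Filter Function Metric
open scoped Topology

namespace Pool.Agent.Lib.MP610fe3.T6

open Cf H6 T4 FreeM BasM

universe v

namespace PathsM

theorem iter_symm_add {M : Type v} [MetricSpace M] (f : M ≃ₜ M) {k n : ℕ} (h : k ≤ n) (x : M) :
    f^[k] (f.symm^[n] x) = f.symm^[n - k] x := by
  obtain ⟨j, rfl⟩ := Nat.exists_eq_add_of_le h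
  rw [iterate_add_apply, iterate_symm_iterate, Nat.add_sub_cancel_left]

end PathsM

open PathsM

theorem specPaths : SpecPaths.{v} := by
  intro M _ _ f u φ C a b κ r r₁ e ρ ρs Λ b₂ A hS hA hρs hΛ hb₂ hsl ε hε y hy
  have hh := hyp hS
  have hC : 1 ≤ C := hS.fwd.one_le
  have hC0 : 0 < C := by linarith
  obtain ⟨n₀, x, hx, h⟩ := hy
  obtain ⟨m₀, hm₀⟩ := wl_small hh.fwd hρs
  have h1 := hm₀ m₀ le_rfl _ _ h
  rw [← iterate_add_apply] at h1
  set n : ℕ := m₀ + n₀ with hn
  have hxA : f^[m₀] x ∈ A := (iter_mem hA.inv m₀ x).2 hx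
  obtain ⟨γ, hγc, hγ0, hγ1, hγr, hγΛ⟩ := hsl (f^[n] y) (f^[m₀] x) (Wl_comm h1)
  set E : ℝ := Real.exp b₂ with hE
  have hE1 : 1 ≤ E := Real.one_le_exp hb₂
  have hE0 : 0 < E := by linarith
  refine ⟨C * Λ * E ^ n / ε + 2, by positivity, fun m => ?_⟩
  set K : ℕ := ⌈C * Λ * E ^ (m + n) / ε⌉₊ + 1 with hK
  have hK1 : 1 ≤ K := by omega
  have hKpos : (0 : ℝ) < K := by exact_mod_cast hK1
  have hKge : C * Λ * E ^ (m + n) / ε ≤ K := by
    rw [hK]
    push_cast
    linarith [Nat.le_ceil (C * Λ * E ^ (m + n) / ε)]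
  have hKge' : C * Λ * E ^ (m + n) / K ≤ ε := by
    rw [div_le_iff₀ hKpos]
    rw [div_le_iff₀ hε] at hKge
    linarith
  have hmem : ∀ l : ℕ, l ≤ K → (l : ℝ) / K ∈ Icc (0 : ℝ) 1 := fun l hl => by
    refine ⟨by positivity, ?_⟩
    rw [div_le_one hKpos]
    exact_mod_cast hl
  refine ⟨K, fun l => f.symm^[m + n] (γ (l / K)), ?_, ?_, ?_, ?_⟩
  · have h2 : (K : ℝ) ≤ C * Λ * E ^ (m + n) / ε + 2 := by
      rw [hK]
      push_cast
      have : 0 ≤ C * Λ * E ^ (m + n) / ε := by positivity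
      linarith [Nat.ceil_lt_add_one this]
    have h3 : (1 : ℝ) ≤ E ^ m := one_le_pow₀ hE1
    have h4 : Real.exp (b₂ * m) = E ^ m := by
      rw [hE, ← Real.exp_nat_mul, mul_comm]
    rw [h4]
    calc (K : ℝ) ≤ C * Λ * E ^ (m + n) / ε + 2 := h2
      _ ≤ C * Λ * E ^ (m + n) / ε + 2 * E ^ m := by linarith
      _ = (C * Λ * E ^ n / ε + 2) * E ^ m := by rw [pow_add]; ring
  · simp only [Nat.cast_zero, zero_div, hγ0]
    rw [iterate_add_apply, CellsM.sii]
  · simp only
    rw [div_self hKpos.ne', hγ1]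
    exact (symm_iter_mem hA.inv _ _).2 hxA
  · intro l hl k
    have hl1 := hmem l hl.le
    have hl2 := hmem (l + 1) hl
    push_cast at hl2
    have habs : |((l : ℝ) + 1) / K - l / K| = 1 / K := by
      rw [← sub_div, add_sub_cancel_left, abs_of_pos (by positivity)]
    simp only [Nat.cast_add, Nat.cast_one]
    rcases le_total k (m + n) with hk | hk
    · rw [iter_symm_add f hk, iter_symm_add f hk]
      have h2 := hγΛ (m + n - k) _ hl2 _ hl1
      rw [habs] at h2
      refine h2.trans (le_trans ?_ hKge')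
      have h3 : E ^ (m + n - k) ≤ E ^ (m + n) := pow_le_pow_right₀ hE1 (Nat.sub_le _ _)
      calc Λ * E ^ (m + n - k) * (1 / K) ≤ Λ * E ^ (m + n) * (1 / K) := by gcongr
        _ ≤ C * (Λ * E ^ (m + n) * (1 / K)) := by
            have : 0 ≤ Λ * E ^ (m + n) * (1 / K) := by positivity
            nlinarith
        _ = C * Λ * E ^ (m + n) / K := by ring
    · obtain ⟨j, rfl⟩ := Nat.exists_eq_add_of_le hk
      have hit : ∀ z : M, f^[m + n + j] (f.symm^[m + n] z) = f^[j] z := fun z => by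
        rw [add_comm (m + n) j, iterate_add_apply f j (m + n), iterate_symm_iterate]
      rw [hit, hit]
      have h2 := hS.fwd.dec _ _ (hγr _ hl2 _ hl1) j
      have h3 := hγΛ 0 _ hl2 _ hl1
      rw [habs] at h3
      simp only [iterate_zero, id, pow_zero, mul_one] at h3
      have h4 : Real.exp (-b) ^ j ≤ 1 := pow_le_one₀ (Real.exp_pos _).le
        (Real.exp_le_one_iff.2 (by linarith [hS.b_pos]))
      have h5 : (1 : ℝ) ≤ E ^ (m + n) := one_le_pow₀ hE1
      refine h2.trans (le_trans ?_ hKge')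
      calc C * Real.exp (-b) ^ j * dist (γ ((l + 1) / K)) (γ (l / K))
          ≤ C * 1 * (Λ * (1 / K)) := by gcongr
        _ ≤ C * E ^ (m + n) * (Λ * (1 / K)) := by gcongr
        _ = C * Λ * E ^ (m + n) / K := by ring

end Pool.Agent.Lib.MP610fe3.T6
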