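import Mathlib

/-!
# The Euclidean part: specifications of the modules

Text of the proof: `/team-store/MP_610fe3_an_T6_PROOF.md`, Section 1. All sums over subfamilies
are written with `if`.
-/

open Set Filter Function Metric MeasureTheory
open scoped Topology

namespace Pool.Agent.Lib.MP610fe3.T6

universe v

/-- Module CONE: the points `z` such that the segment from `e` to `z` meets a small ball. -/
def SpecCone : Prop :=
  ∀ u : ℕ, 1 ≤ u → ∃ C : ℝ, 0 < C ∧ ∀ (e a p : EuclideanSpace ℝ (Fin u)) (r δ : ℝ), 0 < r →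
    r ≤ δ → e ∈ closedBall p δ → ∃ T : Set (EuclideanSpace ℝ (Fin u)), MeasurableSet T ∧
      (∀ z ∈ closedBall p δ, ∀ x ∈ segment ℝ e z, dist x a ≤ r → z ∈ T) ∧
      volume T ≤ ENNReal.ofReal (C * δ ^ u * (r / max (dist a e) r) ^ (u - 1))

open scoped Classical in
/-- Module PATH: a path with two segments which meets few of the balls. -/
def SpecPath : Prop :=
  ∀ u : ℕ, 1 ≤ u → ∃ C : ℝ, 0 < C ∧ ∀ (n : ℕ) (c : Fin n → EuclideanSpace ℝ (Fin u))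
    (D D' : Fin n → ℝ) (p e₁ e₂ : EuclideanSpace ℝ (Fin u)) (δ : ℝ), 0 < δ →
    (∀ i, 0 ≤ D i) → (∀ i, 0 < D' i ∧ D' i ≤ δ) → e₁ ∈ closedBall p δ → e₂ ∈ closedBall p δ →
    ∃ z ∈ closedBall p δ,
      (∑ i, if (∃ x ∈ segment ℝ e₁ z ∪ segment ℝ z e₂, dist x (c i) ≤ D' i) then D i else 0) ≤
      C * ∑ i, if dist (c i) p ≤ 2 * δ then
        D i * ((D' i / max (dist (c i) e₁) (D' i)) ^ (u - 1) +
          (D' i / max (dist (c i) e₂) (D' i)) ^ (u - 1)) else 0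

/-- Module PACKS: packing of the source cells. -/
def SpecPackS : Prop :=
  ∀ u : ℕ, 1 ≤ u → ∃ C : ℝ, 0 < C ∧ ∀ (n : ℕ) (c : Fin n → EuclideanSpace ℝ (Fin u))
    (D : Fin n → ℝ) (K : ℝ), 1 ≤ K → (∀ i, c i ∈ closedBall 0 1) → (∀ i, 0 ≤ D i ∧ D i ≤ 2) →
    (∀ i j, i ≠ j → D i ≤ K * dist (c i) (c j)) → ∑ i, D i ^ u ≤ C * K ^ u

open scoped Classical in
/-- Module PACKT: packing of the target cells, in dyadic shells around `e`. -/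
def SpecPackT : Prop :=
  ∀ u : ℕ, 1 ≤ u → ∃ C : ℝ, 0 < C ∧ ∀ (n : ℕ) (c : Fin n → EuclideanSpace ℝ (Fin u))
    (D' : Fin n → ℝ) (e : EuclideanSpace ℝ (Fin u)) (K δ : ℝ) (L : ℕ), 1 ≤ K → 0 < δ →
    (∀ i, D' i ≤ δ ∧ δ ≤ 2 ^ L * D' i) → (∀ i j, i ≠ j → D' i ≤ K * dist (c i) (c j)) →
    (∑ i, if dist (c i) e ≤ 3 * δ then (D' i / max (dist (c i) e) (D' i)) ^ u else 0) ≤
      C * ((L + 1) * K ^ u)

open scoped Classical in
/-- Module CUT: a connected set which joins the image of the small ball to the complement of the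
image of the unit ball meets the images of many cells. -/
def SpecCut : Prop :=
  ∀ (u n : ℕ) (Cl : Fin n → Set (EuclideanSpace ℝ (Fin u))) (D : Fin n → ℝ)
    (h : EuclideanSpace ℝ (Fin u) → EuclideanSpace ℝ (Fin u))
    (P : Set (EuclideanSpace ℝ (Fin u))),
    ContinuousOn h (closedBall 0 1) →
    (∀ t ∈ Ioo (1 / 2 : ℝ) 1, IsOpen (h '' ball 0 t)) → (closedBall 0 1 ⊆ ⋃ i, Cl i) →
    (∀ i, ∀ s ∈ Cl i, ∀ t ∈ Cl i, dist s t ≤ D i) → IsPreconnected P →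
    (∃ s ∈ closedBall (0 : EuclideanSpace ℝ (Fin u)) (1 / 2), h s ∈ P) →
    (∃ x ∈ P, x ∉ h '' closedBall 0 1) →
    1 / 2 ≤ ∑ i, if (∃ s ∈ Cl i, s ∈ closedBall 0 1 ∧ h s ∈ P) then D i else 0

/-- Module PL: the image of the small ball is small if the image of the unit ball contains no
large ball. -/
def SpecPl : Prop :=
  ∀ u : ℕ, 1 ≤ u → ∃ C : ℝ, 0 < C ∧ ∀ (n : ℕ) (Cl : Fin n → Set (EuclideanSpace ℝ (Fin u)))
    (c c' : Fin n → EuclideanSpace ℝ (Fin u)) (D D' : Fin n → ℝ)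
    (h : EuclideanSpace ℝ (Fin u) → EuclideanSpace ℝ (Fin u)) (K K' δ : ℝ) (L : ℕ),
    1 ≤ K → 1 ≤ K' → 0 < δ →
    ContinuousOn h (closedBall 0 1) →
    (∀ t ∈ Ioo (1 / 2 : ℝ) 1, IsOpen (h '' ball 0 t)) → (closedBall 0 1 ⊆ ⋃ i, Cl i) →
    (∀ i, c i ∈ closedBall 0 1) → (∀ i, 0 ≤ D i ∧ D i ≤ 2) →
    (∀ i, ∀ s ∈ Cl i, ∀ t ∈ Cl i, dist s t ≤ D i) →
    (∀ i j, i ≠ j → D i ≤ K * dist (c i) (c j)) →
    (∀ i, D' i ≤ δ ∧ δ ≤ 2 ^ L * D' i) →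
    (∀ i, ∀ s ∈ Cl i, s ∈ closedBall 0 1 → dist (h s) (c' i) ≤ D' i) →
    (∀ i j, i ≠ j → D' i ≤ K' * dist (c' i) (c' j)) →
    (∀ p, ¬ closedBall p δ ⊆ h '' closedBall 0 1) →
    ∀ s ∈ closedBall (0 : EuclideanSpace ℝ (Fin u)) (1 / 2), ∀ t ∈ closedBall 0 (1 / 2),
      dist (h s) (h t) ≤ C * K ^ u * ((L + 1) * K' ^ u) ^ (u - 1) * δ

/-- Module WALK: displacement along a path whose points have levels. -/
def SpecWalk : Prop :=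
  ∀ a κ c T : ℝ, κ < a → 0 ≤ κ → 0 < c → 0 < T → ∃ C : ℝ, 0 < C ∧
    ∀ (X : Type v) [MetricSpace X] (G : ℝ → X) (lev : ℝ → ℕ) (Y E : ℝ) (J : ℕ), 0 ≤ Y → 0 ≤ E →
      (∀ t ∈ Icc (0 : ℝ) Y, lev t ≤ J) → (∀ t ∈ Icc (0 : ℝ) Y, t ≤ T * (lev t + 1)) →
      (∀ t ∈ Icc (0 : ℝ) Y, ∀ t' ∈ Icc (0 : ℝ) Y, t ≤ t' → t' - t ≤ c * Real.exp (-(κ * lev t)) →
        dist (G t') (G t) ≤ E * Real.exp (-(a * lev t))) →
      dist (G Y) (G 0) ≤ C * E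

end Pool.Agent.Lib.MP610fe3.T6
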