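import Pool.Agent.Lib.MP_610fe3_an.T6.Defs
import Pool.Agent.Lib.MP_610fe3_an.T6.SpecE

/-!
# The dynamical part: specifications of the modules

Text of the proof: `/team-store/MP_610fe3_an_T6_PROOF.md`, Sections 2 to 5.
-/

open Set Filter Function Metric
open scoped Topology

namespace Pool.Agent.Lib.MP610fe3.T6

open Cf H6 T4

universe v w

/-- Module TR (transport of Bowen balls along a ladder, both directions, and uniqueness). -/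
def SpecTr : Prop :=
  ∀ {M : Type v} [MetricSpace M] (f : M ≃ₜ M) (u : ℕ) (φ : M → EuclideanSpace ℝ (Fin u) → M)
    (C a b κ r r₁ e ρ : ℝ), Sys f u φ C a b κ r r₁ e ρ →
    ∀ (q : ℕ → M) (l : ℕ),
      (∀ z z' z'', Lad f (2 * e) q l z z' → Lad f (2 * e) q l z z'' → z' = z'') ∧
      (∀ z w z', Lad f (2 * e) q l z z' → Lad f (2 * e) q l w z' → z = w) ∧
      ∀ (N : ℕ) (η : ℝ) (z w z' w' : M), 0 < η → 16 * C * η ≤ e →
        l * (C * Real.exp (-(b * N)) * (2 * e)) ≤ η →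
        Lad f (2 * e) q l z z' → Lad f (2 * e) q l w w' →
        ((∀ k ≤ N, dist (f^[k] z) (f^[k] w) ≤ 2 * η) →
          ∀ k ≤ N, dist (f^[k] z') (f^[k] w') ≤ 4 * C * η) ∧
        ((∀ k ≤ N, dist (f^[k] z') (f^[k] w') ≤ 2 * η) →
          ∀ k ≤ N, dist (f^[k] z) (f^[k] w) ≤ 4 * C * η)

/-- Module HOL (the stage map of a ladder, in coordinates, is continuous and open: the backward
ladder exists near any ladder). -/
def SpecHol : Prop :=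
  ∀ {M : Type v} [MetricSpace M] [CompactSpace M] (f : M ≃ₜ M) (u : ℕ)
    (φ : M → EuclideanSpace ℝ (Fin u) → M) (C a b κ r r₁ e ρ η ρ₁ : ℝ),
    Sys f u φ C a b κ r r₁ e ρ → Sc C e ρ η ρ₁ →
    ∀ (q : ℕ → M) (i m : ℕ) (w : M), Dom f φ e ρ₁ q i m w → ∃ h, HolMap f φ e ρ ρ₁ q i m w h

/-- Module CELLS (Bowen balls are almost round): `p`, `p'` are in the Bowen ball of `g`, and `g'`
is separated from `g`. -/
def SpecCells : Prop :=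
  ∀ {M : Type v} [MetricSpace M] (f : M ≃ₜ M) (u : ℕ) (φ : M → EuclideanSpace ℝ (Fin u) → M)
    (C a b κ r r₁ e ρ : ℝ), Sys f u φ C a b κ r r₁ e ρ →
    ∀ η₁ η₂ : ℝ, 0 < η₁ → η₁ ≤ r → 0 < η₂ → ∃ C₁ : ℝ, 0 < C₁ ∧
    ∀ (N : ℕ) (g g' p p' : M), p ∈ Wl f.symm (2 * e) g → p' ∈ Wl f.symm (2 * e) g →
      g' ∈ Wl f.symm (2 * e) g → (∀ k ≤ N, dist (f^[k] p) (f^[k] g) ≤ η₁) →
      (∀ k ≤ N, dist (f^[k] p') (f^[k] g) ≤ η₁) → (∃ k ≤ N, η₂ < dist (f^[k] g) (f^[k] g')) →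
      dist p p' ≤ C₁ * Real.exp (κ * N) * dist g g'

/-- Module FREE (bounded entrance time). -/
def SpecFree : Prop :=
  ∀ {M : Type v} [MetricSpace M] [CompactSpace M] (f : M ≃ₜ M) (u : ℕ)
    (φ : M → EuclideanSpace ℝ (Fin u) → M) (C a b κ r r₁ e ρ : ℝ) (A : Set M),
    Sys f u φ C a b κ r r₁ e ρ → Attr f A r → ∀ η δ : ℝ, 0 < η → 0 < δ →
    ∃ T : ℕ, ∀ n ≥ T, ∀ p, Free f A r η p → ∃ x ∈ A, f^[n] p ∈ Wl f δ x

/-- Module COUNT (every free disc has more separated points, with a bounded delay). -/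
def SpecCount : Prop :=
  ∀ {M : Type v} [MetricSpace M] [CompactSpace M] (f : M ≃ₜ M) (u : ℕ)
    (φ : M → EuclideanSpace ℝ (Fin u) → M) (C a b κ r r₁ e ρ η : ℝ) (A : Set M),
    Sys f u φ C a b κ r r₁ e ρ → Attr f A r → 0 < η → 16 * C * η ≤ e →
    ∃ l : ℕ, ∀ (n : ℕ) (w w' : M), Free f A r (2 * η) w → Free f A r η w' →
      ∀ S : Finset M, (∀ p ∈ S, p ∈ Wl f.symm η w) →
        (∀ p ∈ S, ∀ p' ∈ S, p ≠ p' → ∃ k ≤ n, η < dist (f^[k] p) (f^[k] p')) →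
        ∃ S' : Finset M, S.card < S'.card ∧ (∀ p ∈ S', p ∈ Wl f.symm η w') ∧
          ∀ p ∈ S', ∀ p' ∈ S', p ≠ p' → ∃ k ≤ n + l, 4 * C * η < dist (f^[k] p) (f^[k] p')

/-- Module INR (inradius of the image of a disc). -/
def SpecInr : Prop :=
  ∀ {M : Type v} [MetricSpace M] [CompactSpace M] (f : M ≃ₜ M) (u : ℕ)
    (φ : M → EuclideanSpace ℝ (Fin u) → M) (C a b κ r r₁ e ρ η ρ₁ : ℝ) (A : Set M),
    Sys f u φ C a b κ r r₁ e ρ → Attr f A r → Sc C e ρ η ρ₁ →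
    ∃ C₁ : ℝ, 0 < C₁ ∧ ∀ (q : ℕ → M) (i m N : ℕ) (w : M)
      (h : EuclideanSpace ℝ (Fin u) → EuclideanSpace ℝ (Fin u)),
      m ≤ N → i * (C * Real.exp (-(b * N)) * (2 * e)) ≤ η → Free f A r (2 * η) w →
      HolMap f φ e ρ ρ₁ q i m w h →
      ∀ p, ¬ closedBall p (C₁ * Real.exp (-(a * m))) ⊆ h '' closedBall 0 1

/-- Module EY (the key estimate). -/
def SpecEy : Prop :=
  ∀ {M : Type v} [MetricSpace M] [CompactSpace M] (f : M ≃ₜ M) (u : ℕ)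
    (φ : M → EuclideanSpace ℝ (Fin u) → M) (C a b κ r r₁ e ρ η ρ₁ : ℝ) (A : Set M),
    Sys f u φ C a b κ r r₁ e ρ → Attr f A r → Sc C e ρ η ρ₁ →
    ∃ C₁ : ℝ, 0 < C₁ ∧ ∀ (q : ℕ → M) (i m N : ℕ) (w : M), m ≤ N →
      i * (C * Real.exp (-(b * N)) * (2 * e)) ≤ η / (4 * C) → Free f A r (2 * η) w →
      Dom f φ e ρ₁ q i m w →
      ∀ s ∈ closedBall (0 : EuclideanSpace ℝ (Fin u)) (ρ₁ / 2), ∀ t ∈ closedBall 0 (ρ₁ / 2),
      ∀ z z', Lad f e q i (f.symm^[m] (φ w s)) z → Lad f e q i (f.symm^[m] (φ w t)) z' →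
        dist z z' ≤ C₁ * (N + 1) ^ (u - 1) *
          Real.exp (u * κ * (N - m) + u * (u - 1 : ℕ) * κ * N - a * m)

/-- Module LEVEL (levels of the points of a disc in the basin). -/
def SpecLevel : Prop :=
  ∀ {M : Type v} [MetricSpace M] [CompactSpace M] (f : M ≃ₜ M) (u : ℕ)
    (φ : M → EuclideanSpace ℝ (Fin u) → M) (C a b κ r r₁ e ρ η ρ₁ : ℝ),
    Sys f u φ C a b κ r r₁ e ρ → Sc C e ρ η ρ₁ →
    ∃ c T : ℝ, 0 < c ∧ 0 < T ∧ ∀ (y : M) (d : ℝ), 0 < d → d ≤ ρ₁ →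
      ∃ lev : EuclideanSpace ℝ (Fin u) → ℕ,
        (∀ s : ℝ, 0 < s → ∃ J : ℕ, ∀ x ∈ ball (0 : EuclideanSpace ℝ (Fin u)) d,
          s ≤ d - ‖x‖ → lev x ≤ J) ∧
        ∀ x ∈ ball (0 : EuclideanSpace ℝ (Fin u)) d,
          (∀ z ∈ Wl f.symm (2 * η) (f^[lev x] (φ y x)),
            ∃ x' ∈ ball (0 : EuclideanSpace ℝ (Fin u)) d, φ y x' = f.symm^[lev x] z) ∧
          Real.log (d / (d - ‖x‖)) ≤ T * (lev x + 1) ∧
          ∀ x' ∈ ball (0 : EuclideanSpace ℝ (Fin u)) d,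
            dist x' x ≤ c * Real.exp (-(κ * lev x)) * (d - ‖x‖) →
            ∃ s ∈ closedBall (0 : EuclideanSpace ℝ (Fin u)) (ρ₁ / 2),
              φ (f^[lev x] (φ y x)) s = f^[lev x] (φ y x')

/-- Module START (a disc in the basin whose boundary meets the complement of the basin). -/
def SpecStart : Prop :=
  ∀ {M : Type v} [MetricSpace M] [CompactSpace M] [ConnectedSpace M] (f : M ≃ₜ M) (u : ℕ)
    (φ : M → EuclideanSpace ℝ (Fin u) → M) (C a b κ r r₁ e ρ : ℝ) (A : Set M),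
    Sys f u φ C a b κ r r₁ e ρ → Attr f A r → basin f A r ≠ univ → ∀ d₀ : ℝ, 0 < d₀ →
    ∃ (y : M) (d : ℝ) (x : EuclideanSpace ℝ (Fin u)), 0 < d ∧ d ≤ d₀ ∧ ‖x‖ = d ∧
      φ y x ∉ basin f A r ∧ ∀ x' ∈ ball (0 : EuclideanSpace ℝ (Fin u)) d, φ y x' ∈ basin f A r

/-- Module PATHS (the ladder from a point of the basin to the attractor). -/
def SpecPaths : Prop :=
  ∀ {M : Type v} [MetricSpace M] [CompactSpace M] (f : M ≃ₜ M) (u : ℕ)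
    (φ : M → EuclideanSpace ℝ (Fin u) → M) (C a b κ r r₁ e ρ ρs Λ b₂ : ℝ) (A : Set M),
    Sys f u φ C a b κ r r₁ e ρ → Attr f A r → 0 < ρs → 0 ≤ Λ → 0 ≤ b₂ →
    Slow f ρs r Λ (Real.exp b₂) → ∀ ε : ℝ, 0 < ε → ∀ y ∈ basin f A r, ∃ Λ' : ℝ, 0 < Λ' ∧
    ∀ m : ℕ, ∃ (K : ℕ) (q : ℕ → M), (K : ℝ) ≤ Λ' * Real.exp (b₂ * m) ∧ q 0 = f.symm^[m] y ∧
      q K ∈ A ∧ ∀ l < K, q (l + 1) ∈ Wl f ε (q l)

/-- Module QC (quasiconformality on the unstable sets, from the derivative; `s : Split E f`). -/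
def SpecQc : Prop :=
  ∀ {M : Type v} {W : Type w} [MetricSpace M] [CompactSpace M] [NormedAddCommGroup W] [NormedSpace ℝ W]
    {E : Emb M W} {f : M ≃ₜ M} (s : Split E f), s.Hyperbolic → ∀ C₀ k k' : ℝ, 1 ≤ k → k < k' →
    (∀ (n : ℕ) (x : M) (v w : W), ‖iterD s.D f n x (s.U x v)‖ * ‖s.U x w‖ ≤
      C₀ * k ^ n * ‖iterD s.D f n x (s.U x w)‖ * ‖s.U x v‖) →
    ∃ r C : ℝ, 0 < r ∧ 1 ≤ C ∧ Qc f r C (Real.log k')

/-- The abstract theorem. -/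
def SpecCore : Prop :=
  ∀ {M : Type v} [MetricSpace M] [CompactSpace M] [ConnectedSpace M] (f : M ≃ₜ M) (u : ℕ)
    (φ : M → EuclideanSpace ℝ (Fin u) → M) (C a b κ r r₁ e ρ ρs Λ b₂ : ℝ) (A : Set M),
    Sys f u φ C a b κ r r₁ e ρ → Attr f A r → 0 < ρs → 0 ≤ Λ → b ≤ b₂ →
    Slow f ρs r Λ (Real.exp b₂) → κ < a → u * κ * (u * b₂ - b) < a * b → basin f A r = univ

end Pool.Agent.Lib.MP610fe3.T6
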